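import Mathlib.Tactic.Positivity
import Mathlib.Tactic.Linarith
import Mathlib.Tactic.FieldSimp
import Mathlib.Tactic.Ring
import Mathlib.Data.Real.Basic

set_option autoImplicit false

/-!
Inequalities between real parameters, used in `AvgL`.
-/

namespace Pool.Agent.W8d7136b

section
variable {R A B N : ℝ}

/-- `Q = B² (2A)²` dominates `1`, `A`, `A B` -/
theorem AvgR_Q (hA : 1 ≤ A) (hB : 1 ≤ B) :
    1 ≤ B ^ 2 * (2 * A) ^ 2 ∧ A ≤ B ^ 2 * (2 * A) ^ 2 ∧ A * B ≤ B ^ 2 * (2 * A) ^ 2 := by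
  have h1 : 1 ≤ B ^ 2 := one_le_pow₀ hB
  have hBB : B ≤ B ^ 2 := by
    rw [sq]; exact le_mul_of_one_le_left (by linarith) hB
  have h2A : 1 ≤ 2 * A := by linarith
  have hAA : A ≤ (2 * A) ^ 2 := by
    have h : 2 * A ≤ (2 * A) ^ 2 := by
      rw [sq]; exact le_mul_of_one_le_left (by linarith) h2A
    linarith
  have h2 : 1 ≤ (2 * A) ^ 2 := one_le_pow₀ h2A
  refine ⟨one_le_mul_of_one_le_of_one_le h1 h2, ?_, ?_⟩
  · calc A ≤ (2 * A) ^ 2 := hAA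
      _ ≤ B ^ 2 * (2 * A) ^ 2 := le_mul_of_one_le_left (by linarith) h1
  · rw [mul_comm A B]
    exact mul_le_mul hBB hAA (by linarith) (by linarith)

theorem AvgR_R (hR : 100 ≤ R) : 100 * R ^ 2 ≤ R ^ 4 ∧ R ≤ R ^ 4 ∧ R ≤ R ^ 2 := by
  have h1 : R ≤ R ^ 2 := by
    rw [sq]; exact le_mul_of_one_le_left (by linarith) (by linarith)
  have h2 : 100 * R ^ 2 ≤ R ^ 4 := by
    calc 100 * R ^ 2 ≤ R ^ 2 * R ^ 2 :=
          mul_le_mul_of_nonneg_right (by linarith) (by positivity)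
      _ = R ^ 4 := by ring
  have h3 : 0 ≤ R ^ 2 := by positivity
  exact ⟨h2, by linarith, h1⟩

/-- the five inequalities between the parameters -/
theorem AvgR_par (hR : 100 ≤ R) (hA : 1 ≤ A) (hB : 1 ≤ B)
    (hN : N = R ^ 4 * (B ^ 2 * (2 * A) ^ 2)) :
    R * (A * B) ≤ N ∧ 100 * R ^ 2 * A ≤ N ∧ 100 * R ^ 2 ≤ N ∧ R * B ≤ N ∧ R ≤ N := by
  obtain ⟨q1, q2, q3⟩ := AvgR_Q hA hB
  obtain ⟨r1, r2, r3⟩ := AvgR_R hR
  have hR0 : 0 ≤ R := by linarith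
  have hR4 : 0 ≤ R ^ 4 := by positivity
  have i1 : R * (A * B) ≤ N := by
    rw [hN]
    have : 0 ≤ A * B := mul_nonneg (by linarith) (by linarith)
    exact mul_le_mul r2 q3 this hR4
  have i2 : 100 * R ^ 2 * A ≤ N := by
    rw [hN]
    exact mul_le_mul r1 q2 (by linarith) hR4
  have i3 : 100 * R ^ 2 ≤ N := by
    rw [hN]
    calc 100 * R ^ 2 ≤ R ^ 4 := r1
      _ ≤ R ^ 4 * (B ^ 2 * (2 * A) ^ 2) := le_mul_of_one_le_right hR4 q1
  refine ⟨i1, i2, i3, le_trans ?_ i1, by linarith [sq_nonneg R]⟩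
  have : B ≤ A * B := le_mul_of_one_le_left (by linarith) hA
  exact mul_le_mul_of_nonneg_left this hR0

end

/-- second clause of `avg` -/
theorem AvgR_2 {R B N C : ℝ} (hC : 0 ≤ C) (hR : 0 < R) (hN : 0 < N) (i4 : R * B ≤ N) :
    R / N * (10 ^ 8 * C * (N / R + B)) ≤ 10 ^ 10 * C := by
  have h1 : R / N * (10 ^ 8 * C * (N / R + B)) = 10 ^ 8 * C * (1 + R * B / N) := by
    field_simp
  have h2 : R * B / N ≤ 1 := (div_le_one hN).2 i4
  rw [h1]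
  calc 10 ^ 8 * C * (1 + R * B / N) ≤ 10 ^ 8 * C * (1 + 1) :=
        mul_le_mul_of_nonneg_left (by linarith) (by positivity)
    _ ≤ 10 ^ 10 * C := by linarith

/-- third clause of `avg` -/
theorem AvgR_3 {R A B N C w : ℝ} (hC : 0 ≤ C) (hR : 0 < R) (hN : 0 < N) (hA : 0 ≤ A)
    (hw : 0 ≤ w) (i1 : R * (A * B) ≤ N) (i2 : 100 * R ^ 2 * A ≤ N) (hwM : 1 ≤ R * w) :
    R / N * (10 ^ 8 * C * w * (N / R) + A * (96 * C + 10 ^ 8 * C * w * B)) ≤
      10 ^ 10 * C * w := by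
  have e : R / N * (10 ^ 8 * C * w * (N / R) + A * (96 * C + 10 ^ 8 * C * w * B)) =
      10 ^ 8 * (C * w) + C * (96 * R * A / N) + 10 ^ 8 * (C * w) * (R * (A * B) / N) := by
    field_simp
    ring
  have hCw : 0 ≤ C * w := mul_nonneg hC hw
  have h6 : R * (A * B) / N ≤ 1 := (div_le_one hN).2 i1
  have h7 : 96 * R * A / N ≤ w := by
    rw [div_le_iff₀ hN]
    have h0 : 0 ≤ 96 * R * A := by positivity
    have h8 : 96 * R * A ≤ 96 * R * A * (R * w) := le_mul_of_one_le_right h0 hwM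
    have h9 : w * (100 * R ^ 2 * A) ≤ w * N := mul_le_mul_of_nonneg_left i2 hw
    have h10 : 0 ≤ w * (R ^ 2 * A) := by positivity
    have h11 : 96 * R * A * (R * w) = 96 * (w * (R ^ 2 * A)) := by ring
    have h12 : w * (100 * R ^ 2 * A) = 100 * (w * (R ^ 2 * A)) := by ring
    linarith
  have h11 : C * (96 * R * A / N) ≤ C * w := mul_le_mul_of_nonneg_left h7 hC
  have h12 : 10 ^ 8 * (C * w) * (R * (A * B) / N) ≤ 10 ^ 8 * (C * w) * 1 :=
    mul_le_mul_of_nonneg_left h6 (by positivity)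
  have h13 : (10 : ℝ) ^ 10 * C * w = 10 ^ 10 * (C * w) := by ring
  rw [e, h13]
  linarith

/-- fourth clause of `avg` -/
theorem AvgR_4 {R N C w : ℝ} (hC : 0 ≤ C) (hR : 0 < R) (hN : 0 < N)
    (i3 : 100 * R ^ 2 ≤ N) (hw : w ≤ (1 / R) ^ 2) :
    R / N * (10 ^ 7 * C * (N * w) + 48 * C) ≤ 10 ^ 10 * C * (1 / R) := by
  have h0 : 10 ^ 7 * C * (N * w) ≤ 10 ^ 7 * C * (N * (1 / R) ^ 2) :=
    mul_le_mul_of_nonneg_left (mul_le_mul_of_nonneg_left hw hN.le) (by positivity)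
  have h1 : R / N * (10 ^ 7 * C * (N * w) + 48 * C) ≤
      R / N * (10 ^ 7 * C * (N * (1 / R) ^ 2) + 48 * C) :=
    mul_le_mul_of_nonneg_left (by linarith) (by positivity)
  have e : R / N * (10 ^ 7 * C * (N * (1 / R) ^ 2) + 48 * C) =
      10 ^ 7 * (C * (1 / R)) + 48 * (C * (R / N)) := by
    field_simp
  have h2 : R / N ≤ 1 / R := by
    rw [div_le_div_iff₀ hN hR]
    have : 0 ≤ R ^ 2 := sq_nonneg R
    have h : R * R = R ^ 2 := by ring
    linarith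
  have h3 : C * (R / N) ≤ C * (1 / R) := mul_le_mul_of_nonneg_left h2 hC
  have h4 : 0 ≤ C * (1 / R) := by positivity
  have h5 : (10 : ℝ) ^ 10 * C * (1 / R) = 10 ^ 10 * (C * (1 / R)) := by ring
  rw [h5]
  linarith

/-- fifth clause of `avg` -/
theorem AvgR_5 {C q : ℝ} (hC : 0 ≤ C) (hq : 0 ≤ q) : q * (3 * C) ≤ 10 ^ 10 * C * q := by
  have h : 0 ≤ C * q := mul_nonneg hC hq
  have e1 : q * (3 * C) = 3 * (C * q) := by ring
  have e2 : (10 : ℝ) ^ 10 * C * q = 10 ^ 10 * (C * q) := by ring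
  rw [e1, e2]
  linarith

end Pool.Agent.W8d7136b
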