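import Pool.Agent.W_MP_8d7136_h58b.Count
import Pool.Agent.W_MP_8d7136_h58b.AvgLR

set_option autoImplicit false

/-!
Averages of rapidly increasing sequences.  Port of `Pool.Agent.W_MP_8d7136_h58.AvgL`.
-/

namespace Pool.Agent.W8d7136b

open Pool.Agent.W8d7136 (mm tt nn code wt)

variable {S : Sys}

/-- `M a` composed with a multiplier is a multiplier -/
theorem AvgL_M {m : W →ₗ[ℂ] W} (hm : Mult m) {a : ℕ → ℂ} (ha : U a) : Mult ((M a).comp m) := by
  obtain ⟨A, a', hA, ha', rfl⟩ := hm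
  refine ⟨A, fun k => a k * a' k, hA, U_mul ha ha', ?_⟩
  apply LinearMap.ext
  intro v
  simp only [LinearMap.comp_apply]
  rw [M_res, M_M]

theorem AvgL_id : Mult (LinearMap.id : W →ₗ[ℂ] W) := by
  refine ⟨Set.Ici 0, fun _ => 1, Or.inr ⟨0, rfl⟩, U_one, ?_⟩
  apply LinearMap.ext
  intro v
  rw [LinearMap.comp_apply, M_one]
  funext i k
  rw [res_apply, if_pos (show i ∈ Set.Ici 0 from Nat.zero_le i)]
  rfl

theorem AvgL_hi_le_lo {C : ℝ} {K : ℕ} {lo hi J : ℕ → ℕ} {x : ℕ → W} (hx : RISf S C K lo hi J x)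
    {k k' : ℕ} (h : k < k') (hk' : k' < K) : hi k ≤ lo k' := by
  induction k', h using Nat.le_induction with
  | base => exact hx.hilo k hk'
  | succ j hj ih =>
    have h1 := ih (by omega)
    have h2 := hx.lohi j (by omega)
    have h3 := hx.hilo j hk'
    omega

theorem AvgL_coord (hS : Good S) {C : ℝ} (hC : 0 ≤ C) {K : ℕ} {lo hi J : ℕ → ℕ} {x : ℕ → W}
    (hx : RISf S C K lo hi J x) (i : ℕ) :
    ∑ k ∈ Finset.range K, ∑ l ∈ Finset.range (i + 1), ‖x k i l‖ ≤ 3 * C := by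
  by_cases h : ∃ k ∈ Finset.range K, lo k ≤ i ∧ i < hi k
  · obtain ⟨k, hk, h1⟩ := h
    rw [Finset.mem_range] at hk
    rw [Finset.sum_eq_single_of_mem k (Finset.mem_range.2 hk)]
    · exact coord_le hS hC (NB_iff.1 (hx.blk k hk).nb (i + 1))
    · intro k' hk' hkk
      rw [Finset.mem_range] at hk'
      refine Finset.sum_eq_zero fun l _ => ?_
      rw [norm_eq_zero]
      refine (hx.blk k' hk').supp i l ?_
      rcases lt_or_gt_of_ne hkk with h2 | h2
      · right; left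
        have := AvgL_hi_le_lo hx h2 hk
        omega
      · left
        have := AvgL_hi_le_lo hx h2 hk'
        omega
  · push Not at h
    rw [Finset.sum_eq_zero]
    · linarith
    · intro k hk
      refine Finset.sum_eq_zero fun l _ => ?_
      rw [norm_eq_zero]
      have h1 := h k hk
      rw [Finset.mem_range] at hk
      refine (hx.blk k hk).supp i l ?_
      by_cases h2 : i < lo k
      · left; exact h2
      · right; left; exact h1 (not_lt.1 h2)

theorem AvgL_le {M' N : ℕ} (n : ℕ) (m : W →ₗ[ℂ] W) (x : ℕ → W) :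
    ‖e S n (m (((M' : ℂ) / (N : ℂ)) • ∑ k ∈ Finset.range N, x k))‖ ≤
      (M' : ℝ) / N * ∑ k ∈ Finset.range N, ‖e S n (m (x k))‖ := by
  rw [map_smul, map_smul, map_sum, map_sum, norm_smul, norm_div, Complex.norm_natCast,
    Complex.norm_natCast]
  exact mul_le_mul_of_nonneg_left (norm_sum_le _ _) (by positivity)

/-- the arithmetic facts -/
theorem AvgL_arith {J : ℕ} (hJ : 1 ≤ J) :
    (1 : ℝ) ≤ nn (J - 1) ∧ (1 : ℝ) ≤ (2 * nn (J - 1) : ℝ) ^ tt J ∧ (100 : ℝ) ≤ mm J ∧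
    (nn J : ℝ) = (mm J : ℝ) ^ 4 * (((2 * nn (J - 1) : ℝ) ^ tt J) ^ 2 * (2 * nn (J - 1) : ℝ) ^ 2) := by
  have h1 : (1 : ℝ) ≤ nn (J - 1) := by exact_mod_cast Pool.Agent.W8d7136.nn_pos (J - 1)
  refine ⟨h1, one_le_pow₀ (by linarith), ?_, ?_⟩
  · have := Pool.Agent.W8d7136.mm_ge J
    have h2 : ((2 ^ 100 : ℕ) : ℝ) ≤ (mm J : ℝ) := by exact_mod_cast this
    refine le_trans ?_ h2
    norm_num
  · obtain ⟨j, rfl⟩ : ∃ j, J = j + 1 := ⟨J - 1, by omega⟩
    rw [nn, Nat.add_sub_cancel]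
    push_cast
    ring

/-- see the old `avg` (`M a` composed with a multiplier is a multiplier) -/
theorem avg (hS : Good S) {C : ℝ} (hC : 0 ≤ C) {J : ℕ} (hJ : 1 ≤ J) {lo hi Jx : ℕ → ℕ} {x : ℕ → W}
    (hx : RISf S C (nn J) lo hi Jx x) :
    Avg S (10 ^ 10 * C) (lo 0) (hi (nn J - 1)) J
      (((mm J : ℂ) / (nn J : ℂ)) • ∑ k ∈ Finset.range (nn J), x k) := by
  obtain ⟨hA, hB, hM, hN⟩ := AvgL_arith hJ
  have hNpos : (0 : ℝ) < nn J := by exact_mod_cast (Pool.Agent.W8d7136.nn_pos J)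
  have hcard : ((Finset.range (nn J)).card : ℝ) = nn J := by rw [Finset.card_range]
  have h2t : (2 : ℝ) ^ tt J = mm J := by rw [Pool.Agent.W8d7136.mm_eq]; push_cast; rfl
  have hwJ : wt J = 1 / (mm J : ℝ) := rfl
  obtain ⟨i1, i2, i3, i4, -⟩ := AvgR_par hM hA hB hN
  have hMpos : (0 : ℝ) < mm J := by linarith
  refine ⟨?_, ?_, ?_, ?_, ?_⟩
  · intro i l hi'
    have hz : ∀ k ∈ Finset.range (nn J), x k i l = 0 := by
      intro k hk
      rw [Finset.mem_range] at hk
      refine (hx.blk k hk).supp i l ?_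
      rcases hi' with h1 | h1 | h1
      · left
        rcases Nat.eq_zero_or_pos k with h2 | h2
        · rw [h2]; exact h1
        · have h3 := AvgL_hi_le_lo hx h2 hk
          have h4 := hx.lohi 0 (by omega)
          omega
      · right; left
        rcases Nat.lt_or_ge k (nn J - 1) with h2 | h2
        · have h3 := AvgL_hi_le_lo hx h2 (by omega)
          have h4 := hx.lohi (nn J - 1) (by omega)
          omega
        · have h3 : k = nn J - 1 := by omega
          rw [h3]; exact h1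
      · right; right; exact h1
    rw [Pi.smul_apply, Pi.smul_apply, Finset.sum_apply, Finset.sum_apply, Finset.sum_eq_zero hz,
      smul_zero]
  · intro m hm n a ha
    have hm' := AvgL_M hm ha
    refine (AvgL_le n ((M a).comp m) x).trans ?_
    have h1 := (count_all hS hC hx hJ n).1 (tt J) le_rfl _ hm' _ (Finset.Subset.refl _)
    rw [hcard, h2t] at h1
    exact (mul_le_mul_of_nonneg_left h1 (by positivity)).trans (AvgR_2 hC hMpos hNpos i4)
  · intro m hm h hh n hn a ha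
    have hm' := AvgL_M hm ha
    refine (AvgL_le n ((M a).comp m) x).trans ?_
    obtain ⟨d, hd, rfl⟩ := hn
    have h1 := (count_all hS hC hx hJ n).2 d hd (tt J) le_rfl _ hm' _ (Finset.Subset.refl _)
    rw [hcard, h2t] at h1
    have hage : (d.age : ℝ) ≤ nn (J - 1) := by
      have h2 := hS.age3 n d hd
      have h3 : nn d.j ≤ nn (J - 1) := Pool.Agent.W8d7136.nn_mono (by omega)
      exact_mod_cast h2.trans h3
    have hw := Pool.Agent.W8d7136.wt_pos d.j
    have hwM : 1 ≤ (mm J : ℝ) * wt d.j := by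
      have h2 : wt J ≤ wt d.j := Pool.Agent.W8d7136.wt_anti hh.le
      rw [hwJ] at h2
      have h3 : (mm J : ℝ) * (1 / (mm J : ℝ)) = 1 := mul_one_div_cancel hMpos.ne'
      have h4 := mul_le_mul_of_nonneg_left h2 hMpos.le
      linarith
    have h5 : (d.age : ℝ) * (96 * C + 10 ^ 8 * C * wt d.j * (2 * nn (J - 1) : ℝ) ^ tt J) ≤
        nn (J - 1) * (96 * C + 10 ^ 8 * C * wt d.j * (2 * nn (J - 1) : ℝ) ^ tt J) :=
      mul_le_mul_of_nonneg_right hage (by positivity)
    exact (mul_le_mul_of_nonneg_left (h1.trans (add_le_add le_rfl h5)) (by positivity)).trans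
      (AvgR_3 hC hMpos hNpos (by linarith) hw.le i1 i2 hwM)
  · intro m hm h hh n hn
    refine (AvgL_le n m x).trans ?_
    have h1 := one_exc hS hC hx hn hm (Finset.Subset.refl _)
    rw [hcard] at h1
    have hw : wt h ≤ (1 / (mm J : ℝ)) ^ 2 := by
      have h2 : wt h ≤ wt (J + 1) := Pool.Agent.W8d7136.wt_anti (by omega)
      rwa [Pool.Agent.W8d7136.wt_succ, hwJ] at h2
    rw [hwJ]
    have e1 : (10 : ℝ) ^ 7 * C * ((nn J : ℝ) * wt h) = 10 ^ 7 * C * (nn J * wt h) := rfl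
    exact (mul_le_mul_of_nonneg_left h1 (by positivity)).trans (AvgR_4 hC hMpos hNpos i3 hw)
  · intro i
    have h2 : 0 ≤ (mm J : ℝ) / (nn J : ℝ) := by positivity
    have h1 : ∀ l, ‖((((mm J : ℂ) / (nn J : ℂ)) • ∑ k ∈ Finset.range (nn J), x k : W)) i l‖ ≤
        (mm J : ℝ) / (nn J : ℝ) * ∑ k ∈ Finset.range (nn J), ‖x k i l‖ := by
      intro l
      rw [Pi.smul_apply, Pi.smul_apply, Finset.sum_apply, Finset.sum_apply, smul_eq_mul, norm_mul,
        norm_div, Complex.norm_natCast, Complex.norm_natCast]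
      exact mul_le_mul_of_nonneg_left (norm_sum_le _ _) h2
    calc ∑ l ∈ Finset.range (i + 1),
          ‖((((mm J : ℂ) / (nn J : ℂ)) • ∑ k ∈ Finset.range (nn J), x k : W)) i l‖
        ≤ ∑ l ∈ Finset.range (i + 1), (mm J : ℝ) / (nn J : ℝ) * ∑ k ∈ Finset.range (nn J), ‖x k i l‖ :=
          Finset.sum_le_sum fun l _ => h1 l
      _ = (mm J : ℝ) / (nn J : ℝ) * ∑ k ∈ Finset.range (nn J), ∑ l ∈ Finset.range (i + 1), ‖x k i l‖ := by
          rw [← Finset.mul_sum, Finset.sum_comm]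
      _ ≤ (mm J : ℝ) / (nn J : ℝ) * (3 * C) := mul_le_mul_of_nonneg_left (AvgL_coord hS hC hx i) h2
      _ ≤ 10 ^ 10 * C * ((mm J : ℝ) / (nn J : ℝ)) := AvgR_5 hC h2

/-- an average is a block -/
theorem Blk_of_Avg {C : ℝ} {lo hi J : ℕ} {y : W} (hy : Avg S C lo hi J y) :
    Blk S C lo hi J y :=
  ⟨hy.supp, hy.nb LinearMap.id AvgL_id, fun h hh => hy.lt LinearMap.id AvgL_id h hh⟩

end Pool.Agent.W8d7136b
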