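import Mathlib

set_option autoImplicit false

/-!
Continuous functions on the Stone-Cech compactification of the naturals.
-/

open Filter Topology

namespace Pool.Agent.W8d7136b

theorem BS_exists {a : ℕ → ℂ} {B : ℝ} (ha : ∀ n, ‖a n‖ ≤ B) :
    ∃ f : C(StoneCech ℕ, ℂ), ∀ n, f (stoneCechUnit n) = a n := by
  have : CompactSpace (Metric.closedBall (0 : ℂ) B) :=
    isCompact_iff_compactSpace.1 (isCompact_closedBall 0 B)
  have hg : Continuous (fun n : ℕ => (⟨a n, mem_closedBall_zero_iff.2 (ha n)⟩ :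
      Metric.closedBall (0 : ℂ) B)) := continuous_of_discreteTopology
  refine ⟨⟨fun x => Subtype.val (stoneCechExtend hg x),
    continuous_subtype_val.comp (continuous_stoneCechExtend hg)⟩, fun n => ?_⟩
  change Subtype.val (stoneCechExtend hg (stoneCechUnit n)) = a n
  rw [stoneCechExtend_stoneCechUnit]

theorem BS_ext {f g : C(StoneCech ℕ, ℂ)} (h : ∀ n, f (stoneCechUnit n) = g (stoneCechUnit n)) :
    f = g := by
  have h1 : (f : StoneCech ℕ → ℂ) = g :=
    denseRange_stoneCechUnit.equalizer f.continuous g.continuous (funext h)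
  exact ContinuousMap.ext fun x => congrFun h1 x

theorem BS_norm {f : C(StoneCech ℕ, ℂ)} {B : ℝ} (hB : 0 ≤ B)
    (h : ∀ n, ‖f (stoneCechUnit n)‖ ≤ B) : ‖f‖ ≤ B := by
  refine (ContinuousMap.norm_le f hB).2 fun x => ?_
  exact denseRange_stoneCechUnit.induction_on (p := fun x => ‖f x‖ ≤ B) x
    (isClosed_le f.continuous.norm continuous_const) h

theorem BS_le (f : C(StoneCech ℕ, ℂ)) (n : ℕ) : ‖f (stoneCechUnit n)‖ ≤ ‖f‖ :=
  f.norm_coe_le_norm _

end Pool.Agent.W8d7136b
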