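import Pool.Agent.W_MP_8d7136_h58b.EBasic

set_option autoImplicit false

/-!
Boundedness of the basic operators.
-/

namespace Pool.Agent.W8d7136b

open Pool.Agent.W8d7136 (mm tt nn code wt)

variable {S : Sys}

theorem Bd_M_le {i : ℕ} {v : W} {C : ℝ} (h : ∀ a, U a → ‖e S i (M a v)‖ ≤ C)
    {b : ℕ → ℂ} {β : ℝ} (hb : ∀ k, ‖b k‖ ≤ β) : ‖e S i (M b v)‖ ≤ β * C := by
  have hβ : 0 ≤ β := (norm_nonneg _).trans (hb 0)
  rcases hβ.eq_or_lt with h0 | h0
  · have hb0 : b = fun _ => 0 := by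
      funext k
      have := hb k
      rw [← h0] at this
      exact norm_eq_zero.1 (le_antisymm this (norm_nonneg _))
    rw [hb0, M_zero, map_zero, norm_zero, ← h0, zero_mul]
  · have hb1 : b = fun k => (β : ℂ) * (b k / (β : ℂ)) := by
      funext k
      have : (β : ℂ) ≠ 0 := by exact_mod_cast h0.ne'
      field_simp
    rw [hb1, M_smul, map_smul, smul_eq_mul, norm_mul, Complex.norm_real, Real.norm_eq_abs,
      abs_of_pos h0]
    refine mul_le_mul_of_nonneg_left (h _ fun k => ?_) hβ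
    rw [norm_div, Complex.norm_real, Real.norm_eq_abs, abs_of_pos h0]
    exact (div_le_one h0).2 (hb k)

/-- (write `b i = β i • a` with `U a` if `β i > 0`) -/
theorem bf_le {n : ℕ} {b : ℕ → ℕ → ℂ} {B : ℝ} (hb : LB n b B) {C : ℝ} (hC : 0 ≤ C) {v : W}
    (hv : NBl S n C v) : ‖bf S n b v‖ ≤ B * C := by
  obtain ⟨β, hβ, hB⟩ := hb
  rw [bf_apply]
  calc ‖∑ i ∈ Finset.range n, e S i (M (b i) v)‖
      ≤ ∑ i ∈ Finset.range n, ‖e S i (M (b i) v)‖ := norm_sum_le _ _
    _ ≤ ∑ i ∈ Finset.range n, β i * C := by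
        refine Finset.sum_le_sum fun i hi => ?_
        exact Bd_M_le (hv i (Finset.mem_range.1 hi)) (hβ i)
    _ = (∑ i ∈ Finset.range n, β i) * C := by rw [Finset.sum_mul]
    _ ≤ B * C := mul_le_mul_of_nonneg_right hB hC

theorem Bd_P_apply (k : ℕ) (v : W) (i l : ℕ) : P k v i l = if i < k then v i l else 0 := by
  unfold P
  rw [res_apply]
  by_cases h : i < k
  · rw [if_pos h, if_pos (show i ∈ Set.Iio k from h)]
  · rw [if_neg h, if_neg (show i ∉ Set.Iio k from h)]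

theorem Bd_cond {χ : Bool} {x : ℂ} {C : ℝ} (hC : 0 ≤ C) (h : ‖x‖ ≤ C) :
    ‖(if χ = true then x else 0 : ℂ)‖ ≤ C := by
  split_ifs
  · exact h
  · rw [norm_zero]
    exact hC

theorem Bd_wt (j : ℕ) {x : ℂ} {C : ℝ} (hC : 0 ≤ C) (h : ‖x‖ ≤ 100 * C) :
    ‖(wt j : ℂ) * x‖ ≤ C := by
  rw [norm_mul, Complex.norm_real, Real.norm_eq_abs, abs_of_pos (Pool.Agent.W8d7136.wt_pos j)]
  have h1 := Pool.Agent.W8d7136.wt_le j
  have h2 := (Pool.Agent.W8d7136.wt_pos j).le
  calc wt j * ‖x‖ ≤ (1 / 10 ^ 30) * (100 * C) :=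
        mul_le_mul h1 h (norm_nonneg _) (by positivity)
    _ ≤ C := by
        norm_num
        linarith

theorem Bd_NBl_M {n : ℕ} {C : ℝ} {v : W} (h : NBl S n C v) {a : ℕ → ℂ} (ha : U a) :
    NBl S n C (M a v) := by
  intro i hi a' ha'
  rw [M_M]
  exact h i hi _ (U_mul ha' ha)

theorem Bd_NBl_sub {n : ℕ} {C C' : ℝ} {v v' : W} (h : NBl S n C v) (h' : NBl S n C' v') :
    NBl S n (C + C') (v - v') := by
  intro i hi a ha
  rw [map_sub, map_sub]
  exact (norm_sub_le _ _).trans (add_le_add (h i hi a ha) (h' i hi a ha))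

theorem Bd_e_le {n : ℕ} {C : ℝ} {v : W} (h : NBl S n C v) {i : ℕ} (hi : i < n) :
    ‖e S i v‖ ≤ C := by
  have := h i hi _ U_one
  rwa [M_one] at this

theorem Bd_step (hS : Good S) {n : ℕ}
    (ih : ∀ (C : ℝ) (v : W), 0 ≤ C → NBl S n C v → ∀ k, NBl S n (2 * C) (P k v))
    {C : ℝ} {v : W} (hC : 0 ≤ C) (hv : NBl S (n + 1) C v) (k : ℕ) :
    ‖e S n (P k v)‖ ≤ 2 * C := by
  have hvn : NBl S n C v := fun i hi a ha => hv i (by omega) a ha
  have hloc : ∀ m, m < k → e S m (P k v) = e S m v := fun m hm =>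
    e_congr hS fun i hi l _ => by rw [Bd_P_apply, if_pos (by omega)]
  rcases lt_or_ge n k with hk | hk
  · rw [hloc n hk]
    have := Bd_e_le hv (Nat.lt_succ_self n)
    linarith
  · have hsig : sig n (P k v) = 0 := by
      rw [sig_apply]
      refine Finset.sum_eq_zero fun l _ => ?_
      rw [Bd_P_apply, if_neg (by omega)]
    rcases hD : S.D n with _ | d
    · rw [e_none hD, hsig, norm_zero]
      linarith
    · obtain ⟨hp, -⟩ := hS.lt n d hD
      rw [e_some hS hD, hsig, zero_add]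
      rcases lt_or_ge d.p k with hpk | hpk
      · rw [hloc d.p hpk]
        have h1 : ‖(if d.chi = true then e S d.p v else 0 : ℂ)‖ ≤ C :=
          Bd_cond hC (Bd_e_le hvn hp)
        have h3 : NBl S n (2 * C + 2 * (2 * C)) (Q d.p (P k v)) := by
          rw [Q_eq]
          have h4 := ih C v hC hvn k
          exact Bd_NBl_sub h4 (ih (2 * C) _ (by linarith) h4 _)
        have h5 := bf_le (hS.b1 n d hD) (by linarith) h3
        have h6 := Bd_wt d.j hC (h5.trans (by linarith))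
        exact (norm_add_le _ _).trans (by linarith)
      · have h0 : Q d.p (P k v) = 0 := by
          funext i l
          unfold Q
          rw [res_apply, Bd_P_apply]
          split_ifs with h1 h2
          · have h3 : d.p < i := h1
            omega
          · rfl
          · rfl
        rw [h0, map_zero, mul_zero, add_zero]
        exact Bd_cond (by linarith) (Bd_e_le (ih C v hC hvn k) hp)

theorem Bd_all (hS : Good S) (n : ℕ) :
    ∀ (C : ℝ) (v : W), 0 ≤ C → NBl S n C v → ∀ k, NBl S n (2 * C) (P k v) := by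
  induction n with
  | zero => intro C v _ _ k i hi; exact absurd hi (Nat.not_lt_zero i)
  | succ n ih =>
    intro C v hC hv k i hi a ha
    rcases Nat.lt_succ_iff_lt_or_eq.1 hi with hi' | rfl
    · exact ih C v hC (fun i hi a ha => hv i (by omega) a ha) k i hi' a ha
    · rw [M_P]
      exact Bd_step hS ih hC (Bd_NBl_M hv ha) k

/-- Induction on the index `i < n`, for `M a v` in place of `v`: `i < k`: locality; parent `p < k ≤ i`:
`χ e_p(v) + w bf(Q_p P_k v)`, at most `C + w * 4 C` (`Q_p P_k v = P_k v - P_{p+1} P_k v`); `k ≤ p`: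
`Q_p P_k = 0`, so `χ e_p(P_k v)`. -/
theorem NBl_P (hS : Good S) {n : ℕ} {C : ℝ} (hC : 0 ≤ C) {v : W} (h : NBl S n C v) (k : ℕ) :
    NBl S n (2 * C) (P k v) := Bd_all hS n C v hC h k

theorem NB_iff {C : ℝ} {v : W} : NB S C v ↔ ∀ n, NBl S n C v :=
  ⟨fun h _ i _ a ha => h i a ha, fun h n a ha => h (n + 1) n (Nat.lt_succ_self n) a ha⟩

theorem NB_mono {C C' : ℝ} {v : W} (h : NB S C v) (hc : C ≤ C') : NB S C' v :=
  fun n a ha => (h n a ha).trans hc

theorem NB_nonneg {C : ℝ} {v : W} (h : NB S C v) : 0 ≤ C :=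
  (norm_nonneg _).trans (h 0 _ U_one)

theorem NB_add {C C' : ℝ} {v v' : W} (h : NB S C v) (h' : NB S C' v') : NB S (C + C') (v + v') := by
  intro n a ha
  rw [map_add, map_add]
  exact (norm_add_le _ _).trans (add_le_add (h n a ha) (h' n a ha))

theorem NB_sub {C C' : ℝ} {v v' : W} (h : NB S C v) (h' : NB S C' v') : NB S (C + C') (v - v') := by
  intro n a ha
  rw [map_sub, map_sub]
  exact (norm_sub_le _ _).trans (add_le_add (h n a ha) (h' n a ha))

theorem NB_smul {C : ℝ} {v : W} (h : NB S C v) (a : ℂ) : NB S (‖a‖ * C) (a • v) := by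
  intro n a' ha'
  rw [map_smul, map_smul, smul_eq_mul, norm_mul]
  exact mul_le_mul_of_nonneg_left (h n a' ha') (norm_nonneg _)

theorem NB_M {C : ℝ} {v : W} (h : NB S C v) {a : ℕ → ℂ} (ha : U a) : NB S C (M a v) := by
  intro n a' ha'
  rw [M_M]
  exact h n _ (U_mul ha' ha)

theorem NBl_M {n : ℕ} {C : ℝ} {v : W} (h : NBl S n C v) {a : ℕ → ℂ} (ha : U a) :
    NBl S n C (M a v) := Bd_NBl_M h ha

theorem NB_P (hS : Good S) {C : ℝ} {v : W} (h : NB S C v) (k : ℕ) : NB S (2 * C) (P k v) :=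
  NB_iff.2 fun n => NBl_P hS (NB_nonneg h) (NB_iff.1 h n) k

theorem NBl_Q (hS : Good S) {n : ℕ} {C : ℝ} (hC : 0 ≤ C) {v : W} (h : NBl S n C v) (q : ℕ) :
    NBl S n (3 * C) (Q q v) := by
  rw [Q_eq]
  have h1 := Bd_NBl_sub h (NBl_P hS hC h (q + 1))
  have e1 : C + 2 * C = 3 * C := by ring
  rwa [e1] at h1

theorem NB_Q (hS : Good S) {C : ℝ} {v : W} (h : NB S C v) (q : ℕ) : NB S (3 * C) (Q q v) :=
  NB_iff.2 fun n => NBl_Q hS (NB_nonneg h) (NB_iff.1 h n) q

theorem NBl_Mult (hS : Good S) {n : ℕ} {C : ℝ} (hC : 0 ≤ C) {v : W} (h : NBl S n C v)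
    {m : W →ₗ[ℂ] W} (hm : Mult m) : NBl S n (4 * C) (m v) := by
  obtain ⟨A, a, hA, ha, rfl⟩ := hm
  rw [LinearMap.comp_apply]
  have h' := Bd_NBl_M h ha
  rcases hA with ⟨k, k', rfl⟩ | ⟨k, rfl⟩
  · rcases le_or_gt k k' with hk | hk
    · rw [res_Ico hk]
      have h1 := Bd_NBl_sub (NBl_P hS hC h' k') (NBl_P hS hC h' k)
      have e1 : 2 * C + 2 * C = 4 * C := by ring
      rwa [e1] at h1
    · have h0 : res (Set.Ico k k') (M a v) = 0 := by
        funext i l
        rw [res_apply, if_neg]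
        · rfl
        · intro hi
          have h1 := hi.1
          have h2 := hi.2
          omega
      rw [h0]
      intro i _ a' _
      rw [map_zero, map_zero, norm_zero]
      linarith
  · rw [res_Ici]
    have h1 := Bd_NBl_sub h' (NBl_P hS hC h' k)
    intro i hi a' ha'
    have := h1 i hi a' ha'
    linarith

theorem NB_Mult (hS : Good S) {C : ℝ} {v : W} (h : NB S C v) {m : W →ₗ[ℂ] W} (hm : Mult m) :
    NB S (4 * C) (m v) :=
  NB_iff.2 fun n => NBl_Mult hS (NB_nonneg h) (NB_iff.1 h n) hm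

/-- coordinates: choose `a` such that `sig n (M a v) = ∑ ‖v n k‖`; `‖Q_p ..‖ ≤ 3`, `w ≤ 10⁻³⁰` -/
theorem coord_le (hS : Good S) {n : ℕ} {C : ℝ} (hC : 0 ≤ C) {v : W} (h : NBl S (n + 1) C v) :
    ∑ k ∈ Finset.range (n + 1), ‖v n k‖ ≤ 3 * C := by
  have hph : ∀ x : ℂ, ∃ a : ℂ, ‖a‖ ≤ 1 ∧ a * x = (‖x‖ : ℂ) := by
    intro x
    by_cases hx : x = 0
    · exact ⟨0, by simp, by simp [hx]⟩
    · refine ⟨(starRingEnd ℂ) x / (‖x‖ : ℂ), ?_, ?_⟩
      · rw [norm_div, RCLike.norm_conj, Complex.norm_real, norm_norm,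
          div_self (norm_ne_zero_iff.2 hx)]
      · have hn : (‖x‖ : ℂ) ≠ 0 := by exact_mod_cast norm_ne_zero_iff.2 hx
        rw [div_mul_eq_mul_div, div_eq_iff hn, ← Complex.normSq_eq_conj_mul_self,
          Complex.normSq_eq_norm_sq]
        push_cast
        ring
  choose ph hph1 hph2 using hph
  let a : ℕ → ℂ := fun k => ph (v n k)
  have ha : U a := fun k => hph1 _
  have hs : sig n (M a v) = ((∑ k ∈ Finset.range (n + 1), ‖v n k‖ : ℝ) : ℂ) := by
    rw [sig_apply]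
    push_cast
    exact Finset.sum_congr rfl fun k _ => by rw [M_apply]; exact hph2 _
  have hs0 : 0 ≤ ∑ k ∈ Finset.range (n + 1), ‖v n k‖ := Finset.sum_nonneg fun k _ => norm_nonneg _
  have hs1 : ‖sig n (M a v)‖ = ∑ k ∈ Finset.range (n + 1), ‖v n k‖ := by
    rw [hs, Complex.norm_real, Real.norm_eq_abs, abs_of_nonneg hs0]
  rw [← hs1]
  have h' : NBl S (n + 1) C (M a v) := Bd_NBl_M h ha
  have h0 := Bd_e_le h' (Nat.lt_succ_self n)
  rcases hD : S.D n with _ | d
  · rw [e_none hD] at h0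
    linarith
  · obtain ⟨hp, -⟩ := hS.lt n d hD
    have hvn : NBl S n C (M a v) := fun i hi a ha => h' i (by omega) a ha
    have h1 := Bd_cond (χ := d.chi) hC (Bd_e_le hvn hp)
    have h2 := Bd_wt d.j hC ((bf_le (hS.b1 n d hD) (by linarith) (NBl_Q hS hC hvn d.p)).trans
      (by linarith))
    rw [e_some hS hD] at h0
    have e1 : sig n (M a v) = (sig n (M a v) + (if d.chi = true then e S d.p (M a v) else 0) +
        (wt d.j : ℂ) * bf S n d.b (Q d.p (M a v))) -
        ((if d.chi = true then e S d.p (M a v) else 0) +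
        (wt d.j : ℂ) * bf S n d.b (Q d.p (M a v))) := by ring
    rw [e1]
    refine (norm_sub_le _ _).trans ?_
    have h3 := norm_add_le (if d.chi = true then e S d.p (M a v) else 0 : ℂ)
      ((wt d.j : ℂ) * bf S n d.b (Q d.p (M a v)))
    linarith

theorem sig_le {n : ℕ} (v : W) : ‖sig n v‖ ≤ ∑ k ∈ Finset.range (n + 1), ‖v n k‖ := by
  rw [sig_apply]
  exact norm_sum_le _ _

end Pool.Agent.W8d7136b
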