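import Pool.Agent.W_MP_8d7136_h58b.XOps

set_option autoImplicit false

/-!
Chains of functionals: formulas, estimates and the construction of chains which are large on the images of an
operator.  Port of `Pool.Agent.W_MP_8d7136_h58.ChainF` and `ChainB`.
-/

open Filter Topology

namespace Pool.Agent.W8d7136b

open Pool.Agent.W8d7136 (mm tt nn code wt)

/-- `L` consecutive functionals of weight `j`, starting from the (arbitrary) index `q 0` -/
structure Chn (j L : ℕ) (q : ℕ → ℕ) (b : ℕ → ℕ → ℕ → ℂ) : Prop where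
  lt : ∀ t, t < L → q t < q (t + 1)
  dat : ∀ t, t < L → S0.D (q (t + 1)) = some ⟨decide (t ≠ 0), q t, j, b t, t + 1⟩

variable {j L : ℕ} {q : ℕ → ℕ} {b : ℕ → ℕ → ℕ → ℂ}

/-- the indices of a chain increase -/
theorem ChainF_mono (h : Chn j L q b) {s t : ℕ} (hst : s ≤ t) (ht : t ≤ L) : q s ≤ q t := by
  induction t with
  | zero =>
    have : s = 0 := by omega
    rw [this]
  | succ t ih =>
    rcases Nat.lt_or_ge t s with h1 | h1
    · have : s = t + 1 := by omega
      rw [this]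
    · exact (ih h1 (by omega)).trans (h.lt t (by omega)).le

theorem ChainF_Q_apply (q : ℕ) (v : W) (i k : ℕ) : Q q v i k = if q < i then v i k else 0 := by
  unfold Q
  rw [res_apply]
  by_cases h : q < i
  · rw [if_pos h, if_pos (show i ∈ Set.Ioi q from h)]
  · rw [if_neg h, if_neg (show i ∉ Set.Ioi q from h)]

theorem ChainF_sig {n : ℕ} {v : W} (h : ∀ k, v n k = 0) : sig n v = 0 := by
  rw [sig_apply]
  exact Finset.sum_eq_zero fun k _ => h k

theorem chn_formula (h : Chn j L q b) {l : ℕ} (h1 : 1 ≤ l) (hl : l ≤ L) (v : W) :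
    e S0 (q l) v = ∑ t ∈ Finset.range l, (sig (q (t + 1)) v +
      (wt j : ℂ) * bf S0 (q (t + 1)) (b t) (Q (q t) v)) := by
  have key : ∀ l : ℕ, l ≤ L → (if l ≠ 0 then e S0 (q l) v else 0) =
      ∑ t ∈ Finset.range l, (sig (q (t + 1)) v +
        (wt j : ℂ) * bf S0 (q (t + 1)) (b t) (Q (q t) v)) := by
    intro l
    induction l with
    | zero => intro _; simp
    | succ l ih =>
      intro hla
      have hD := h.dat l (by omega)
      rw [if_pos (Nat.succ_ne_zero l), Finset.sum_range_succ, ← ih (by omega), e_some hS0 hD]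
      simp only [decide_eq_true_eq]
      ring
  have h2 := key l hl
  rwa [if_pos (by omega)] at h2

/-- by density (`eq_of_io`) -/
theorem chn_formulaX (h : Chn j L q b) (h1 : 1 ≤ L) (u : X) :
    eX (q L) u = ∑ t ∈ Finset.range L, (sigX (q (t + 1)) u +
      (wt j : ℂ) * bfX (q (t + 1)) (b t) (QX (q t) u)) := by
  have key := XOps_eq (eX (q L)) (∑ t ∈ Finset.range L, (sigX (q (t + 1)) +
    (wt j : ℂ) • (bfX (q (t + 1)) (b t)).comp (QX (q t)))) (fun v hv => by
      rw [eX_io hv, chn_formula h h1 le_rfl, ContinuousLinearMap.sum_apply]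
      refine Finset.sum_congr rfl fun t ht => ?_
      rw [Finset.mem_range] at ht
      rw [ContinuousLinearMap.add_apply, ContinuousLinearMap.smul_apply,
        ContinuousLinearMap.comp_apply, sigX_io hv, QX_io hv,
        bfX_io (Fs_Mult (Mult_Q (q t)) hv) (hS0.b1 _ _ (h.dat t ht)), smul_eq_mul]) u
  rw [key, ContinuousLinearMap.sum_apply]
  rfl

/-- all other terms of the formula vanish (`Q (q t) v = v`) -/
theorem chn_piece (h : Chn j L q b) {t : ℕ} (ht : t < L) {N : ℕ} (hN : N ≤ q (t + 1))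
    (hb : ∀ i, N ≤ i → ∀ k, b t i k = 0) {v : W} (hv : Sup (q t + 1) N v) :
    e S0 (q L) v = (wt j : ℂ) * bf S0 N (b t) v := by
  have hQ : Q (q t) v = v := by
    funext i k
    rw [ChainF_Q_apply]
    split_ifs with h1
    · rfl
    · exact (hv i k (Or.inl (by omega))).symm
  rw [chn_formula h (by omega) le_rfl, Finset.sum_eq_single t]
  · rw [ChainF_sig (fun k => hv (q (t + 1)) k (Or.inr (Or.inl hN))), zero_add, bf_eq hN hb, hQ]
  · intro s hs hst
    rw [Finset.mem_range] at hs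
    rcases Nat.lt_or_gt_of_ne hst with h1 | h1
    · have h2 : q (s + 1) ≤ q t := ChainF_mono h (by omega) ht.le
      rw [ChainF_sig (fun k => hv (q (s + 1)) k (Or.inl (by omega))), zero_add, bf_eq_zero hS0,
        mul_zero]
      intro i hi k _
      rw [ChainF_Q_apply, hv i k (Or.inl (by omega)), ite_self]
    · have h2 : q (t + 1) ≤ q s := ChainF_mono h (by omega) hs.le
      have h3 : q s < q (s + 1) := h.lt s hs
      rw [ChainF_sig (fun k => hv (q (s + 1)) k (Or.inr (Or.inl (by omega)))), zero_add,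
        bf_eq_zero hS0, mul_zero]
      intro i hi k _
      rcases Nat.lt_or_ge (q s) i with h4 | h4
      · rw [ChainF_Q_apply, hv i k (Or.inr (Or.inl (by omega))), ite_self]
      · rw [ChainF_Q_apply, if_neg (by omega)]
  · intro h1
    exact absurd (Finset.mem_range.2 ht) h1

/-- In `chn_formulaX` the terms `s < t` depend on `PX (q t + 1) u` only (`sigX_PX`, `bfX_PX`, `QX_PX`), the
coordinate terms `s ≥ t` and the pieces `s > t` on `u - PX (q (t + 1)) u` (`sigX_PX_zero`, `QX_PX_zero`), the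
piece `s = t` is the main term up to `PX (q t + 1) u` (`bfX_eq`).  All others are at most `3 ε + 6 ε`
(`Good.b1`, `wt_le`). -/
theorem chn_pieceX (h : Chn j L q b) {t : ℕ} (ht : t < L) {N : ℕ} (hN : N ≤ q (t + 1))
    (hb : ∀ i, N ≤ i → ∀ k, b t i k = 0) {u : X} {ε : ℝ} (h1 : ‖PX (q t + 1) u‖ ≤ ε)
    (h2 : ‖u - PX (q (t + 1)) u‖ ≤ ε) :
    ‖eX (q L) u - (wt j : ℂ) * bfX N (b t) u‖ ≤ 10 * L * ε := by
  have hε : 0 ≤ ε := (norm_nonneg _).trans h1
  have hta : t ∈ Finset.range L := Finset.mem_range.2 ht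
  have hwp := Pool.Agent.W8d7136.wt_pos j
  have hw1 : wt j ≤ 1 := (Pool.Agent.W8d7136.wt_le j).trans (by norm_num)
  -- coordinates
  have hc : ∀ s, s < L → ‖sigX (q (s + 1)) u‖ ≤ 3 * ε := by
    intro s hs
    rcases Nat.lt_or_ge s t with h3 | h3
    · have h4 : q (s + 1) ≤ q t := ChainF_mono h (by omega) ht.le
      rw [← sigX_PX u (k := q t + 1) (by omega)]
      exact (sigX_le _ _).trans (by linarith)
    · have h4 : q (t + 1) ≤ q (s + 1) := ChainF_mono h (by omega) hs
      have h5 : sigX (q (s + 1)) u = sigX (q (s + 1)) (u - PX (q (t + 1)) u) := by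
        rw [map_sub, sigX_PX_zero u h4, sub_zero]
      rw [h5]
      exact (sigX_le _ _).trans (by linarith)
  -- pieces
  have hb1 : ∀ s, s < L → ∀ u' : X, ‖u'‖ ≤ ε →
      ‖(wt j : ℂ) * bfX (q (s + 1)) (b s) (QX (q s) u')‖ ≤ 6 * ε := by
    intro s hs u' hu'
    have h3 := hS0.b1 _ _ (h.dat s hs)
    have h4 : ‖bfX (q (s + 1)) (b s) (QX (q s) u')‖ ≤ 6 * ε := by
      have h5 := bfX_le (QX (q s) u') h3
      have h6 := QX_le u' (q s)
      linarith
    rw [norm_mul, Complex.norm_real, Real.norm_eq_abs, abs_of_pos hwp]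
    calc wt j * ‖bfX (q (s + 1)) (b s) (QX (q s) u')‖ ≤ 1 * (6 * ε) :=
          mul_le_mul hw1 h4 (norm_nonneg _) zero_le_one
      _ = 6 * ε := one_mul _
  have hp : ∀ s, s < L → s ≠ t → ‖(wt j : ℂ) * bfX (q (s + 1)) (b s) (QX (q s) u)‖ ≤ 6 * ε := by
    intro s hs hst
    rcases Nat.lt_or_gt_of_ne hst with h3 | h3
    · have h4 : q (s + 1) ≤ q t := ChainF_mono h (by omega) ht.le
      rw [← bfX_PX (QX (q s) u) (hS0.b1 _ _ (h.dat s hs)) (k := q t + 1) (by omega), ← QX_PX]
      exact hb1 s hs _ h1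
    · have h4 : q (t + 1) ≤ q s := ChainF_mono h (by omega) hs.le
      have h5 : QX (q s) u = QX (q s) (u - PX (q (t + 1)) u) := by
        rw [map_sub, QX_PX_zero u (by omega), sub_zero]
      rw [h5]
      exact hb1 s hs _ h2
  have hLB : LB N (b t) 1 := LB_le hN (hS0.b1 _ _ (h.dat t ht))
  have hmain : bfX (q (t + 1)) (b t) (QX (q t) u) =
      bfX N (b t) u - bfX N (b t) (PX (q t + 1) u) := by
    rw [bfX_eq _ hN hb, XOps_QX, map_sub]
  have hrest : ‖(wt j : ℂ) * bfX N (b t) (PX (q t + 1) u)‖ ≤ ε := by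
    rw [norm_mul, Complex.norm_real, Real.norm_eq_abs, abs_of_pos hwp]
    have h5 := bfX_le (PX (q t + 1) u) hLB
    calc wt j * ‖bfX N (b t) (PX (q t + 1) u)‖ ≤ 1 * ε :=
          mul_le_mul hw1 (by linarith) (norm_nonneg _) zero_le_one
      _ = ε := one_mul _
  rw [chn_formulaX h (by omega) u, ← Finset.add_sum_erase _ _ hta, hmain]
  have e1 : sigX (q (t + 1)) u + (wt j : ℂ) * (bfX N (b t) u - bfX N (b t) (PX (q t + 1) u)) +
      ∑ s ∈ (Finset.range L).erase t, (sigX (q (s + 1)) u +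
        (wt j : ℂ) * bfX (q (s + 1)) (b s) (QX (q s) u)) -
      (wt j : ℂ) * bfX N (b t) u =
      (sigX (q (t + 1)) u - (wt j : ℂ) * bfX N (b t) (PX (q t + 1) u)) +
        ∑ s ∈ (Finset.range L).erase t, (sigX (q (s + 1)) u +
        (wt j : ℂ) * bfX (q (s + 1)) (b s) (QX (q s) u)) := by ring
  rw [e1]
  have e2 : ‖∑ s ∈ (Finset.range L).erase t, (sigX (q (s + 1)) u +
        (wt j : ℂ) * bfX (q (s + 1)) (b s) (QX (q s) u))‖ ≤
      ∑ s ∈ (Finset.range L).erase t, 9 * ε := by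
    refine (norm_sum_le _ _).trans (Finset.sum_le_sum fun s hs => ?_)
    obtain ⟨h3, h4⟩ := Finset.mem_erase.1 hs
    rw [Finset.mem_range] at h4
    refine (norm_add_le _ _).trans ?_
    have h5 := hc s h4
    have h6 := hp s h4 h3
    linarith
  have e3 : (((Finset.range L).erase t).card : ℝ) = L - 1 := by
    rw [Finset.card_erase_of_mem hta, Finset.card_range, Nat.cast_sub (by omega), Nat.cast_one]
  rw [Finset.sum_const, nsmul_eq_mul, e3] at e2
  refine (norm_add_le _ _).trans ?_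
  have h5 := hc t ht
  have h6 := norm_sub_le (sigX (q (t + 1)) u) ((wt j : ℂ) * bfX N (b t) (PX (q t + 1) u))
  have h7 : (1 : ℝ) ≤ L := by
    have : 1 ≤ L := by omega
    exact_mod_cast this
  nlinarith

/-- recursive construction of a chain -/
theorem chain_seq (q0 : ℕ) (R : ℕ → ℕ → ℕ → (ℕ → ℕ → ℂ) → W → ℕ → Prop)
    (step : ∀ t, t < L → ∀ q, q0 ≤ q →
      (0 < t → ∃ d, S0.D q = some d ∧ d.j = j ∧ d.age = t) →
      ∃ (N : ℕ) (b : ℕ → ℕ → ℂ) (v : W) (n : ℕ), q < n ∧
        S0.D n = some ⟨decide (t ≠ 0), q, j, b, t + 1⟩ ∧ R t q N b v n) :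
    ∃ (q N : ℕ → ℕ) (b : ℕ → ℕ → ℕ → ℂ) (v : ℕ → W), q 0 = q0 ∧ Chn j L q b ∧
      ∀ t, t < L → R t (q t) (N t) (b t) (v t) (q (t + 1)) := by
  have key : ∀ l, l ≤ L → ∃ (q N : ℕ → ℕ) (b : ℕ → ℕ → ℕ → ℂ) (v : ℕ → W), q 0 = q0 ∧
      Chn j l q b ∧ ∀ t, t < l → R t (q t) (N t) (b t) (v t) (q (t + 1)) := by
    intro l
    induction l with
    | zero =>
      intro _
      refine ⟨fun _ => q0, fun _ => 0, fun _ _ _ => 0, fun _ => 0, rfl, ⟨
        fun t ht => absurd ht (Nat.not_lt_zero t), fun t ht => absurd ht (Nat.not_lt_zero t)⟩,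
        fun t ht => absurd ht (Nat.not_lt_zero t)⟩
    | succ l ih =>
      intro hl
      obtain ⟨q, N, b, v, hq, hch, hR⟩ := ih (by omega)
      obtain ⟨N', b', v', n, hn1, hn3, hn4⟩ := step l (by omega) (q l)
        (by rw [← hq]; exact ChainF_mono hch (Nat.zero_le l) le_rfl)
        (by
          intro h0
          obtain ⟨m, rfl⟩ : ∃ m, l = m + 1 := ⟨l - 1, by omega⟩
          exact ⟨_, hch.dat m (by omega), rfl, rfl⟩)
      refine ⟨Function.update q (l + 1) n, Function.update N l N', Function.update b l b',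
        Function.update v l v', ?_, ⟨?_, ?_⟩, ?_⟩
      · rw [Function.update_of_ne (by omega)]
        exact hq
      · intro t ht
        rw [Function.update_of_ne (show t ≠ l + 1 by omega)]
        rcases Nat.lt_or_ge t l with h1 | h1
        · rw [Function.update_of_ne (by omega)]
          exact hch.lt t h1
        · have : t = l := by omega
          rw [this, Function.update_self]
          exact hn1
      · intro t ht
        rw [Function.update_of_ne (show t ≠ l + 1 by omega)]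
        rcases Nat.lt_or_ge t l with h1 | h1
        · rw [Function.update_of_ne (by omega), Function.update_of_ne (by omega)]
          exact hch.dat t h1
        · have : t = l := by omega
          rw [this, Function.update_self, Function.update_self]
          exact hn3
      · intro t ht
        rw [Function.update_of_ne (show t ≠ l + 1 by omega)]
        rcases Nat.lt_or_ge t l with h1 | h1
        · rw [Function.update_of_ne (show t + 1 ≠ l + 1 by omega),
            Function.update_of_ne (show t ≠ l by omega), Function.update_of_ne (show t ≠ l by omega),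
            Function.update_of_ne (show t ≠ l by omega)]
          exact hR t h1
        · have : t = l := by omega
          rw [this, Function.update_self, Function.update_self, Function.update_self,
            Function.update_self]
          exact hn4
  exact key L le_rfl

/-- one step of the construction: a vector `v` and coefficients `b` -/
structure Stp (T : X →L[ℂ] X) (δ ε : ℝ) (q N : ℕ) (b : ℕ → ℕ → ℂ) (v : W) : Prop where
  supp : Sup (q + 1) N v
  bN : ∀ i, N ≤ i → ∀ k, b i k = 0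
  small : ∀ a, U a → ‖bf S0 N b (M a v)‖ ≤ ε
  big : δ ≤ (bfX N b (T (io v))).re
  pre : ‖PX (q + 1) (T (io v))‖ ≤ ε

/-- see the old `chain_build` -/
theorem chain_build (hL : 1 ≤ L) (T : X →L[ℂ] X) {δ ε : ℝ} (hε : 0 < ε) (q0 : ℕ)
    (Pr : ℕ → ℕ → ℕ → (ℕ → ℕ → ℂ) → W → Prop)
    (step : ∀ t, t < L → ∀ q, q0 ≤ q →
      (0 < t → ∃ d, S0.D q = some d ∧ d.j = j ∧ d.age = t) → ∀ ε' : ℝ, 0 < ε' →
      ∃ (N : ℕ) (b : ℕ → ℕ → ℂ) (v : W), Stp T δ ε' q N b v ∧ Pr t q N b v ∧
        ∀ m, ∃ n, m ≤ n ∧ q < n ∧ S0.D n = some ⟨decide (t ≠ 0), q, j, b, t + 1⟩) :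
    ∃ (q N : ℕ → ℕ) (b : ℕ → ℕ → ℕ → ℂ) (v : ℕ → W), q 0 = q0 ∧ Chn j L q b ∧
      ∀ t, t < L → N t ≤ q (t + 1) ∧ Pr t (q t) (N t) (b t) (v t) ∧
        Sup (q t + 1) (N t) (v t) ∧ (∀ a, U a → ‖e S0 (q L) (M a (v t))‖ ≤ ε) ∧
        wt j * (δ - ε) ≤ (eX (q L) (T (io (v t)))).re ∧
        ‖PX (q0 + 1) (T (io (v t)))‖ ≤ ε := by
  classical
  have hwt0 := Pool.Agent.W8d7136.wt_pos j
  have hwt1 : wt j ≤ 1 := (Pool.Agent.W8d7136.wt_le j).trans (by norm_num)
  have ha' : (0 : ℝ) < L := by exact_mod_cast hL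
  obtain ⟨ε', hε'0, hε'1, hε'2⟩ : ∃ ε' : ℝ, 0 < ε' ∧ ε' ≤ ε / 2 ∧ 10 * L * ε' ≤ wt j * ε := by
    refine ⟨min (ε / 2) (wt j * ε / (10 * L)), lt_min (by positivity) (by positivity),
      min_le_left _ _, ?_⟩
    have h1 : min (ε / 2) (wt j * ε / (10 * L)) ≤ wt j * ε / (10 * L) := min_le_right _ _
    calc 10 * (L : ℝ) * min (ε / 2) (wt j * ε / (10 * L))
        ≤ 10 * (L : ℝ) * (wt j * ε / (10 * L)) := by gcongr
      _ = wt j * ε := by field_simp
  obtain ⟨q, N, b, v, hq, hch, hR⟩ := chain_seq (j := j) (L := L) q0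
    (fun t q N b v n => Stp T δ ε' q N b v ∧ Pr t q N b v ∧ N ≤ n ∧
      ‖T (io v) - PX n (T (io v))‖ ≤ ε') (by
      intro t ht q hqq hd
      obtain ⟨N, b, v, h1, h2, h3⟩ := step t ht q hqq hd ε' hε'0
      have h4 := (PX_tendsto (T (io v))).eventually (Metric.ball_mem_nhds _ hε'0)
      obtain ⟨m, hm⟩ := eventually_atTop.mp h4
      obtain ⟨n, hn1, hn2, hn4⟩ := h3 (max m N)
      refine ⟨N, b, v, n, hn2, hn4, h1, h2, (le_max_right _ _).trans hn1, ?_⟩
      have h5 : dist (PX n (T (io v))) (T (io v)) < ε' := hm n ((le_max_left _ _).trans hn1)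
      rw [dist_comm, dist_eq_norm] at h5
      exact h5.le)
  refine ⟨q, N, b, v, hq, hch, fun t ht => ?_⟩
  obtain ⟨h1, h2, h3, h4⟩ := hR t ht
  have hqt : q0 ≤ q t := by
    rw [← hq]
    exact ChainF_mono hch (Nat.zero_le t) ht.le
  refine ⟨h3, h2, h1.supp, fun a ha => ?_, ?_, ?_⟩
  · have hs : Sup (q t + 1) (N t) (M a (v t)) := Sup_Mult (Mult_M ha) h1.supp
    rw [chn_piece hch ht h3 h1.bN hs, norm_mul, Complex.norm_real, Real.norm_eq_abs,
      abs_of_pos hwt0]
    have h5 := h1.small a ha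
    calc wt j * ‖bf S0 (N t) (b t) (M a (v t))‖ ≤ 1 * ε' := by
          gcongr
      _ ≤ ε := by linarith
  · have h5 := chn_pieceX hch ht h3 h1.bN h1.pre h4
    have h6 := (Complex.abs_re_le_norm _).trans (h5.trans hε'2)
    rw [Complex.sub_re, Complex.re_ofReal_mul] at h6
    have h7 := (abs_le.mp h6).1
    have h8 : wt j * δ ≤ wt j * (bfX (N t) (b t) (T (io (v t)))).re :=
      mul_le_mul_of_nonneg_left h1.big hwt0.le
    rw [mul_sub]
    linarith
  · have h5 : PX (q0 + 1) (T (io (v t))) = PX (q0 + 1) (PX (q t + 1) (T (io (v t)))) := by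
      rw [PX_PX, min_eq_left (by omega)]
    rw [h5]
    have h6 := PX_le (PX (q t + 1) (T (io (v t)))) (q0 + 1)
    have h7 := h1.pre
    linarith

end Pool.Agent.W8d7136b
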