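import Pool.Agent.W_MP_8d7136_h58b.RISi

set_option autoImplicit false

/-!
Operators which kill all rapidly increasing sequences are compact.  Port of parts of
`Pool.Agent.W_MP_8d7136_h58.UB` (`ub`, `tail`) and `Theta`.
-/

open Filter Topology

namespace Pool.Agent.W8d7136b

open Pool.Agent.W8d7136 (mm tt nn code wt)

/-- `split` with `C = 1` for every `N` and `k`: `x_k = y_k^N + z_k^N`.  For fixed `N` the sequence `y^N` is a RIS
(constant `1000 mm N`, `J k = lo k`), so `S y_k^N → 0`.  If `‖S x_k‖ > ε` frequently choose `φ` recursively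
with `N_i = hi (φ (i-1))` such that this holds for `φ i` and `‖S y_{φ i}^{N_i}‖ ≤ ε / 4`;
`(z_{φ i}^{N_i})_i` is a RIS with `J_i = N_i + 1`. -/
theorem block_zero {S : X →L[ℂ] X}
    (h : ∀ C x, RIS C x → Tendsto (fun k => S (io (x k))) atTop (𝓝 0)) {x : ℕ → W}
    {lo hi : ℕ → ℕ} (hs : ∀ k, Sup (lo k) (hi k) (x k)) (h1 : ∀ k, lo k < hi k)
    (h2 : ∀ k, hi k ≤ lo (k + 1)) (hC : ∀ k, NB S0 1 (x k)) :
    Tendsto (fun k => S (io (x k))) atTop (𝓝 0) := by
  choose Y Z hYZ hYs hZs hYn hZn hYw hZw using fun (N k : ℕ) => split hS0 (hs k) (hC k) N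
  have hmono : ∀ m k, m < k → hi m ≤ lo k := by
    intro m k hmk
    induction k, hmk using Nat.le_induction with
    | base => exact h2 m
    | succ k _ ih => exact ih.trans ((h1 k).le.trans (h2 k))
  have hmm : ∀ N, (1 : ℝ) ≤ mm N := by
    intro N
    have := Pool.Agent.W8d7136.mm_ge N
    have h3 : 1 ≤ mm N := le_trans (by norm_num) this
    exact_mod_cast h3
  -- the parts of bounded weight
  have hYr : ∀ N, RIS (1000 * 1 * mm N) (fun k => Y N k) := by
    intro N
    refine ⟨lo, hi, lo, ⟨fun k => ⟨hYs N k, ?_, fun h _ => hYw N k h⟩, h1, h2, h2⟩⟩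
    intro n a ha
    refine (hYn N k n a ha).trans ?_
    linarith [hmm N]
  rw [Metric.tendsto_nhds]
  intro ε hε
  have hYe : ∀ N, ∀ᶠ k in atTop, ‖S (io (Y N k))‖ < ε / 4 := by
    intro N
    have h3 := (Metric.tendsto_nhds.1 (h _ _ (hYr N))) (ε / 4) (by positivity)
    filter_upwards [h3] with k hk
    rwa [dist_zero_right] at hk
  by_contra hcon
  have hfr : ∃ᶠ k in atTop, ε ≤ ‖S (io (x k))‖ := by
    intro h
    apply hcon
    filter_upwards [h] with k hk
    rw [dist_zero_right]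
    exact not_le.1 hk
  have hstep : ∀ m, ∃ k, m < k ∧ ε ≤ ‖S (io (x k))‖ ∧ ‖S (io (Y (hi m) k))‖ < ε / 4 := by
    intro m
    obtain ⟨k, hk1, hk2, hk3⟩ := (hfr.and_eventually
      ((hYe (hi m)).and (eventually_gt_atTop m))).exists
    exact ⟨k, hk3, hk1, hk2⟩
  choose g hg1 hg2 hg3 using hstep
  obtain ⟨ψ, hψ0⟩ : ∃ ψ : ℕ → ℕ, ∀ i, ψ (i + 1) = g (ψ i) :=
    ⟨fun i => g^[i] 0, fun i => Function.iterate_succ_apply' g i 0⟩
  have hψm : StrictMono ψ := strictMono_nat_of_lt_succ fun i => by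
    rw [hψ0]
    exact hg1 _
  have hZr : RIS 1000 (fun i => Z (hi (ψ i)) (ψ (i + 1))) := by
    refine ⟨fun i => lo (ψ (i + 1)), fun i => hi (ψ (i + 1)), fun i => hi (ψ i) + 1,
      ⟨fun i => ⟨hZs _ _, ?_, fun h hh => ?_⟩, fun i => h1 _,
        fun i => hmono _ _ (hψm (Nat.lt_succ_self _)), fun i => Nat.le_succ _⟩⟩
    · intro n a ha
      refine (hZn _ _ n a ha).trans (by norm_num)
    · have h3 := hZw (hi (ψ i)) (ψ (i + 1)) h (Nat.lt_succ_iff.1 hh)
      rw [mul_one] at h3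
      exact h3
  obtain ⟨i, hi'⟩ := ((Metric.tendsto_nhds.1 (h _ _ hZr)) (ε / 4) (by positivity)).exists
  rw [dist_zero_right] at hi'
  have h3 := hg3 (ψ i)
  have h4 := hg2 (ψ i)
  rw [← hψ0] at h3 h4
  have h5 : S (io (x (ψ (i + 1)))) = S (io (Y (hi (ψ i)) (ψ (i + 1)))) +
      S (io (Z (hi (ψ i)) (ψ (i + 1)))) := by
    rw [← map_add, ← map_add, ← hYZ]
  rw [h5] at h4
  have h6 := h4.trans (norm_add_le _ _)
  linarith

/-- see the old `tail` -/
theorem tail_zero {S : X →L[ℂ] X}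
    (h : ∀ C x, RIS C x → Tendsto (fun k => S (io (x k))) atTop (𝓝 0)) {ε : ℝ} (hε : 0 < ε) :
    ∃ k, ∀ u, ‖S (u - PX k u)‖ ≤ ε * ‖u‖ := by
  by_contra hcon
  push Not at hcon
  have hstep : ∀ k, ∃ (m : ℕ) (v : W), k < m ∧ Sup k m v ∧ NB S0 1 v ∧
      ε / 8 < ‖S (io v)‖ := by
    intro k
    obtain ⟨u, hu⟩ := hcon k
    have hu0 : 0 < ‖u‖ := by
      rcases (norm_nonneg u).lt_or_eq with h | h
      · exact h
      · rw [← h, mul_zero] at hu
        rw [norm_eq_zero.1 h.symm, map_zero, sub_zero, map_zero, norm_zero] at hu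
        exact absurd hu (lt_irrefl _)
    -- normalise
    obtain ⟨w, hw⟩ : ∃ w : X, w = ((‖u‖⁻¹ : ℝ) : ℂ) • (u - PX k u) := ⟨_, rfl⟩
    have hn : ‖((‖u‖⁻¹ : ℝ) : ℂ)‖ = ‖u‖⁻¹ := by
      rw [Complex.norm_real, Real.norm_eq_abs, abs_of_pos (inv_pos.2 hu0)]
    have hw1 : ‖w‖ ≤ 3 := by
      rw [hw, norm_smul, hn]
      have h1 : ‖u - PX k u‖ ≤ 3 * ‖u‖ := by
        have h2 := norm_sub_le u (PX k u)
        have h3 := PX_le u k
        linarith
      calc ‖u‖⁻¹ * ‖u - PX k u‖ ≤ ‖u‖⁻¹ * (3 * ‖u‖) :=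
            mul_le_mul_of_nonneg_left h1 (inv_pos.2 hu0).le
        _ = 3 := by field_simp
    have hw2 : ε < ‖S w‖ := by
      rw [hw, map_smul, norm_smul, hn, ← div_eq_inv_mul, lt_div_iff₀ hu0]
      exact hu
    have hw3 : PX k w = 0 := by
      rw [hw, map_smul, map_sub, PX_PX, min_self, sub_self, smul_zero]
    -- approximate
    obtain ⟨η, hη⟩ : ∃ η : ℝ, η = min (1 / 3) (ε / (12 * (‖S‖ + 1))) := ⟨_, rfl⟩
    have hT1 : 0 < ‖S‖ + 1 := by positivity
    have hη0 : 0 < η := by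
      rw [hη]
      exact lt_min (by norm_num) (by positivity)
    have hη1 : η ≤ 1 / 3 := by
      rw [hη]
      exact min_le_left _ _
    have hη2 : ‖S‖ * (3 * η) ≤ ε / 4 := by
      have h1 : η ≤ ε / (12 * (‖S‖ + 1)) := by
        rw [hη]
        exact min_le_right _ _
      rw [le_div_iff₀ (by positivity)] at h1
      have h2 : 0 ≤ η := hη0.le
      linarith
    obtain ⟨v', hv', hd⟩ := exists_io w hη0
    have hP : P k v' ∈ Fs := Fs_Mult (Mult_P k) hv'
    obtain ⟨v, hv⟩ : ∃ v, v = v' - P k v' := ⟨_, rfl⟩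
    have hvF : v ∈ Fs := by rw [hv]; exact Fs.sub_mem hv' hP
    have hio : io v = io v' - PX k (io v') := by rw [hv, map_sub, PX_io hv']
    have hdist : ‖w - io v‖ ≤ 3 * η := by
      have h1 : w - io v = (w - io v') - PX k (w - io v') := by
        rw [hio, map_sub, hw3]; abel
      rw [h1]
      have h2 := norm_sub_le (w - io v') (PX k (w - io v'))
      have h3 := PX_le (w - io v') k
      linarith
    have hvk : ∀ i, i < k → ∀ c, v i c = 0 := by
      intro i hi c
      rw [hv, Pi.sub_apply, Pi.sub_apply, Bd_P_apply, if_pos hi, sub_self]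
    have hvn : ‖io v‖ ≤ 4 := by
      have h1 := norm_sub_le w (w - io v)
      rw [sub_sub_cancel] at h1
      linarith
    have hTv : ε - ε / 4 < ‖S (io v)‖ := by
      have h1 : ‖S (w - io v)‖ ≤ ‖S‖ * (3 * η) :=
        (S.le_opNorm _).trans (mul_le_mul_of_nonneg_left hdist (norm_nonneg _))
      have h2 := norm_add_le (S (w - io v)) (S (io v))
      rw [← map_add, sub_add_cancel] at h2
      linarith
    obtain ⟨m, hm⟩ := hvF
    refine ⟨max m (k + 1), (1 / 4 : ℂ) • v, by omega, ?_, ?_, ?_⟩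
    · intro i c hi
      have h1 : v i c = 0 := by
        rcases hi with hi | hi | hi
        · exact hvk i hi c
        · exact hm i c (Or.inr (Or.inl (by omega)))
        · exact hm i c (Or.inr (Or.inr hi))
      show (1 / 4 : ℂ) * v i c = 0
      rw [h1, mul_zero]
    · have hvF : v ∈ Fs := ⟨m, hm⟩
      rw [← norm_io_le (Fs.smul_mem _ hvF), map_smul, norm_smul]
      norm_num
      linarith
    · rw [map_smul, map_smul, norm_smul]
      norm_num
      linarith
  choose m v hm hsup hnb hbig using hstep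
  obtain ⟨lo, hlo⟩ : ∃ lo : ℕ → ℕ, ∀ i, lo (i + 1) = m (lo i) :=
    ⟨fun i => m^[i] 0, fun i => Function.iterate_succ_apply' m i 0⟩
  have hz := block_zero h (x := fun i => v (lo i)) (lo := lo) (hi := fun i => m (lo i))
    (fun i => hsup _) (fun i => hm _) (fun i => (hlo i).ge) (fun i => hnb _)
  obtain ⟨i, hi⟩ := ((Metric.tendsto_nhds.1 hz) (ε / 8) (by positivity)).exists
  rw [dist_zero_right] at hi
  have h1 := hbig (lo i)
  linarith

/-- limit of the finite rank operators `S ∘ PX k` -/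
theorem compact_of_ris {S : X →L[ℂ] X}
    (h : ∀ C x, RIS C x → Tendsto (fun k => S (io (x k))) atTop (𝓝 0)) :
    IsCompactOperator S := by
  have hcl : IsClosed {T : X →L[ℂ] X | IsCompactOperator T} := isClosed_setOfPred_isCompactOperator
  have hmem : S ∈ closure {T : X →L[ℂ] X | IsCompactOperator T} := by
    rw [Metric.mem_closure_iff]
    intro ε hε
    obtain ⟨k, hk⟩ := tail_zero h (show 0 < ε / 2 by positivity)
    refine ⟨S.comp (PX k), compact_comp_PX S k, ?_⟩
    rw [dist_eq_norm]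
    refine lt_of_le_of_lt (ContinuousLinearMap.opNorm_le_bound _ (show 0 ≤ ε / 2 by positivity)
      fun u => ?_) (half_lt_self hε)
    have h1 := hk u
    rw [map_sub] at h1
    exact h1
  rw [hcl.closure_eq] at hmem
  exact hmem

end Pool.Agent.W8d7136b
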