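import Pool.Agent.W_MP_8d7136_h58.Par

set_option autoImplicit false

/-!
# MP_8d7136_an, Q2: basic definitions

A Bourgain-Delbaen / Argyros-Haydon type construction with functionals with values in `ℓ₁` of finite sets of
components.  The space of vectors is `W = ℕ → ℕ → ℂ`; `v n k` is the coordinate of index `n` in the component `k`
(only `k ≤ n` matters).  Bounded sequences `a` act on `W` by `M a`.  The functional `e n` is scalar valued, the
values in the components are `e n (M a v)`.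
The parameters `mm`, `tt`, `nn`, `code`, `wt` are those of `Pool.Agent.W8d7136`.
-/

namespace Pool.Agent.W8d7136b

open Pool.Agent.W8d7136 (mm tt nn code wt)

/-- the ambient space of all coordinates -/
abbrev W : Type := ℕ → ℕ → ℂ

/-- data of an index: `chi` (is the parent a predecessor), the parent `p`, the weight `j`, the coefficients
`b i k` and the age -/
structure Dat where
  chi : Bool
  p : ℕ
  j : ℕ
  b : ℕ → ℕ → ℂ
  age : ℕ

/-- the system -/
structure Sys where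
  D : ℕ → Option Dat

/-- `n` has weight `h` -/
def Wt (S : Sys) (n h : ℕ) : Prop := ∃ d, S.D n = some d ∧ d.j = h

/-- the coefficients of the functional `e i` -/
noncomputable def dl (i : ℕ) : ℕ → ℕ → ℂ := fun i' _ => if i' = i then 1 else 0

/-- the unit vector of the component `k` -/
noncomputable def dk (k : ℕ) : ℕ → ℂ := fun k' => if k' = k then 1 else 0

/-- bounded by one -/
def U (a : ℕ → ℂ) : Prop := ∀ k, ‖a k‖ ≤ 1

/-- `∑_{i < n} sup_k |b i k| ≤ B` -/
def LB (n : ℕ) (b : ℕ → ℕ → ℂ) (B : ℝ) : Prop :=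
  ∃ β : ℕ → ℝ, (∀ i k, ‖b i k‖ ≤ β i) ∧ ∑ i ∈ Finset.range n, β i ≤ B

/-- rational coefficients with finite support -/
def RatB (b : ℕ → ℕ → ℂ) : Prop :=
  (∀ i k, ∃ x y : ℚ, b i k = (x : ℂ) + (y : ℂ) * Complex.I) ∧
    ∃ K : ℕ, (∀ i k, (K ≤ i ∨ K ≤ k) → b i k = 0) ∧ LB K b 1

section Ops

open Classical in
/-- restriction to a set of indices -/
noncomputable def res (A : Set ℕ) : W →ₗ[ℂ] W where
  toFun v := fun i k => if i ∈ A then v i k else 0
  map_add' v v' := by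
    funext i k
    simp only [Pi.add_apply]
    split_ifs <;> simp
  map_smul' r v := by
    funext i k
    simp only [Pi.smul_apply, RingHom.id_apply]
    split_ifs <;> simp

/-- multiplication by a sequence on the components -/
def M (a : ℕ → ℂ) : W →ₗ[ℂ] W where
  toFun v := fun i k => a k * v i k
  map_add' v v' := by
    funext i k
    simp only [Pi.add_apply]
    ring
  map_smul' r v := by
    funext i k
    simp only [Pi.smul_apply, RingHom.id_apply, smul_eq_mul]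
    ring

/-- restriction to indices less than `k` -/
noncomputable def P (k : ℕ) : W →ₗ[ℂ] W := res (Set.Iio k)

/-- restriction to the indices greater than `p` -/
noncomputable def Q (p : ℕ) : W →ₗ[ℂ] W := res (Set.Ioi p)

/-- the sum of the coordinates of index `n` -/
noncomputable def sig (n : ℕ) : W →ₗ[ℂ] ℂ where
  toFun v := ∑ k ∈ Finset.range (n + 1), v n k
  map_add' v v' := by simp [Finset.sum_add_distrib]
  map_smul' r v := by simp [Finset.mul_sum]

end Ops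

/-- the functionals `e n`, defined by recursion on `n` -/
noncomputable def e (S : Sys) (n : ℕ) : W →ₗ[ℂ] ℂ :=
  match S.D n with
  | none => sig n
  | some d => sig n +
      ((if h : d.chi = true ∧ d.p < n then e S d.p else 0) +
        (wt d.j : ℂ) • ∑ i : Fin n, (e S i).comp ((M (d.b i)).comp (Q d.p)))
termination_by n
decreasing_by
  · exact h.2
  · exact i.2

/-- the functional `∑_{i < n} e i ∘ M (b i)` -/
noncomputable def bf (S : Sys) (n : ℕ) (b : ℕ → ℕ → ℂ) : W →ₗ[ℂ] ℂ :=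
  ∑ i ∈ Finset.range n, (e S i).comp (M (b i))

/-- the properties of the system -/
structure Good (S : Sys) : Prop where
  lt : ∀ n d, S.D n = some d → d.p < n ∧ d.j ≤ n
  b1 : ∀ n d, S.D n = some d → LB n d.b 1
  age1 : ∀ n d, S.D n = some d → d.chi = false → d.age = 1
  age2 : ∀ n d, S.D n = some d → d.chi = true →
    ∃ d', S.D d.p = some d' ∧ d'.j = d.j ∧ d.age = d'.age + 1
  age3 : ∀ n d, S.D n = some d → d.age ≤ nn d.j
  odd : ∀ n d, S.D n = some d → Odd d.j → ∃ i h, i < n ∧ Wt S i h ∧ d.b = dl i ∧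
    (d.chi = false → nn d.j ^ 2 ≤ mm h ∧ h % 4 = 2) ∧ (d.chi = true → h = code d.p)
  seed : ∀ N : ℕ, ∃ n, N ≤ n ∧ S.D n = none
  rich0e : ∀ (p j N : ℕ) (b : ℕ → ℕ → ℂ), Even j → RatB b →
    ∃ n, N ≤ n ∧ p < n ∧ S.D n = some ⟨false, p, j, b, 1⟩
  rich1e : ∀ (p j N : ℕ) (b : ℕ → ℕ → ℂ) (d : Dat), Even j →
    RatB b → S.D p = some d → d.j = j → d.age < nn j →
    ∃ n, N ≤ n ∧ p < n ∧ S.D n = some ⟨true, p, j, b, d.age + 1⟩
  rich0o : ∀ (p j N i h : ℕ), Odd j → Wt S i h → nn j ^ 2 ≤ mm h → h % 4 = 2 →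
    ∃ n, N ≤ n ∧ p < n ∧ S.D n = some ⟨false, p, j, dl i, 1⟩
  rich1o : ∀ (p j N i : ℕ) (d : Dat), Odd j → Wt S i (code p) →
    S.D p = some d → d.j = j → d.age < nn j →
    ∃ n, N ≤ n ∧ p < n ∧ S.D n = some ⟨true, p, j, dl i, d.age + 1⟩

/-- norm at most `C` -/
def NB (S : Sys) (C : ℝ) (v : W) : Prop := ∀ n a, U a → ‖e S n (M a v)‖ ≤ C

/-- norm at most `C` on the functionals with index less than `N` -/
def NBl (S : Sys) (N : ℕ) (C : ℝ) (v : W) : Prop := ∀ n, n < N → ∀ a, U a → ‖e S n (M a v)‖ ≤ C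

/-- bounded by `C` times the weight on the functionals of weight `h` -/
def WB (S : Sys) (h : ℕ) (C : ℝ) (v : W) : Prop :=
  ∀ n, Wt S n h → ∀ a, U a → ‖e S n (M a v)‖ ≤ C * wt h

/-- intervals -/
def Adm (A : Set ℕ) : Prop := (∃ k k', A = Set.Ico k k') ∨ ∃ k, A = Set.Ici k

/-- multipliers -/
def Mult (m : W →ₗ[ℂ] W) : Prop := ∃ A a, Adm A ∧ U a ∧ m = (res A).comp (M a)

/-- support in `[lo, hi)`, and lower triangular -/
def Sup (lo hi : ℕ) (v : W) : Prop := ∀ i k, (i < lo ∨ hi ≤ i ∨ i < k) → v i k = 0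

/-- blocks -/
structure Blk (S : Sys) (C : ℝ) (lo hi J : ℕ) (x : W) : Prop where
  supp : Sup lo hi x
  nb : NB S C x
  wb : ∀ h, h < J → WB S h C x

/-- rapidly increasing sequences of length `K` -/
structure RISf (S : Sys) (C : ℝ) (K : ℕ) (lo hi J : ℕ → ℕ) (x : ℕ → W) : Prop where
  blk : ∀ k, k < K → Blk S C (lo k) (hi k) (J k) (x k)
  lohi : ∀ k, k < K → lo k < hi k
  hilo : ∀ k, k + 1 < K → hi k ≤ lo (k + 1)
  hiJ : ∀ k, k + 1 < K → hi k ≤ J (k + 1)

/-- the estimates for averages of weight `J` -/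
structure Avg (S : Sys) (C : ℝ) (lo hi J : ℕ) (y : W) : Prop where
  supp : Sup lo hi y
  nb : ∀ m, Mult m → NB S C (m y)
  lt : ∀ m, Mult m → ∀ h, h < J → WB S h C (m y)
  gt : ∀ m, Mult m → ∀ h, J < h → ∀ n, Wt S n h → ‖e S n (m y)‖ ≤ C * wt J
  co : ∀ i, ∑ k ∈ Finset.range (i + 1), ‖y i k‖ ≤ C * (mm J / nn J : ℝ)

/-- dependent sequences of odd weight `j₀` -/
structure DepS (S : Sys) (C : ℝ) (j₀ : ℕ) (q η J : ℕ → ℕ) (y : ℕ → W) : Prop where
  odd : Odd j₀
  lt : ∀ l, l < nn j₀ → q l + 1 < η l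
  lt' : ∀ l, l < nn j₀ → η l < q (l + 1)
  dat : ∀ l, l < nn j₀ → S.D (q (l + 1)) = some ⟨decide (l ≠ 0), q l, j₀, dl (η l), l + 1⟩
  wtη : ∀ l, l < nn j₀ → Wt S (η l) (J l)
  J0 : nn j₀ ^ 2 ≤ mm (J 0) ∧ J 0 % 4 = 2
  Jc : ∀ l, 0 < l → l < nn j₀ → J l = code (q l)
  small : ∀ l, l < nn j₀ → ∀ a, U a → ‖e S (η l) (M a (y l))‖ ≤ 1 / nn j₀
  avg : ∀ l, l < nn j₀ → Avg S C (q l + 1) (η l) (J l) (y l)

end Pool.Agent.W8d7136b
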