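import Pool.Agent.W_MP_8d7136_h58b.AvgL

set_option autoImplicit false

/-!
Dependent sequences: the functionals of the chain itself, and the weights.  Port of
`Pool.Agent.W_MP_8d7136_h58.Dep1` (simpler).
-/

namespace Pool.Agent.W8d7136b

open Pool.Agent.W8d7136 (mm tt nn code wt)

variable {S : Sys}

theorem dep_mono {C : ℝ} {j₀ : ℕ} {q η J : ℕ → ℕ} {y : ℕ → W}
    (h : DepS S C j₀ q η J y) {k l : ℕ} (hkl : k ≤ l) (hl : l ≤ nn j₀) : q k ≤ q l := by
  induction l, hkl using Nat.le_induction with
  | base => exact le_rfl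
  | succ l hkl ih =>
    have h1 := ih (by omega)
    have h2 := h.lt l (by omega)
    have h3 := h.lt' l (by omega)
    omega

/-- the weights are strictly increasing (`J l ≤ η l < q (l+1) < code (q (l+1)) = J (l+1)`) and large -/
theorem dep_J (hS : Good S) {C : ℝ} {j₀ : ℕ} {q η J : ℕ → ℕ} {y : ℕ → W}
    (h : DepS S C j₀ q η J y) :
    (∀ k l, k < l → l < nn j₀ → J k < J l) ∧ ∀ l, l < nn j₀ → nn j₀ ^ 2 ≤ mm (J l) := by
  constructor
  · intro k l hkl hl
    obtain ⟨d, hd, hdj⟩ := h.wtη k (by omega)
    have h1 := (hS.lt _ d hd).2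
    have h2 := h.lt' k (by omega)
    have h3 := dep_mono h (k := k + 1) (l := l) (by omega) (by omega)
    have h4 := Pool.Agent.W8d7136.lt_code (q l)
    rw [h.Jc l (by omega) hl, ← hdj]
    omega
  · intro l hl
    rcases Nat.eq_zero_or_pos l with rfl | hl0
    · exact h.J0.1
    · obtain ⟨l', rfl⟩ : ∃ l', l = l' + 1 := ⟨l - 1, by omega⟩
      have h1 := (hS.lt _ _ (h.dat l' (by omega))).2
      have h2 : j₀ ≤ q (l' + 1) := h1
      rw [h.Jc _ hl0 hl]
      exact (Nat.pow_le_pow_left (Pool.Agent.W8d7136.nn_mono h2) 2).trans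
        (Pool.Agent.W8d7136.nn_sq_le_code _)

theorem dep_RIS (hS : Good S) {C : ℝ} {j₀ : ℕ} {q η J : ℕ → ℕ} {y : ℕ → W}
    (h : DepS S C j₀ q η J y) : RISf S C (nn j₀) (fun l => q l + 1) η J y := by
  refine ⟨fun k hk => Blk_of_Avg (h.avg k hk), fun k hk => h.lt k hk, fun k hk => ?_,
    fun k hk => ?_⟩
  · have := h.lt' k (by omega)
    show η k ≤ q (k + 1) + 1
    omega
  · have h1 := h.lt' k (by omega)
    have h2 := Pool.Agent.W8d7136.lt_code (q (k + 1))
    rw [h.Jc (k + 1) (by omega) hk]
    omega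

/-- at most one index satisfies `P` -/
theorem Dep1_one {C : ℝ} (hC : 0 ≤ C) (l : ℕ) (P : ℕ → Prop) [DecidablePred P]
    (h : ∀ s t, s < t → t < l → P s → P t → False) :
    ∑ t ∈ Finset.range l, (if P t then C else 0) ≤ C := by
  rw [← Finset.sum_filter, Finset.sum_const, nsmul_eq_mul]
  have hcard : (Finset.filter P (Finset.range l)).card ≤ 1 := by
    rw [Finset.card_le_one]
    intro s hs t ht
    rw [Finset.mem_filter, Finset.mem_range] at hs ht
    rcases lt_trichotomy s t with hst | hst | hst
    · exact (h s t hst ht.1 hs.2 ht.2).elim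
    · exact hst
    · exact (h t s hst hs.1 ht.2 hs.2).elim
  have h1 : ((Finset.filter P (Finset.range l)).card : ℝ) ≤ 1 := by exact_mod_cast hcard
  nlinarith

theorem Dep1_interval {I : Set ℕ} (hI : (∃ k k', I = Set.Ico k k') ∨ ∃ k, I = Set.Ici k) :
    ∃ a b : ℕ, ∀ r hi, ¬ (r < a ∧ a < hi) → ¬ (r < b ∧ b < hi) →
      (∀ i, r < i → i < hi → i ∉ I) ∨ (∀ i, r < i → i < hi → i ∈ I) := by
  rcases hI with ⟨k, k', rfl⟩ | ⟨k, rfl⟩
  · refine ⟨k, k', fun r hi h1 h2 => ?_⟩
    by_cases h3 : hi ≤ k
    · left
      intro i _ h5 h6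
      have := h6.1
      omega
    · by_cases h4 : k' ≤ r
      · left
        intro i h5 _ h6
        have := h6.2
        omega
      · right
        intro i h5 h6
        rw [Set.mem_Ico]
        omega
  · refine ⟨k, 0, fun r hi h1 _ => ?_⟩
    by_cases h3 : hi ≤ k
    · left
      intro i _ h5 h6
      have : k ≤ i := h6
      omega
    · right
      intro i h5 h6
      rw [Set.mem_Ici]
      omega

theorem Dep1_res_zero {A : Set ℕ} {r hi : ℕ} (h : ∀ i, r < i → i < hi → i ∉ A) {v : W}
    (hv : Sup (r + 1) hi v) : Q r (res A v) = 0 := by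
  classical
  funext i k
  unfold Q
  rw [res_apply, res_apply]
  split_ifs with h1 h2
  · rcases lt_or_ge i hi with h3 | h3
    · exact absurd h2 (h i h1 h3)
    · exact hv i k (Or.inr (Or.inl h3))
  · rfl
  · rfl

theorem Dep1_res_full {A : Set ℕ} {r hi : ℕ} (h : ∀ i, r < i → i < hi → i ∈ A) {v : W}
    (hv : Sup (r + 1) hi v) : Q r (res A v) = v := by
  classical
  funext i k
  unfold Q
  rw [res_apply, res_apply]
  split_ifs with h1 h2
  · rfl
  · rcases lt_or_ge i hi with h3 | h3
    · exact absurd (h i h1 h3) h2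
    · exact (hv i k (Or.inr (Or.inl h3))).symm
  · have h2 : ¬ r < i := h1
    exact (hv i k (Or.inl (by omega))).symm

/-- For a multiplier `m = (res A) (M a)` all but at most two pieces (those whose interval contains an end of
the interval `A`) are `0` or `e_{η t}(M a y_t)` (`Q (q t) y_t = y_t`), at most `1 / nn j₀`. -/
theorem dep_piece (hS : Good S) {C : ℝ} (hC : 1 ≤ C) {j₀ : ℕ} {q η J : ℕ → ℕ}
    {y : ℕ → W} (h : DepS S C j₀ q η J y) {m : W →ₗ[ℂ] W} (hm : Mult m)
    {l : ℕ} (hl : l ≤ nn j₀) :
    ∑ t ∈ Finset.range l, ‖e S (η t) (Q (q t) (m (y t)))‖ ≤ 2 * C + 1 := by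
  classical
  have hC0 : 0 ≤ C := by linarith
  have hnn : (0 : ℝ) < nn j₀ := by exact_mod_cast Pool.Agent.W8d7136.nn_pos j₀
  -- the bound of every single piece
  have hbd : ∀ t, t < l → ‖e S (η t) (Q (q t) (m (y t)))‖ ≤ C := by
    intro t ht
    have := (h.avg t (by omega)).nb _ (Mult_comp (Mult_Q (q t)) hm) (η t) _ U_one
    simpa only [LinearMap.comp_apply, M_one] using this
  -- the exceptional indices
  obtain ⟨a, b, hterm⟩ : ∃ (a b : ℕ),
      ∀ t, t < l → ¬ (q t < a ∧ a < η t) → ¬ (q t < b ∧ b < η t) →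
        ‖e S (η t) (Q (q t) (m (y t)))‖ ≤ 1 / nn j₀ := by
    obtain ⟨A, al, hA, hal, rfl⟩ := hm
    obtain ⟨a, b, hab⟩ := Dep1_interval hA
    refine ⟨a, b, fun t ht h1 h2 => ?_⟩
    have hsup := Sup_Mult (Mult_M hal) ((h.avg t (by omega)).supp)
    rw [LinearMap.comp_apply]
    rcases hab (q t) (η t) h1 h2 with h4 | h4
    · rw [Dep1_res_zero h4 hsup, map_zero, norm_zero]
      positivity
    · rw [Dep1_res_full h4 hsup]
      exact h.small t (by omega) al hal
  have hone : ∀ a : ℕ, ∀ s t, s < t → t < l → (q s < a ∧ a < η s) → (q t < a ∧ a < η t) →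
      False := by
    intro a s t hst htl h1 h2
    have h3 := h.lt' s (by omega)
    have h4 := dep_mono h (k := s + 1) (l := t) (by omega) (by omega)
    omega
  calc ∑ t ∈ Finset.range l, ‖e S (η t) (Q (q t) (m (y t)))‖
      ≤ ∑ t ∈ Finset.range l, ((if q t < a ∧ a < η t then C else 0) +
          (if q t < b ∧ b < η t then C else 0) + 1 / (nn j₀ : ℝ)) := by
        refine Finset.sum_le_sum fun t ht => ?_
        rw [Finset.mem_range] at ht
        have h1 := hbd t ht
        have hnn' : 0 ≤ 1 / (nn j₀ : ℝ) := by positivity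
        have pos : ∀ (P : Prop) [Decidable P], (0 : ℝ) ≤ if P then C else 0 := by
          intro P _
          split_ifs
          · exact hC0
          · exact le_rfl
        have p1 := pos (q t < a ∧ a < η t)
        have p2 := pos (q t < b ∧ b < η t)
        by_cases e1 : q t < a ∧ a < η t
        · rw [if_pos e1]
          linarith
        · by_cases e2 : q t < b ∧ b < η t
          · rw [if_pos e2]
            linarith
          · have := hterm t ht e1 e2
            linarith
    _ = (∑ t ∈ Finset.range l, (if q t < a ∧ a < η t then C else 0)) +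
          (∑ t ∈ Finset.range l, (if q t < b ∧ b < η t then C else 0)) +
          l * (1 / (nn j₀ : ℝ)) := by
        rw [Finset.sum_add_distrib, Finset.sum_add_distrib, Finset.sum_const, Finset.card_range,
          nsmul_eq_mul]
    _ ≤ C + C + 1 := by
        have s1 := Dep1_one hC0 l (fun t => q t < a ∧ a < η t) (hone a)
        have s2 := Dep1_one hC0 l (fun t => q t < b ∧ b < η t) (hone b)
        have s5 : (l : ℝ) * (1 / (nn j₀ : ℝ)) ≤ 1 := by
          rw [mul_one_div, div_le_one hnn]
          exact_mod_cast hl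
        linarith
    _ = 2 * C + 1 := by ring

/-- the functionals of the chain (the coordinates at `q l` vanish; a piece sees one block only) -/
theorem dep_chain (hS : Good S) {C : ℝ} (hC : 1 ≤ C) {j₀ : ℕ} {q η J : ℕ → ℕ}
    {y : ℕ → W} (h : DepS S C j₀ q η J y) {l : ℕ} (h1 : 1 ≤ l) (hl : l ≤ nn j₀)
    {m : W →ₗ[ℂ] W} (hm : Mult m) {a b : ℕ} (hab : a ≤ b) (hb : b ≤ nn j₀) :
    ‖e S (q l) (m (∑ k ∈ Finset.Ico a b, y k))‖ ≤ 5 * C := by
  classical
  have hC0 : 0 ≤ C := by linarith
  set u : W := ∑ k ∈ Finset.Ico a b, y k with hu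
  set v : W := m u with hv
  -- coordinates at `q l'` vanish
  have hcoord : ∀ l', l' ≤ nn j₀ → sig (q l') v = 0 := by
    intro l' hl'
    rw [sig_apply]
    refine Finset.sum_eq_zero fun k' _ => ?_
    refine Mult_supp hm ?_
    rw [hu, Finset.sum_apply, Finset.sum_apply]
    refine Finset.sum_eq_zero fun k hk => ?_
    rw [Finset.mem_Ico] at hk
    refine (h.avg k (by omega)).supp _ _ ?_
    rcases lt_or_ge k l' with h2 | h2
    · right
      left
      have h3 := h.lt' k (by omega)
      have h4 := dep_mono h (k := k + 1) (l := l') (by omega) hl'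
      omega
    · left
      have h4 := dep_mono h (k := l') (l := k) (by omega) (by omega)
      omega
  -- the formula for the functional
  have hform : ∀ l', 1 ≤ l' → l' ≤ nn j₀ → e S (q l') v =
      (wt j₀ : ℂ) * ∑ t ∈ Finset.range l', e S (η t) (Q (q t) v) := by
    intro l' h1 hl'
    induction l', h1 using Nat.le_induction with
    | base =>
      have hd := h.dat 0 (by omega)
      have hlt := h.lt' 0 (by omega)
      rw [zero_add] at hd hlt
      rw [e_some hS hd, hcoord 1 hl']
      simp only [ne_eq, not_true_eq_false, decide_false, Bool.false_eq_true, if_false, add_zero,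
        zero_add]
      rw [bf_dl hlt, Finset.sum_range_one]
    | succ l' h1 ih =>
      have hd := h.dat l' (by omega)
      have hlt := h.lt' l' (by omega)
      rw [e_some hS hd, hcoord (l' + 1) hl']
      have hne : l' ≠ 0 := by omega
      simp only [ne_eq, hne, not_false_eq_true, decide_true, if_true, zero_add]
      rw [bf_dl hlt, ih (by omega), Finset.sum_range_succ, mul_add]
  -- the pieces see one block only
  have hone : ∀ t, t < l → ‖e S (η t) (Q (q t) v)‖ ≤ ‖e S (η t) (Q (q t) (m (y t)))‖ := by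
    intro t ht
    set L : W →ₗ[ℂ] ℂ := (e S (η t)).comp ((Q (q t)).comp m) with hL
    have hLa : ∀ w, e S (η t) (Q (q t) (m w)) = L w := fun w => rfl
    have hz : ∀ k, k < nn j₀ → k ≠ t → L (y k) = 0 := by
      intro k hk hkt
      have hs := (h.avg k hk).supp
      rcases lt_or_gt_of_ne hkt with h2 | h2
      · have h3 : Q (q t) (m (y k)) = 0 := by
          funext i k'
          unfold Q
          rw [res_apply]
          split_ifs with h4
          · refine Mult_supp hm (hs i k' (Or.inr (Or.inl ?_)))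
            have h5 : q t < i := h4
            have h6 := h.lt' k (by omega)
            have h7 := dep_mono h (k := k + 1) (l := t) (by omega) (by omega)
            omega
          · rfl
        change e S (η t) (Q (q t) (m (y k))) = 0
        rw [h3, map_zero]
      · change e S (η t) (Q (q t) (m (y k))) = 0
        refine e_eq_zero hS fun i hi k' _ => ?_
        refine Mult_supp (Mult_Q (q t)) (Mult_supp hm (hs i k' (Or.inl ?_)))
        have h6 := h.lt' t (by omega)
        have h7 := dep_mono h (k := t + 1) (l := k) (by omega) (by omega)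
        omega
    have hsum : L u = if t ∈ Finset.Ico a b then L (y t) else 0 := by
      rw [hu, map_sum]
      split_ifs with h2
      · exact Finset.sum_eq_single t (fun k hk hkt => hz k (by
          rw [Finset.mem_Ico] at hk
          omega) hkt) fun h3 => absurd h2 h3
      · refine Finset.sum_eq_zero fun k hk => hz k (by
          rw [Finset.mem_Ico] at hk
          omega) ?_
        rintro rfl
        exact h2 hk
    rw [hv, hLa, hLa, hsum]
    split_ifs
    · exact le_rfl
    · rw [norm_zero]
      exact norm_nonneg _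
  rw [hform l h1 hl, norm_mul, Complex.norm_real, Real.norm_eq_abs,
    abs_of_pos (Pool.Agent.W8d7136.wt_pos j₀)]
  have hs1 : ‖∑ t ∈ Finset.range l, e S (η t) (Q (q t) v)‖ ≤ 2 * C + 1 := by
    refine (norm_sum_le _ _).trans ?_
    refine le_trans (Finset.sum_le_sum fun t ht => ?_) (dep_piece hS hC h hm (l := l) hl)
    rw [Finset.mem_range] at ht
    exact hone t ht
  have hw := Pool.Agent.W8d7136.wt_le j₀
  have hw' : wt j₀ ≤ 1 := hw.trans (by norm_num)
  calc wt j₀ * ‖∑ t ∈ Finset.range l, e S (η t) (Q (q t) v)‖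
      ≤ 1 * (2 * C + 1) := mul_le_mul hw' hs1 (norm_nonneg _) zero_le_one
    _ ≤ 5 * C := by linarith

end Pool.Agent.W8d7136b
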