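import Pool.Agent.W_MP_8d7136_h58b.Defs

set_option autoImplicit false

/-!
The recursion for the functionals, locality, algebra of the operators.
-/

namespace Pool.Agent.W8d7136b

open Pool.Agent.W8d7136 (mm tt nn code wt)

variable {S : Sys}

theorem EBasic_bf (n : ℕ) (b : ℕ → ℕ → ℂ) (v : W) :
    bf S n b v = ∑ i ∈ Finset.range n, e S i (M (b i) v) := by
  simp only [bf, LinearMap.sum_apply, LinearMap.comp_apply]

theorem e_none {n : ℕ} (h : S.D n = none) (v : W) : e S n v = sig n v := by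
  rw [e, h]

/-- the recursion -/
theorem e_some (hS : Good S) {n : ℕ} {d : Dat} (h : S.D n = some d) (v : W) :
    e S n v = sig n v + (if d.chi = true then e S d.p v else 0) +
      (wt d.j : ℂ) * bf S n d.b (Q d.p v) := by
  have hp := (hS.lt n d h).1
  rw [e, h]
  simp only [hp, and_true]
  rw [EBasic_bf, Finset.sum_range]
  simp only [LinearMap.add_apply, LinearMap.smul_apply, LinearMap.sum_apply, LinearMap.comp_apply,
    smul_eq_mul]
  split_ifs with hc
  · rw [add_assoc]
  · rw [LinearMap.zero_apply, add_assoc]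

theorem bf_apply (n : ℕ) (b : ℕ → ℕ → ℂ) (v : W) :
    bf S n b v = ∑ i ∈ Finset.range n, e S i (M (b i) v) := by
  exact EBasic_bf n b v

theorem sig_apply (n : ℕ) (v : W) : sig n v = ∑ k ∈ Finset.range (n + 1), v n k := rfl

theorem M_apply (a : ℕ → ℂ) (v : W) (i k : ℕ) : M a v i k = a k * v i k := rfl

open Classical in
theorem res_apply (A : Set ℕ) (v : W) (i k : ℕ) : res A v i k = if i ∈ A then v i k else 0 := rfl

theorem M_M (a a' : ℕ → ℂ) (v : W) : M a (M a' v) = M (fun k => a k * a' k) v := by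
  funext i k
  simp only [M_apply]
  ring

theorem M_one (v : W) : M (fun _ => 1) v = v := by
  funext i k
  simp only [M_apply, one_mul]

theorem M_zero (v : W) : M (fun _ => 0) v = 0 := by
  funext i k
  simp only [M_apply, zero_mul]
  rfl

theorem M_smul (r : ℂ) (a : ℕ → ℂ) (v : W) : M (fun k => r * a k) v = r • M a v := by
  funext i k
  simp only [M_apply, Pi.smul_apply, smul_eq_mul]
  ring

theorem M_add (a a' : ℕ → ℂ) (v : W) : M (fun k => a k + a' k) v = M a v + M a' v := by
  funext i k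
  simp only [M_apply, Pi.add_apply]
  ring

theorem M_sub (a a' : ℕ → ℂ) (v : W) : M (fun k => a k - a' k) v = M a v - M a' v := by
  funext i k
  simp only [M_apply, Pi.sub_apply]
  ring

theorem M_res (a : ℕ → ℂ) (A : Set ℕ) (v : W) : M a (res A v) = res A (M a v) := by
  classical
  funext i k
  simp only [M_apply, res_apply]
  split_ifs <;> simp

theorem M_P (a : ℕ → ℂ) (k : ℕ) (v : W) : M a (P k v) = P k (M a v) := by
  exact M_res a _ v

theorem M_Q (a : ℕ → ℂ) (q : ℕ) (v : W) : M a (Q q v) = Q q (M a v) := by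
  exact M_res a _ v

theorem res_res (A B : Set ℕ) (v : W) : res A (res B v) = res (A ∩ B) v := by
  classical
  funext i c
  simp only [res_apply, Set.mem_inter_iff]
  split_ifs <;> simp_all

/-- `Q q = 1 - P (q + 1)` -/
theorem Q_eq (q : ℕ) (v : W) : Q q v = v - P (q + 1) v := by
  classical
  funext i k
  rw [Pi.sub_apply, Pi.sub_apply]
  unfold Q P
  rw [res_apply, res_apply]
  by_cases h : q < i
  · rw [if_pos (show i ∈ Set.Ioi q from h),
      if_neg (fun h' : i ∈ Set.Iio (q + 1) => absurd (Set.mem_Iio.1 h') (by omega)), sub_zero]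
  · rw [if_neg (show i ∉ Set.Ioi q from h), if_pos (show i ∈ Set.Iio (q + 1) from by
      rw [Set.mem_Iio]; omega), sub_self]

theorem res_Ico {k k' : ℕ} (h : k ≤ k') (v : W) : res (Set.Ico k k') v = P k' v - P k v := by
  classical
  funext i c
  rw [Pi.sub_apply, Pi.sub_apply]
  unfold P
  rw [res_apply, res_apply, res_apply]
  by_cases h1 : i < k
  · rw [if_neg (fun hi : i ∈ Set.Ico k k' => absurd hi.1 (by omega)),
      if_pos (show i ∈ Set.Iio k' from by rw [Set.mem_Iio]; omega),
      if_pos (show i ∈ Set.Iio k from h1), sub_self]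
  · by_cases h2 : i < k'
    · rw [if_pos (show i ∈ Set.Ico k k' from ⟨not_lt.1 h1, h2⟩), if_pos (show i ∈ Set.Iio k' from h2),
        if_neg (show i ∉ Set.Iio k from h1), sub_zero]
    · rw [if_neg (fun hi : i ∈ Set.Ico k k' => h2 hi.2), if_neg (show i ∉ Set.Iio k' from h2),
        if_neg (show i ∉ Set.Iio k from h1), sub_zero]

theorem res_Ici (k : ℕ) (v : W) : res (Set.Ici k) v = v - P k v := by
  classical
  funext i c
  rw [Pi.sub_apply, Pi.sub_apply]
  unfold P
  rw [res_apply, res_apply]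
  by_cases h1 : i < k
  · rw [if_neg (fun hi : i ∈ Set.Ici k => absurd (Set.mem_Ici.1 hi) (by omega)),
      if_pos (show i ∈ Set.Iio k from h1), sub_self]
  · rw [if_pos (show i ∈ Set.Ici k from not_lt.1 h1), if_neg (show i ∉ Set.Iio k from h1), sub_zero]

theorem U_one : U (fun _ => 1) := by
  intro k
  simp

theorem U_dk (k : ℕ) : U (dk k) := by
  intro k'
  unfold dk
  split_ifs <;> simp

theorem U_mul {a a' : ℕ → ℂ} (h : U a) (h' : U a') : U (fun k => a k * a' k) := by
  intro k
  rw [norm_mul]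
  exact mul_le_one₀ (h k) (norm_nonneg _) (h' k)

theorem LB_mul {n : ℕ} {b : ℕ → ℕ → ℂ} {B : ℝ} (hb : LB n b B) {a : ℕ → ℂ} (ha : U a) :
    LB n (fun i k => b i k * a k) B := by
  obtain ⟨β, h1, h2⟩ := hb
  refine ⟨β, fun i k => ?_, h2⟩
  rw [norm_mul]
  exact (mul_le_of_le_one_right (norm_nonneg _) (ha k)).trans (h1 i k)

theorem LB_dl {n i : ℕ} (hi : i < n) : LB n (dl i) 1 := by
  refine ⟨fun i' => if i' = i then 1 else 0, fun i' k => ?_, ?_⟩
  · by_cases h : i' = i <;> simp [dl, h]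
  · rw [Finset.sum_ite_eq', if_pos (Finset.mem_range.2 hi)]

theorem LB_le {n n' : ℕ} (hn : n ≤ n') {b : ℕ → ℕ → ℂ} {B : ℝ} (hb : LB n' b B) : LB n b B := by
  obtain ⟨β, h1, h2⟩ := hb
  refine ⟨β, h1, le_trans ?_ h2⟩
  exact Finset.sum_le_sum_of_subset_of_nonneg (Finset.range_mono hn)
    fun i _ _ => (norm_nonneg _).trans (h1 i 0)

/-- `bf` does not depend on `n` beyond the support of `b` -/
theorem bf_eq {n n' : ℕ} (hn : n ≤ n') {b : ℕ → ℕ → ℂ} (hb : ∀ i, n ≤ i → ∀ k, b i k = 0) (v : W) :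
    bf S n' b v = bf S n b v := by
  rw [bf_apply, bf_apply]
  symm
  refine Finset.sum_subset (Finset.range_mono hn) fun i _ hi => ?_
  rw [Finset.mem_range, not_lt] at hi
  have h0 : b i = fun _ => 0 := funext fun k => hb i hi k
  rw [h0, M_zero, map_zero]

theorem bf_dl {n i : ℕ} (hi : i < n) (v : W) : bf S n (dl i) v = e S i v := by
  rw [bf_apply, Finset.sum_eq_single i]
  · have h1 : dl i i = fun _ => 1 := by
      funext k
      simp [dl]
    rw [h1, M_one]
  · intro i' _ hne
    have h1 : dl i i' = fun _ => 0 := by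
      funext k
      simp [dl, hne]
    rw [h1, M_zero, map_zero]
  · intro h
    exact absurd (Finset.mem_range.2 hi) h

theorem bf_M (n : ℕ) (b : ℕ → ℕ → ℂ) (a : ℕ → ℂ) (v : W) :
    bf S n b (M a v) = bf S n (fun i k => b i k * a k) v := by
  rw [bf_apply, bf_apply]
  refine Finset.sum_congr rfl fun i _ => ?_
  rw [M_M]

/-- locality -/
theorem e_congr (hS : Good S) {n : ℕ} {v v' : W} (h : ∀ i, i ≤ n → ∀ k, k ≤ i → v i k = v' i k) :
    e S n v = e S n v' := by
  induction n using Nat.strong_induction_on generalizing v v' with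
  | _ n ih =>
    have hsig : sig n v = sig n v' := by
      rw [sig_apply, sig_apply]
      refine Finset.sum_congr rfl fun k hk => ?_
      rw [Finset.mem_range] at hk
      exact h n le_rfl k (by omega)
    cases hd : S.D n with
    | none => rw [e_none hd, e_none hd, hsig]
    | some d =>
      have hp := (hS.lt n d hd).1
      rw [e_some hS hd, e_some hS hd, hsig, bf_apply, bf_apply]
      rw [ih d.p hp (v := v) (v' := v') fun i hi => h i (hi.trans hp.le)]
      congr 2
      refine Finset.sum_congr rfl fun i hi => ?_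
      rw [Finset.mem_range] at hi
      refine ih i hi fun i' hi' k hk => ?_
      rw [M_apply, M_apply]
      have h1 : v i' k = v' i' k := h i' (hi'.trans hi.le) k hk
      unfold Q
      rw [res_apply, res_apply, h1]

theorem e_eq_zero (hS : Good S) {n : ℕ} {v : W} (h : ∀ i, i ≤ n → ∀ k, k ≤ i → v i k = 0) :
    e S n v = 0 := by
  rw [e_congr hS (v' := 0) h, map_zero]

theorem bf_congr (hS : Good S) {n : ℕ} {b : ℕ → ℕ → ℂ} {v v' : W}
    (h : ∀ i, i < n → ∀ k, k ≤ i → v i k = v' i k) : bf S n b v = bf S n b v' := by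
  rw [bf_apply, bf_apply]
  refine Finset.sum_congr rfl fun i hi => ?_
  rw [Finset.mem_range] at hi
  refine e_congr hS fun i' hi' k hk => ?_
  rw [M_apply, M_apply, h i' (hi'.trans_lt hi) k hk]

theorem bf_eq_zero (hS : Good S) {n : ℕ} {b : ℕ → ℕ → ℂ} {v : W}
    (h : ∀ i, i < n → ∀ k, k ≤ i → v i k = 0) : bf S n b v = 0 := by
  rw [bf_congr hS (v' := 0) h, map_zero]

/-- a functional only sees the components `k ≤ n` -/
theorem e_M_eq (hS : Good S) {n : ℕ} (a : ℕ → ℂ) (v : W) :
    e S n (M a v) = ∑ k ∈ Finset.range (n + 1), a k * e S n (M (dk k) v) := by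
  have h1 : e S n (M a v) = e S n (∑ k ∈ Finset.range (n + 1), a k • M (dk k) v) := by
    refine e_congr hS fun i hi k hk => ?_
    rw [Finset.sum_apply, Finset.sum_apply, Finset.sum_eq_single k]
    · rw [Pi.smul_apply, Pi.smul_apply, M_apply, M_apply, smul_eq_mul]
      simp [dk]
    · intro k' _ hne
      rw [Pi.smul_apply, Pi.smul_apply, M_apply, smul_eq_mul]
      have h2 : dk k' k = 0 := if_neg hne.symm
      rw [h2, zero_mul, mul_zero]
    · intro h
      exact absurd (Finset.mem_range.2 (by omega)) h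
  rw [h1, map_sum]
  refine Finset.sum_congr rfl fun k _ => ?_
  rw [map_smul, smul_eq_mul]

/-- the `ℓ₁` norm of the values in the components (choose `a` as phases) -/
theorem exists_phase (hS : Good S) (n : ℕ) (v : W) : ∃ a : ℕ → ℂ, U a ∧
    e S n (M a v) = ((∑ k ∈ Finset.range (n + 1), ‖e S n (M (dk k) v)‖ : ℝ) : ℂ) := by
  obtain ⟨z, hz⟩ : ∃ z : ℕ → ℂ, ∀ k, z k = e S n (M (dk k) v) := ⟨_, fun _ => rfl⟩
  refine ⟨fun k => if z k = 0 then 0 else (starRingEnd ℂ) (z k) / (‖z k‖ : ℂ), fun k => ?_, ?_⟩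
  · simp only
    split_ifs with h
    · simp
    · rw [norm_div, RCLike.norm_conj, Complex.norm_real, norm_norm]
      exact div_self_le_one _
  · rw [e_M_eq hS]
    push_cast
    refine Finset.sum_congr rfl fun k _ => ?_
    rw [← hz]
    split_ifs with h
    · rw [h, norm_zero]
      simp
    · have hne : (‖z k‖ : ℂ) ≠ 0 := by
        rw [Ne, Complex.ofReal_eq_zero, norm_eq_zero]
        exact h
      rw [div_mul_eq_mul_div, div_eq_iff hne, mul_comm ((starRingEnd ℂ) _), Complex.mul_conj,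
        Complex.normSq_eq_norm_sq]
      push_cast
      ring

theorem EBasic_univ (v : W) : res (Set.Ici 0) v = v := by
  classical
  funext i k
  rw [res_apply, if_pos (show i ∈ Set.Ici 0 from Nat.zero_le i)]

theorem Mult_id : Mult LinearMap.id := by
  refine ⟨Set.Ici 0, fun _ => 1, Or.inr ⟨0, rfl⟩, U_one, ?_⟩
  apply LinearMap.ext
  intro v
  rw [LinearMap.comp_apply, M_one, EBasic_univ]
  rfl

theorem Mult_M {a : ℕ → ℂ} (ha : U a) : Mult (M a) := by
  refine ⟨Set.Ici 0, a, Or.inr ⟨0, rfl⟩, ha, ?_⟩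
  apply LinearMap.ext
  intro v
  rw [LinearMap.comp_apply, EBasic_univ]

theorem Mult_P (k : ℕ) : Mult (P k) := by
  refine ⟨Set.Ico 0 k, fun _ => 1, Or.inl ⟨0, k, rfl⟩, U_one, ?_⟩
  apply LinearMap.ext
  intro v
  have e : (Set.Ico 0 k : Set ℕ) = Set.Iio k := by
    ext i
    simp
  rw [LinearMap.comp_apply, M_one, e]
  rfl

theorem Mult_Q (q : ℕ) : Mult (Q q) := by
  refine ⟨Set.Ici (q + 1), fun _ => 1, Or.inr ⟨q + 1, rfl⟩, U_one, ?_⟩
  apply LinearMap.ext
  intro v
  have e : (Set.Ici (q + 1) : Set ℕ) = Set.Ioi q := by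
    ext i
    simp only [Set.mem_Ici, Set.mem_Ioi]
    omega
  rw [LinearMap.comp_apply, M_one, e]
  rfl

theorem Mult_comp {m m' : W →ₗ[ℂ] W} (h : Mult m) (h' : Mult m') : Mult (m.comp m') := by
  obtain ⟨A, a, hA, ha, rfl⟩ := h
  obtain ⟨B, b, hB, hb, rfl⟩ := h'
  have hAB : Adm (A ∩ B) := by
    rcases hA with ⟨a, b, rfl⟩ | ⟨a, rfl⟩ <;> rcases hB with ⟨c, d, rfl⟩ | ⟨c, rfl⟩
    · left
      refine ⟨max a c, min b d, ?_⟩
      ext i
      simp only [Set.mem_inter_iff, Set.mem_Ico]
      omega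
    · left
      refine ⟨max a c, b, ?_⟩
      ext i
      simp only [Set.mem_inter_iff, Set.mem_Ico, Set.mem_Ici]
      omega
    · left
      refine ⟨max a c, d, ?_⟩
      ext i
      simp only [Set.mem_inter_iff, Set.mem_Ico, Set.mem_Ici]
      omega
    · right
      refine ⟨max a c, ?_⟩
      ext i
      simp only [Set.mem_inter_iff, Set.mem_Ici]
      omega
  refine ⟨A ∩ B, fun k => a k * b k, hAB, U_mul ha hb, ?_⟩
  apply LinearMap.ext
  intro v
  rw [LinearMap.comp_apply, LinearMap.comp_apply, LinearMap.comp_apply, LinearMap.comp_apply,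
    M_res, res_res, M_M]

theorem Mult_comm {m m' : W →ₗ[ℂ] W} (h : Mult m) (h' : Mult m') (v : W) :
    m (m' v) = m' (m v) := by
  obtain ⟨A, a, hA, ha, rfl⟩ := h
  obtain ⟨B, b, hB, hb, rfl⟩ := h'
  rw [LinearMap.comp_apply, LinearMap.comp_apply, LinearMap.comp_apply, LinearMap.comp_apply,
    M_res, M_res, res_res, res_res, M_M, M_M, Set.inter_comm]
  congr 2
  congr 1
  funext k
  exact mul_comm _ _

/-- multipliers do not increase the coordinates -/
theorem Mult_le {m : W →ₗ[ℂ] W} (h : Mult m) (v : W) (i k : ℕ) : ‖m v i k‖ ≤ ‖v i k‖ := by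
  obtain ⟨A, a, hA, ha, rfl⟩ := h
  classical
  rw [LinearMap.comp_apply, res_apply]
  split_ifs
  · rw [M_apply, norm_mul]
    exact mul_le_of_le_one_left (norm_nonneg _) (ha k)
  · rw [norm_zero]
    exact norm_nonneg _

theorem Mult_supp {m : W →ₗ[ℂ] W} (h : Mult m) {v : W} {i k : ℕ} (hv : v i k = 0) :
    m v i k = 0 := by
  have h1 := Mult_le h v i k
  rw [hv, norm_zero] at h1
  exact norm_le_zero_iff.1 h1

theorem Sup_Mult {m : W →ₗ[ℂ] W} (h : Mult m) {lo hi : ℕ} {v : W} (hv : Sup lo hi v) :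
    Sup lo hi (m v) := by
  intro i k hi
  exact Mult_supp h (hv i k hi)

end Pool.Agent.W8d7136b
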