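import Pool.Agent.W_MP_8d7136_h58b.Defs

set_option autoImplicit false

/-!
Existence of a good system.
-/

namespace Pool.Agent.W8d7136b

open Pool.Agent.W8d7136 (mm tt nn code wt nn_pos)

/-- strong recursion with truncated histories -/
theorem Exist_rec {α : Type} (F : ℕ → (ℕ → α) → α) (c : α) :
    ∃ D : ℕ → α, ∀ n, D n = F n (fun m => if m < n then D m else c) := by
  let G : (n : ℕ) → ((m : ℕ) → m < n → α) → α := fun n r => F n (fun m => if h : m < n then r m h else c)
  refine ⟨WellFounded.fix Nat.lt_wfRel.wf G, fun n => ?_⟩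
  rw [WellFounded.fix_eq]
  change F n _ = F n _
  congr 1

/-- the function given by finitely many rational coefficients, or the function `dl i` -/
noncomputable def Exist_f (t : (Σ K : ℕ, (Fin K × Fin K → ℚ × ℚ)) ⊕ ℕ) : ℕ → ℕ → ℂ :=
  match t with
  | Sum.inl t => fun i k =>
      if h : i < t.1 ∧ k < t.1 then
        ((t.2 (⟨i, h.1⟩, ⟨k, h.2⟩)).1 : ℂ) + ((t.2 (⟨i, h.1⟩, ⟨k, h.2⟩)).2 : ℂ) * Complex.I
      else 0
  | Sum.inr i => dl i

theorem Exist_rat {b : ℕ → ℕ → ℂ} (h : RatB b) : ∃ t, Exist_f t = b := by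
  obtain ⟨h1, K, hK, -⟩ := h
  choose x y hxy using h1
  refine ⟨Sum.inl ⟨K, fun p => (x p.1 p.2, y p.1 p.2)⟩, ?_⟩
  funext i k
  unfold Exist_f
  by_cases hi : i < K ∧ k < K
  · simp only [dif_pos hi]
    exact (hxy i k).symm
  · simp only [dif_neg hi]
    exact (hK i k (by omega)).symm

/-- the admissible coefficients -/
def Exist_B (b : ℕ → ℕ → ℂ) : Prop := RatB b ∨ ∃ i, b = dl i

theorem Exist_raw {b : ℕ → ℕ → ℂ} (h : Exist_B b) : ∃ t, Exist_f t = b := by
  rcases h with h | ⟨i, rfl⟩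
  · exact Exist_rat h
  · exact ⟨Sum.inr i, rfl⟩

theorem Exist_norm {b : ℕ → ℕ → ℂ} (h : RatB b) (n : ℕ) : LB n b 1 := by
  obtain ⟨-, K, hK, β, hβ, hs⟩ := h
  have hβ0 : ∀ i, 0 ≤ β i := fun i => (norm_nonneg _).trans (hβ i 0)
  refine ⟨fun i => if i < K then β i else 0, fun i k => ?_, ?_⟩
  · change ‖b i k‖ ≤ if i < K then β i else 0
    split_ifs with hi
    · exact hβ i k
    · rw [hK i k (by omega), norm_zero]
  · refine le_trans ?_ hs
    calc ∑ i ∈ Finset.range n, (if i < K then β i else 0)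
        ≤ ∑ i ∈ Finset.range (max n K), (if i < K then β i else 0) := by
          refine Finset.sum_le_sum_of_subset_of_nonneg (Finset.range_mono (le_max_left n K))
            fun i _ _ => ?_
          split_ifs
          · exact hβ0 i
          · exact le_rfl
      _ = ∑ i ∈ Finset.range K, (if i < K then β i else 0) := by
          symm
          apply Finset.sum_subset (Finset.range_mono (le_max_right n K))
          intro i _ hi
          rw [Finset.mem_range] at hi
          rw [if_neg hi]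
      _ = ∑ i ∈ Finset.range K, β i := by
          refine Finset.sum_congr rfl fun i hi => ?_
          rw [Finset.mem_range] at hi
          rw [if_pos hi]

theorem Exist_dl (i n : ℕ) : LB n (dl i) 1 := by
  refine ⟨fun i' => if i' = i then 1 else 0, fun i' k => ?_, ?_⟩
  · change ‖dl i i' k‖ ≤ if i' = i then 1 else 0
    unfold dl
    split_ifs <;> simp
  · rw [Finset.sum_ite_eq']
    split_ifs <;> norm_num

theorem Exist_zero : RatB (fun _ _ => 0) :=
  ⟨fun _ _ => ⟨0, 0, by simp⟩, 0, fun _ _ _ => rfl, fun _ => 0, fun _ _ => by simp, by simp⟩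

/-- the requirements at `n` for the datum `d` -/
def Exist_Req (n : ℕ) (D : ℕ → Option Dat) (d : Dat) : Prop :=
  d.p < n ∧ d.j ≤ n ∧ LB n d.b 1 ∧ (d.chi = false → d.age = 1) ∧
    (d.chi = true → ∃ d', D d.p = some d' ∧ d'.j = d.j ∧ d.age = d'.age + 1) ∧
    d.age ≤ nn d.j ∧
    (Odd d.j → ∃ i h, i < n ∧ (∃ d', D i = some d' ∧ d'.j = h) ∧ d.b = dl i ∧
      (d.chi = false → nn d.j ^ 2 ≤ mm h ∧ h % 4 = 2) ∧ (d.chi = true → h = code d.p))

theorem Exist_trunc {n : ℕ} {D D' : ℕ → Option Dat} {d : Dat}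
    (hT : ∀ m, m < n → D' m = D m) :
    Exist_Req n D' d ↔ Exist_Req n D d := by
  unfold Exist_Req
  constructor
  · rintro ⟨h1, h3, h4, h5, h6, h7, h8⟩
    rw [hT _ h1] at h6
    refine ⟨h1, h3, h4, h5, h6, h7, fun ho => ?_⟩
    obtain ⟨i, h, hi, hd, r⟩ := h8 ho
    rw [hT _ hi] at hd
    exact ⟨i, h, hi, hd, r⟩
  · rintro ⟨h1, h3, h4, h5, h6, h7, h8⟩
    refine ⟨h1, h3, h4, h5, ?_, h7, fun ho => ?_⟩
    · rw [hT _ h1]
      exact h6
    obtain ⟨i, h, hi, hd, r⟩ := h8 ho
    refine ⟨i, h, hi, ?_, r⟩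
    rw [hT _ hi]
    exact hd

/-- Port of `Pool.Agent.W_MP_8d7136_h58.Exist` (simpler: no branches).  The raw data (kind, `chi`, `p`, `j`, a
finitely supported function with rational complex coefficients, an index `i`) form a countable type; take a
map from `ℕ` onto it which takes every value infinitely often.  Define `D n` by strong recursion: `some` data
if all the requirements at `n` (which only involve `D` at smaller indices) are satisfied and `none`
otherwise.  For odd `j` we require `b = dl i` (`LB n (dl i) 1` for `i < n`). -/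
theorem exists_good : ∃ S : Sys, Good S := by
  classical
  obtain ⟨idx, henum⟩ : ∃ idx : ℕ → ℕ, ∀ a N : ℕ, ∃ n, N ≤ n ∧ idx n = a :=
    ⟨fun n => (Nat.unpair n).1, fun a N => ⟨Nat.pair a N, Nat.right_le_pair a N, by simp⟩⟩
  obtain ⟨q, hq⟩ := exists_surjective_nat
    (Bool × ℕ × ℕ × ((Σ K : ℕ, (Fin K × Fin K → ℚ × ℚ)) ⊕ ℕ) × ℕ)
  obtain ⟨raw, hraw⟩ : ∃ raw : ℕ → Dat, ∀ d : Dat, Exist_B d.b → ∃ a, raw a = d := by
    refine ⟨fun a => ⟨(q a).1, (q a).2.1, (q a).2.2.1, Exist_f (q a).2.2.2.1, (q a).2.2.2.2⟩, ?_⟩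
    intro d hd
    obtain ⟨t, ht⟩ := Exist_raw hd
    obtain ⟨a, ha⟩ := hq (d.chi, d.p, d.j, t, d.age)
    refine ⟨a, ?_⟩
    simp only [ha, ht]
  obtain ⟨D, hD⟩ := Exist_rec (fun n g =>
    if Exist_Req n g (raw (idx n)) then some (raw (idx n)) else (none : Option Dat)) none
  have hD' : ∀ n, D n = if Exist_Req n D (raw (idx n)) then some (raw (idx n)) else none := by
    intro n
    rw [hD n]
    have h1 := Exist_trunc (n := n) (D := D)
      (D' := fun m => if m < n then D m else none) (d := raw (idx n)) (fun m hm => if_pos hm)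
    by_cases h2 : Exist_Req n D (raw (idx n))
    · rw [if_pos h2, if_pos (h1.2 h2)]
    · rw [if_neg h2, if_neg (fun h3 => h2 (h1.1 h3))]
  have hsome : ∀ n d, D n = some d → Exist_Req n D d := by
    intro n d hd
    rw [hD' n] at hd
    split_ifs at hd with h1
    rw [Option.some.injEq] at hd
    rw [← hd]
    exact h1
  -- richness
  have hrich : ∀ (N : ℕ) (d : Dat), Exist_B d.b →
      (∀ n, N ≤ n → d.p < n → Exist_Req n D d) →
      ∃ n, N ≤ n ∧ d.p < n ∧ D n = some d := by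
    intro N d hb hreq
    obtain ⟨a, ha⟩ := hraw d hb
    obtain ⟨n, h1, h2⟩ := henum a (max N (d.p + 1))
    have h4 : N ≤ n := (le_max_left _ _).trans h1
    have h5 : d.p < n := (le_max_right N (d.p + 1)).trans h1
    refine ⟨n, h4, h5, ?_⟩
    rw [hD' n, h2, ha, if_pos]
    exact hreq n h4 h5
  refine ⟨⟨D⟩, ?_⟩
  refine ⟨?_, ?_, ?_, ?_, ?_, ?_, ?_, ?_, ?_, ?_, ?_⟩
  · intro n d hd
    obtain ⟨h1, h3, -⟩ := hsome n d hd
    exact ⟨h1, h3⟩
  · intro n d hd
    exact (hsome n d hd).2.2.1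
  · intro n d hd
    exact (hsome n d hd).2.2.2.1
  · intro n d hd
    exact (hsome n d hd).2.2.2.2.1
  · intro n d hd
    exact (hsome n d hd).2.2.2.2.2.1
  · intro n d hd
    exact (hsome n d hd).2.2.2.2.2.2
  · intro N
    obtain ⟨a, ha⟩ := hraw ⟨false, 0, 0, fun _ _ => 0, 0⟩ (Or.inl Exist_zero)
    obtain ⟨n, h1, h2⟩ := henum a N
    refine ⟨n, h1, ?_⟩
    change D n = none
    rw [hD' n, h2, ha, if_neg]
    rintro ⟨-, -, -, h5, -⟩
    exact absurd (h5 rfl) (by norm_num)
  · intro p j N b hj hb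
    obtain ⟨n, h1, h2, h4⟩ := hrich (max N j) ⟨false, p, j, b, 1⟩ (Or.inl hb) (by
      intro n hn hpn
      refine ⟨hpn, (le_max_right N j).trans hn, Exist_norm hb n, fun _ => rfl,
        fun h => absurd h (by simp), nn_pos j, fun ho => ?_⟩
      exact absurd hj (Nat.not_even_iff_odd.2 ho))
    exact ⟨n, (le_max_left N j).trans h1, h2, h4⟩
  · intro p j N b d hj hb hd hdj hage
    obtain ⟨n, h1, h2, h4⟩ := hrich (max N j) ⟨true, p, j, b, d.age + 1⟩ (Or.inl hb) (by
      intro n hn hpn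
      refine ⟨hpn, (le_max_right N j).trans hn, Exist_norm hb n, fun h => absurd h (by simp),
        fun _ => ⟨d, hd, hdj, rfl⟩, hage, fun ho => ?_⟩
      exact absurd hj (Nat.not_even_iff_odd.2 ho))
    exact ⟨n, (le_max_left N j).trans h1, h2, h4⟩
  · intro p j N i h hj hw hm hh
    obtain ⟨n, h1, h2, h4⟩ := hrich (max (max N j) (i + 1)) ⟨false, p, j, dl i, 1⟩
      (Or.inr ⟨i, rfl⟩) (by
        intro n hn hpn
        refine ⟨hpn, ?_, Exist_dl i n, fun _ => rfl,
          fun h => absurd h (by simp), nn_pos j, fun _ => ?_⟩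
        · exact ((le_max_right N j).trans (le_max_left _ _)).trans hn
        · exact ⟨i, h, (le_max_right _ (i + 1)).trans hn, hw, rfl, fun _ => ⟨hm, hh⟩,
            fun h => absurd h (by simp)⟩)
    exact ⟨n, ((le_max_left N j).trans (le_max_left _ _)).trans h1, h2, h4⟩
  · intro p j N i d hj hw hd hdj hage
    obtain ⟨n, h1, h2, h4⟩ := hrich (max (max N j) (i + 1)) ⟨true, p, j, dl i, d.age + 1⟩
      (Or.inr ⟨i, rfl⟩) (by
        intro n hn hpn
        refine ⟨hpn, ?_, Exist_dl i n, fun h => absurd h (by simp),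
          fun _ => ⟨d, hd, hdj, rfl⟩, hage, fun _ => ?_⟩
        · exact ((le_max_right N j).trans (le_max_left _ _)).trans hn
        · exact ⟨i, code p, (le_max_right _ (i + 1)).trans hn, hw, rfl,
            fun h => absurd h (by simp), fun _ => rfl⟩)
    exact ⟨n, ((le_max_left N j).trans (le_max_left _ _)).trans h1, h2, h4⟩

end Pool.Agent.W8d7136b
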