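import Pool.Agent.W_MP_8d7136_h58b.Bd

set_option autoImplicit false

/-!
Extension: vectors supported below `k` are determined by the functionals of index below `k`.
Port of `Pool.Agent.W_MP_8d7136_h58.Ext`.
-/

namespace Pool.Agent.W8d7136b

open Pool.Agent.W8d7136 (mm tt nn code wt)

variable {S : Sys}

theorem Ext_Q_apply (q : ℕ) (v : W) (i j : ℕ) : Q q v i j = if q < i then v i j else 0 := by
  unfold Q
  rw [res_apply]
  simp only [Set.mem_Ioi]

theorem Ext_Q_zero {k : ℕ} {v : W} (hs : Sup 0 k v) {p : ℕ} (hp : k ≤ p) (a : ℕ → ℂ) :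
    Q p (M a v) = 0 := by
  funext i j
  rw [Ext_Q_apply, M_apply]
  split_ifs with hi
  · rw [hs i j (Or.inr (Or.inl (by omega))), mul_zero]
    rfl
  · rfl

theorem Ext_sig_zero {k n : ℕ} {v : W} (hs : Sup 0 k v) (hn : k ≤ n) (a : ℕ → ℂ) :
    sig n (M a v) = 0 := by
  rw [sig_apply]
  refine Finset.sum_eq_zero fun j _ => ?_
  rw [M_apply, hs n j (Or.inr (Or.inl hn)), mul_zero]

theorem Ext_cond {χ : Bool} {x : ℂ} {C : ℝ} (hC : 0 ≤ C) (h : ‖x‖ ≤ C) :
    ‖(if χ = true then x else 0 : ℂ)‖ ≤ C := by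
  split_ifs
  · exact h
  · rw [norm_zero]
    exact hC

theorem Ext_norm_wt (j : ℕ) (x : ℂ) : ‖(wt j : ℂ) * x‖ = wt j * ‖x‖ := by
  rw [norm_mul, Complex.norm_real, Real.norm_eq_abs,
    abs_of_pos (Pool.Agent.W8d7136.wt_pos j)]

theorem Ext_piece (hS : Good S) {n : ℕ} {d : Dat} (hD : S.D n = some d) {C : ℝ} (hC : 0 ≤ C)
    {v : W} (h : NBl S n C v) {a : ℕ → ℂ} (ha : U a) :
    ‖bf S n d.b (Q d.p (M a v))‖ ≤ 3 * C := by
  have h1 := NBl_Q hS hC (NBl_M h ha) d.p
  have h2 := bf_le (hS.b1 n d hD) (by linarith : (0 : ℝ) ≤ 3 * C) h1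
  linarith

theorem ext_bound (hS : Good S) {k : ℕ} {C : ℝ} (hC : 0 ≤ C) {v : W} (hs : Sup 0 k v)
    (hv : NBl S k C v) : NB S (2 * C) v := by
  intro n
  induction n using Nat.strong_induction_on with
  | _ n ih =>
    intro a ha
    rcases lt_or_ge n k with hn | hn
    · have := hv n hn a ha
      linarith
    have hvn := Ext_sig_zero hs hn a
    rcases hD : S.D n with _ | d
    · rw [e_none hD, hvn, norm_zero]
      linarith
    obtain ⟨hp, -⟩ := hS.lt n d hD
    rw [e_some hS hD, hvn, zero_add]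
    rcases lt_or_ge d.p k with hpk | hpk
    · have h1 : ‖(if d.chi = true then e S d.p (M a v) else 0 : ℂ)‖ ≤ C :=
        Ext_cond hC (hv d.p hpk a ha)
      have h2 := Ext_piece hS hD (C := 2 * C) (by linarith) (v := v)
        (fun i hi a ha => ih i hi a ha) ha
      have h3 : ‖(wt d.j : ℂ) * bf S n d.b (Q d.p (M a v))‖ ≤ C := by
        rw [Ext_norm_wt]
        have h4 := Pool.Agent.W8d7136.wt_le d.j
        have h5 := Pool.Agent.W8d7136.wt_pos d.j
        calc wt d.j * ‖bf S n d.b (Q d.p (M a v))‖ ≤ (1 / 10 ^ 30) * (3 * (2 * C)) :=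
              mul_le_mul h4 h2 (norm_nonneg _) (by positivity)
          _ ≤ C := by nlinarith
      exact (norm_add_le _ _).trans (by linarith)
    · rw [Ext_Q_zero hs hpk a, map_zero, mul_zero, add_zero]
      exact Ext_cond (by linarith) (ih d.p hp a ha)

/-- triangularity -/
theorem Ext_tri (hS : Good S) {n : ℕ} {v v' : W} (h : ∀ i, i < n → ∀ k, k ≤ i → v i k = v' i k) :
    e S n v - e S n v' = sig n v - sig n v' := by
  rcases hD : S.D n with _ | d
  · rw [e_none hD, e_none hD]
  · obtain ⟨hp, -⟩ := hS.lt n d hD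
    have h1 : e S d.p v = e S d.p v' := e_congr hS fun i hi => h i (by omega)
    have h2 : bf S n d.b (Q d.p v) = bf S n d.b (Q d.p v') :=
      bf_congr hS fun i hi k hk => by
        rw [Ext_Q_apply, Ext_Q_apply, h i hi k hk]
    rw [e_some hS hD, e_some hS hD, h1, h2]
    ring

theorem Ext_sig_dk {n j : ℕ} (hj : j ≤ n) (v : W) : sig n (M (dk j) v) = v n j := by
  rw [sig_apply, Finset.sum_eq_single j]
  · rw [M_apply]
    unfold dk
    rw [if_pos rfl, one_mul]
  · intro j' _ hj'
    rw [M_apply]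
    unfold dk
    rw [if_neg hj', zero_mul]
  · intro h
    exact absurd (Finset.mem_range.2 (by omega)) h

/-- triangularity: the value of `e i` in the component `j ≤ i` is `v i j +` (terms depending on the
coordinates below `i` in the component `j`) -/
theorem exists_ext (hS : Good S) (k : ℕ) (u : ℕ → ℕ → ℂ) :
    ∃ v : W, Sup 0 k v ∧ ∀ i, i < k → ∀ j, j ≤ i → e S i (M (dk j) v) = u i j := by
  induction k with
  | zero => exact ⟨0, fun i _ c => rfl, fun i hi => absurd hi (Nat.not_lt_zero i)⟩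
  | succ k ih =>
    obtain ⟨v, hv1, hv2⟩ := ih
    let v' : W := fun i j => if i = k then (if j ≤ k then u k j - e S k (M (dk j) v) else 0)
      else v i j
    have hne : ∀ i, i ≠ k → ∀ j, v' i j = v i j := fun i hi j => if_neg hi
    have hk : ∀ j, v' k j = if j ≤ k then u k j - e S k (M (dk j) v) else 0 := fun j => if_pos rfl
    refine ⟨v', fun i j hi => ?_, fun i hi j hj => ?_⟩
    · by_cases hik : i = k
      · subst hik
        rw [hk, if_neg (by omega)]
      · rw [hne i hik]
        exact hv1 i j (by omega)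
    · rcases Nat.lt_succ_iff_lt_or_eq.1 hi with hi' | hik
      · have h4 : e S i (M (dk j) v') = e S i (M (dk j) v) := e_congr hS fun i' hi' k' _ => by
          rw [M_apply, M_apply, hne i' (by omega)]
        rw [h4]
        exact hv2 i hi' j hj
      · subst hik
        have h1 := Ext_tri hS (n := i) (v := M (dk j) v') (v' := M (dk j) v)
          (fun i' hi' k' _ => by rw [M_apply, M_apply, hne i' (by omega)])
        rw [Ext_sig_dk hj, Ext_sig_dk hj, hk, if_pos hj, hv1 i j (Or.inr (Or.inl le_rfl))] at h1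
        linear_combination h1

theorem zero_of_e (hS : Good S) {n : ℕ} {v : W}
    (h : ∀ i, i < n → ∀ j, j ≤ i → e S i (M (dk j) v) = 0) :
    ∀ i, i < n → ∀ j, j ≤ i → v i j = 0 := by
  intro i
  induction i using Nat.strong_induction_on with
  | _ i ih =>
    intro hi j hj
    have h1 := Ext_tri hS (v := M (dk j) v) (v' := 0) (n := i) (fun i' hi' k' hk' => by
      rw [M_apply, ih i' hi' (by omega) k' hk', mul_zero]
      rfl)
    rw [h i hi j hj, map_zero, map_zero, Ext_sig_dk hj] at h1
    linear_combination -h1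

/-- finitely supported vectors have finite norm -/
theorem exists_NB (hS : Good S) {k : ℕ} {v : W} (hs : Sup 0 k v) : ∃ C, NB S C v := by
  refine ⟨2 * ∑ i ∈ Finset.range k, ∑ j ∈ Finset.range (i + 1), ‖e S i (M (dk j) v)‖,
    ext_bound hS ?_ hs ?_⟩
  · positivity
  · intro i hi a ha
    have h1 : ‖e S i (M a v)‖ ≤ ∑ j ∈ Finset.range (i + 1), ‖e S i (M (dk j) v)‖ := by
      rw [e_M_eq hS]
      refine (norm_sum_le _ _).trans (Finset.sum_le_sum fun j _ => ?_)
      rw [norm_mul]
      exact mul_le_of_le_one_left (norm_nonneg _) (ha j)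
    have h2 : ∑ j ∈ Finset.range (i + 1), ‖e S i (M (dk j) v)‖ ≤
        ∑ i ∈ Finset.range k, ∑ j ∈ Finset.range (i + 1), ‖e S i (M (dk j) v)‖ :=
      Finset.single_le_sum (f := fun i => ∑ j ∈ Finset.range (i + 1), ‖e S i (M (dk j) v)‖)
        (fun i _ => Finset.sum_nonneg fun c _ => norm_nonneg _) (Finset.mem_range.2 hi)
    exact h1.trans h2

theorem Ext_weight (hS : Good S) {hi : ℕ} {y : W} {C : ℝ} (hC : 0 ≤ C) (hs : Sup 0 hi y)
    (hy : NB S (2 * C) y) {h : ℕ}
    (h0 : ∀ n, n < hi → Wt S n h → ∀ a, U a → e S n (M a y) = 0) :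
    ∀ n, Wt S n h → ∀ a, U a → ‖e S n (M a y)‖ ≤ 24 * C * wt h := by
  intro n
  induction n using Nat.strong_induction_on with
  | _ n ih =>
    intro hn a ha
    have hw := Pool.Agent.W8d7136.wt_pos h
    have hpos : 0 ≤ 24 * C * wt h := by positivity
    rcases lt_or_ge n hi with hlt | hge
    · rw [h0 n hlt hn a ha, norm_zero]
      exact hpos
    obtain ⟨d, hD, hdj⟩ := hn
    obtain ⟨hp, -⟩ := hS.lt n d hD
    have hyn := Ext_sig_zero hs hge a
    have hpw : d.chi = true → Wt S d.p h := by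
      intro hchi
      obtain ⟨d', hd', hj, -⟩ := hS.age2 n d hD hchi
      exact ⟨d', hd', by rw [hj, hdj]⟩
    rw [e_some hS hD, hyn, zero_add, hdj]
    rcases lt_or_ge d.p hi with hpk | hpk
    · have h1 : (if d.chi = true then e S d.p (M a y) else 0 : ℂ) = 0 := by
        split_ifs with hchi
        · exact h0 d.p hpk (hpw hchi) a ha
        · rfl
      have h2 := Ext_piece hS hD (C := 2 * C) (by linarith) (v := y)
        (fun i _ a ha => hy i a ha) ha
      rw [h1, zero_add, Ext_norm_wt]
      calc wt h * ‖bf S n d.b (Q d.p (M a y))‖ ≤ wt h * (3 * (2 * C)) :=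
            mul_le_mul_of_nonneg_left h2 hw.le
        _ ≤ 24 * C * wt h := by nlinarith [mul_nonneg hC hw.le]
    · rw [Ext_Q_zero hs hpk a, map_zero, mul_zero, add_zero]
      split_ifs with hchi
      · exact ih d.p hp (hpw hchi) a ha
      · rw [norm_zero]
        exact hpos

/-- Local support splitting.  Let `u(i,j) = e_i(M (dk j) x)` for `i < hi`; `y` is the extension of `u`
restricted to the indices without data or of weight `≤ N`, `z` that of the rest (`exists_ext`, `zero_of_e`:
both are supported in `[lo, hi)`; `e_M_eq`; `ext_bound`).  For `n` of weight `h > N`: `e_n(M a y) = 0` for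
`n < hi`; for `hi ≤ n`: `χ e_p(M a y) + w_h bf(Q_p M a y)`; if `p < hi` the first term is `0` (if `χ = 1` then
`p` has weight `h`); if `hi ≤ p` the second term is `0`.  For `h ≤ N` use `mm N * w_h ≥ 1`.
The same for `z` and `h ≤ N`. -/
theorem split (hS : Good S) {lo hi : ℕ} {x : W} {C : ℝ} (hs : Sup lo hi x) (hx : NB S C x)
    (N : ℕ) : ∃ y z : W, x = y + z ∧ Sup lo hi y ∧ Sup lo hi z ∧ NB S (2 * C) y ∧
      NB S (2 * C) z ∧ (∀ h, WB S h (1000 * C * mm N) y) ∧ ∀ h, h ≤ N → WB S h (1000 * C) z := by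
  classical
  have hC : 0 ≤ C := NB_nonneg hx
  have hsx : Sup 0 hi x := fun i j hi' => hs i j (by omega)
  -- `x` has zero functionals below `lo`
  have hex : ∀ i, i < lo → ∀ a, e S i (M a x) = 0 := fun i hi' a =>
    e_eq_zero hS fun i' hi'' k _ => by rw [M_apply, hs i' k (Or.inl (by omega)), mul_zero]
  set A : ℕ → Prop := fun i => ∃ h, N < h ∧ Wt S i h with hA
  obtain ⟨y, hy1, hy2⟩ := exists_ext hS hi (fun i j => if A i then 0 else e S i (M (dk j) x))
  have hy3 : ∀ i, i < hi → ∀ a, e S i (M a y) = if A i then 0 else e S i (M a x) := by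
    intro i hi' a
    rw [e_M_eq hS a y]
    split_ifs with hAi
    · refine Finset.sum_eq_zero fun j hj => ?_
      rw [hy2 i hi' j (by rw [Finset.mem_range] at hj; omega), if_pos hAi, mul_zero]
    · rw [e_M_eq hS a x]
      refine Finset.sum_congr rfl fun j hj => ?_
      rw [hy2 i hi' j (by rw [Finset.mem_range] at hj; omega), if_neg hAi]
  have hz1 : Sup 0 hi (x - y) := by
    intro i j hi'
    have e1 := hsx i j hi'
    have e2 := hy1 i j hi'
    show x i j - y i j = 0
    rw [e1, e2, sub_zero]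
  have hz2 : ∀ i, i < hi → ∀ a, e S i (M a (x - y)) = if A i then e S i (M a x) else 0 := by
    intro i hi' a
    rw [map_sub, map_sub, hy3 i hi' a]
    split_ifs <;> simp
  have hylo : ∀ i, i < lo → ∀ j, y i j = 0 := by
    intro i hilo j
    rcases lt_or_ge i hi with h1 | h1
    · rcases lt_or_ge i j with h2 | h2
      · exact hy1 i j (Or.inr (Or.inr h2))
      refine zero_of_e hS (n := min lo hi) (fun i' hi' j' hj' => ?_) i (lt_min hilo h1) j h2
      rw [lt_min_iff] at hi'
      rw [hy2 i' hi'.2 j' hj', hex i' hi'.1 _, ite_self]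
    · exact hy1 i j (Or.inr (Or.inl h1))
  have hys : Sup lo hi y := by
    intro i j hi'
    rcases hi' with h | h
    · exact hylo i h j
    · exact hy1 i j (Or.inr h)
  have hzs : Sup lo hi (x - y) := by
    intro i j hi'
    show x i j - y i j = 0
    rw [hs i j hi', hys i j hi', sub_zero]
  have hyN : NB S (2 * C) y := by
    refine ext_bound hS hC hy1 fun i hi' a ha => ?_
    rw [hy3 i hi' a]
    split_ifs
    · rw [norm_zero]
      exact hC
    · exact hx i a ha
  have hzN : NB S (2 * C) (x - y) := by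
    refine ext_bound hS hC hz1 fun i hi' a ha => ?_
    rw [hz2 i hi' a]
    split_ifs
    · exact hx i a ha
    · rw [norm_zero]
      exact hC
  refine ⟨y, x - y, by abel, hys, hzs, hyN, hzN, fun h => ?_, fun h hN => ?_⟩
  · intro n hn a ha
    have hw := Pool.Agent.W8d7136.wt_pos h
    have hmN := Pool.Agent.W8d7136.Par_mm_pos N
    have hmh := Pool.Agent.W8d7136.Par_mm_pos h
    rcases le_or_gt h N with hle | hlt
    · have h1 : 1 ≤ (mm N : ℝ) * wt h := by
        unfold wt
        rw [mul_one_div, le_div_iff₀ hmh, one_mul]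
        exact_mod_cast Pool.Agent.W8d7136.mm_strictMono.monotone hle
      have h2 := hyN n a ha
      nlinarith
    · have h1 := Ext_weight hS hC hy1 hyN (h := h) (fun m hm hmw a _ => by
        rw [hy3 m hm a, if_pos ⟨h, hlt, hmw⟩]) n hn a ha
      have h2 : (1 : ℝ) ≤ mm N := by
        have := Pool.Agent.W8d7136.mm_ge N
        have h3 : 1 ≤ mm N := le_trans (by norm_num) this
        exact_mod_cast h3
      have h4 : 0 ≤ C * wt h := by positivity
      nlinarith
  · intro n hn a ha
    have hw := Pool.Agent.W8d7136.wt_pos h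
    have h1 := Ext_weight hS hC hz1 hzN (h := h) (fun m hm hmw a _ => by
      rw [hz2 m hm a, if_neg]
      rintro ⟨h', hN', d', hd', hj'⟩
      obtain ⟨d, hd, hj⟩ := hmw
      rw [hd] at hd'
      have : d = d' := Option.some.inj hd'
      subst this
      omega) n hn a ha
    have h4 : 0 ≤ C * wt h := by positivity
    linarith

end Pool.Agent.W8d7136b
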