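import Pool.Agent.W_MP_8d7136_h58b.RisLam
import Pool.Agent.W_MP_8d7136_h58b.Cpt
import Pool.Agent.W_MP_8d7136_h58b.BS

set_option autoImplicit false

/-!
The Calkin algebra of `X` is `C(βℕ)`.
-/

open Filter Topology

namespace Pool.Agent.W8d7136b

open Pool.Agent.W8d7136 (mm tt nn code wt)

/-- every operator is a multiplication operator plus a compact operator (`ris_lam`, `MX_io`,
`compact_of_ris`) -/
theorem compact_sub (T : X →L[ℂ] X) : IsCompactOperator (T - MX (lam T)) := by
  refine compact_of_ris fun C x hx => ?_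
  have h1 : ∀ k, (T - MX (lam T)) (io (x k)) = T (io (x k)) - io (M (lam T) (x k)) := fun k => by
    rw [sub_apply, MX_io (hx.mem k) (lam_le T)]
  simp only [h1]
  exact ris_lam T hx

theorem Fin_MX_zero : MX (fun _ => 0) = 0 := by
  have h1 : ‖MX (fun _ => 0)‖ ≤ 0 := MX_norm le_rfl fun k => by rw [norm_zero]
  exact norm_le_zero_iff.1 h1

/-- the kernel of the scalars -/
theorem Fin_compact_iff (T : X →L[ℂ] X) : IsCompactOperator T ↔ ∀ n, lam T n = 0 := by
  constructor
  · intro h n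
    exact lam_compact h n
  · intro h
    have h1 : lam T = fun _ => 0 := funext h
    have h2 := compact_sub T
    rw [h1, Fin_MX_zero, sub_zero] at h2
    exact h2

theorem Fin_f_exists (T : X →L[ℂ] X) :
    ∃ f : C(StoneCech ℕ, ℂ), ∀ n, f (stoneCechUnit n) = lam T n :=
  BS_exists (lam_le T)

/-- the map -/
noncomputable def FinTh : (X →L[ℂ] X) →ₗ[ℂ] C(StoneCech ℕ, ℂ) where
  toFun T := (Fin_f_exists T).choose
  map_add' T T' := BS_ext fun n => by
    rw [(Fin_f_exists (T + T')).choose_spec n, ContinuousMap.add_apply,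
      (Fin_f_exists T).choose_spec n, (Fin_f_exists T').choose_spec n, lam_add]
  map_smul' r T := BS_ext fun n => by
    rw [(Fin_f_exists (r • T)).choose_spec n, ContinuousMap.smul_apply,
      (Fin_f_exists T).choose_spec n, lam_smul, RingHom.id_apply, smul_eq_mul]

theorem FinTh_apply (T : X →L[ℂ] X) (n : ℕ) : FinTh T (stoneCechUnit n) = lam T n :=
  (Fin_f_exists T).choose_spec n

theorem FinTh_ker : LinearMap.ker FinTh = compactOperator (RingHom.id ℂ) X X := by
  ext T
  rw [LinearMap.mem_ker]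
  change FinTh T = 0 ↔ IsCompactOperator T
  rw [Fin_compact_iff]
  constructor
  · intro h n
    rw [← FinTh_apply, h, ContinuousMap.zero_apply]
  · intro h
    refine BS_ext fun n => ?_
    rw [FinTh_apply, h n, ContinuousMap.zero_apply]

theorem FinTh_surj : Function.Surjective FinTh := by
  intro f
  have ha : ∀ n : ℕ, ‖f (stoneCechUnit n)‖ ≤ ‖f‖ := BS_le f
  refine ⟨MX fun n => f (stoneCechUnit n), BS_ext fun n => ?_⟩
  rw [FinTh_apply, lam_MX ha]

theorem FinTh_le (T : X →L[ℂ] X) : ‖FinTh T‖ ≤ ‖T‖ := by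
  refine BS_norm (norm_nonneg _) fun n => ?_
  rw [FinTh_apply]
  exact lam_le T n

/-- The isometric isomorphism: `Φ (mk T) (unit n) = lam T n`.  Norms: `mk T = mk (MX (lam T))`, so
`‖mk T‖ ≤ ‖MX (lam T)‖ ≤ sup |lam T|`; and `|lam T n| = |lam (T + K) n| ≤ ‖T + K‖` for all compact `K`.
Surjective: `lam_MX`. -/
theorem exists_iso :
    ∃ Φ : ((X →L[ℂ] X) ⧸ compactOperator (RingHom.id ℂ) X X) ≃ₗᵢ[ℂ] C(StoneCech ℕ, ℂ),
      ∀ (T : X →L[ℂ] X) (n : ℕ), Φ (Submodule.Quotient.mk T) (stoneCechUnit n) = lam T n := by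
  let e : ((X →L[ℂ] X) ⧸ compactOperator (RingHom.id ℂ) X X) ≃ₗ[ℂ] C(StoneCech ℕ, ℂ) :=
    (Submodule.quotEquivOfEq _ _ FinTh_ker.symm).trans (FinTh.quotKerEquivOfSurjective FinTh_surj)
  have he : ∀ T, e (Submodule.Quotient.mk T) = FinTh T := fun T => rfl
  refine ⟨⟨e, fun q => ?_⟩, fun T n => ?_⟩
  · apply le_antisymm
    · refine le_of_forall_pos_le_add fun ε hε => ?_
      obtain ⟨T, rfl, hT⟩ := Submodule.Quotient.norm_mk_lt q hε
      rw [he]
      exact (FinTh_le T).trans hT.le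
    · obtain ⟨T, rfl⟩ := Submodule.Quotient.mk_surjective _ q
      have h1 : (Submodule.Quotient.mk T : (X →L[ℂ] X) ⧸ compactOperator (RingHom.id ℂ) X X) =
          Submodule.Quotient.mk (MX (lam T)) := by
        rw [Submodule.Quotient.eq]
        exact compact_sub T
      calc ‖(Submodule.Quotient.mk T : (X →L[ℂ] X) ⧸ compactOperator (RingHom.id ℂ) X X)‖
          = ‖(Submodule.Quotient.mk (MX (lam T)) :
              (X →L[ℂ] X) ⧸ compactOperator (RingHom.id ℂ) X X)‖ := by rw [h1]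
        _ ≤ ‖MX (lam T)‖ := Submodule.Quotient.norm_mk_le _ _
        _ ≤ ‖FinTh T‖ := MX_norm (norm_nonneg _) fun k => by
            rw [← FinTh_apply]
            exact BS_le _ k
        _ = ‖e (Submodule.Quotient.mk T)‖ := by rw [he]
  · change e (Submodule.Quotient.mk T) (stoneCechUnit n) = lam T n
    rw [he, FinTh_apply]

end Pool.Agent.W8d7136b
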