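import Pool.Agent.W_MP_8d7136_h58b.XOps

set_option autoImplicit false

/-!
Rational approximation of functionals.  Port of `Pool.Agent.W_MP_8d7136_h58.FunRep`.
-/

namespace Pool.Agent.W8d7136b

open Pool.Agent.W8d7136 (mm tt nn code wt)

theorem FunRep_ext {k : ℕ} {v v' : W} (hv : Sup 0 k v) (hv' : Sup 0 k v')
    (h : ∀ i, i < k → ∀ j, j ≤ i → e S0 i (M (dk j) v) = e S0 i (M (dk j) v')) : v = v' := by
  funext i j
  by_cases hij : i < k ∧ j ≤ i
  · have h0 : ∀ i, i < k → ∀ j, j ≤ i → e S0 i (M (dk j) (v - v')) = 0 := by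
      intro i hi j hj
      rw [map_sub, map_sub, h i hi j hj, sub_self]
    have h1 := zero_of_e hS0 h0 i hij.1 j hij.2
    rw [Pi.sub_apply, Pi.sub_apply, sub_eq_zero] at h1
    exact h1
  · rw [hv i j (by omega), hv' i j (by omega)]

/-- On the vectors supported in `[0, k)` a functional of norm at most `1` is
`∑_{i < k} ∑_{j ≤ i} b i j e_i (M (dk j) v)` (the map `v ↦ (e_i (M (dk j) v))_{j ≤ i < k}` is a linear
bijection: `exists_ext`, `zero_of_e`), and `∑_{i < k} max_j |b i j| ≤ 2`: for every `i` choose `j_i` with `|b i j_i|`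
maximal and test with the `v` with `e_i (M (dk j_i) v)` of modulus one and `b i j_i e_i(..) = |b i j_i|`, all other
values zero; then `‖e_i (M a v)‖ ≤ 1` for `i < k`, so the norm of `v` is at most `2` (`ext_bound`).  Finally
`bf S0 k b v = ∑_i ∑_{j ≤ i} b i j e_i (M (dk j) v)` by `e_M_eq`. -/
theorem fun_rep (f : X →L[ℂ] ℂ) (hf : ‖f‖ ≤ 1) (k : ℕ) : ∃ b : ℕ → ℕ → ℂ,
    (∀ i j, (k ≤ i ∨ k ≤ j) → b i j = 0) ∧ LB k b 2 ∧ ∀ v : W, Sup 0 k v →
      f (io v) = bf S0 k b v := by
  classical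
  have hex : ∀ (i j : ℕ), ∃ v : W, Sup 0 k v ∧ ∀ i', i' < k → ∀ j', j' ≤ i' →
      e S0 i' (M (dk j') v) = if i' = i ∧ j' = j then 1 else 0 :=
    fun i j => exists_ext hS0 k (fun i' j' => if i' = i ∧ j' = j then 1 else 0)
  choose w hw1 hw2 using hex
  obtain ⟨b, hb⟩ : ∃ b : ℕ → ℕ → ℂ, ∀ i j, b i j =
      if i < k ∧ j ≤ i then f (io (w i j)) else 0 := ⟨_, fun _ _ => rfl⟩
  have hb0 : ∀ i j, ¬ (i < k ∧ j ≤ i) → b i j = 0 := fun i j h => by rw [hb, if_neg h]
  have hbf : ∀ v : W, bf S0 k b v = ∑ i ∈ Finset.range k, ∑ j ∈ Finset.range (i + 1),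
      b i j * e S0 i (M (dk j) v) := by
    intro v
    rw [bf_apply]
    exact Finset.sum_congr rfl fun i _ => e_M_eq hS0 _ _
  have hrep : ∀ v : W, Sup 0 k v → f (io v) = bf S0 k b v := by
    intro v hv
    have hsum : v = ∑ i ∈ Finset.range k, ∑ j ∈ Finset.range (i + 1),
        e S0 i (M (dk j) v) • w i j := by
      refine FunRep_ext hv ?_ ?_
      · intro i' j' hj
        rw [Finset.sum_apply, Finset.sum_apply]
        refine Finset.sum_eq_zero fun i _ => ?_
        rw [Finset.sum_apply, Finset.sum_apply]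
        refine Finset.sum_eq_zero fun j _ => ?_
        rw [Pi.smul_apply, Pi.smul_apply, hw1 i j i' j' hj, smul_zero]
      · intro i' hi' j' hj'
        rw [map_sum, map_sum, Finset.sum_eq_single_of_mem i' (Finset.mem_range.2 hi')]
        · rw [map_sum, map_sum,
            Finset.sum_eq_single_of_mem j' (Finset.mem_range.2 (by omega))]
          · rw [map_smul, map_smul, hw2 i' j' i' hi' j' hj']
            simp
          · intro j _ hj
            rw [map_smul, map_smul, hw2 i' j i' hi' j' hj',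
              if_neg (by rintro ⟨-, h⟩; exact hj h.symm), smul_zero]
        · intro i _ hi
          rw [map_sum, map_sum]
          refine Finset.sum_eq_zero fun j _ => ?_
          rw [map_smul, map_smul, hw2 i j i' hi' j' hj',
            if_neg (by rintro ⟨h, -⟩; exact hi h.symm), smul_zero]
    rw [hbf]
    conv_lhs => rw [hsum]
    rw [map_sum, map_sum]
    refine Finset.sum_congr rfl fun i hi => ?_
    rw [map_sum, map_sum]
    refine Finset.sum_congr rfl fun j hj => ?_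
    rw [Finset.mem_range] at hi hj
    rw [map_smul, map_smul, smul_eq_mul, mul_comm, hb, if_pos ⟨hi, by omega⟩]
  -- the maxima
  have hmax : ∀ i, ∃ j, j ≤ i ∧ ∀ j', ‖b i j'‖ ≤ ‖b i j‖ := by
    intro i
    obtain ⟨j, hj, hj'⟩ := Finset.exists_max_image (Finset.range (i + 1)) (fun j => ‖b i j‖)
      ⟨0, Finset.mem_range.2 (by omega)⟩
    rw [Finset.mem_range] at hj
    refine ⟨j, by omega, fun j' => ?_⟩
    by_cases h : j' ≤ i
    · exact hj' j' (Finset.mem_range.2 (by omega))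
    · rw [hb0 i j' (fun h' => h h'.2), norm_zero]
      exact norm_nonneg _
  choose m hm1 hm2 using hmax
  refine ⟨b, fun i j h => hb0 i j (by omega), ⟨fun i => ‖b i (m i)‖, fun i j => hm2 i j, ?_⟩, hrep⟩
  -- the norm
  obtain ⟨v, hv1, hv2⟩ := exists_ext hS0 k
    (fun i j => if j = m i then
      (if b i (m i) = 0 then 0 else (starRingEnd ℂ) (b i (m i)) / (‖b i (m i)‖ : ℂ)) else 0)
  have hsingle : ∀ i, i < k → ∀ a : ℕ → ℂ, ∑ j ∈ Finset.range (i + 1),
      a j * e S0 i (M (dk j) v) = a (m i) *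
        (if b i (m i) = 0 then 0 else (starRingEnd ℂ) (b i (m i)) / (‖b i (m i)‖ : ℂ)) := by
    intro i hi a
    have hmi := hm1 i
    rw [Finset.sum_eq_single_of_mem (m i) (Finset.mem_range.2 (by omega))]
    · rw [hv2 i hi (m i) hmi, if_pos rfl]
    · intro j hj hjm
      rw [Finset.mem_range] at hj
      rw [hv2 i hi j (by omega), if_neg hjm, mul_zero]
  have hnb : NBl S0 k 1 v := by
    intro i hi a ha
    rw [e_M_eq hS0, hsingle i hi a, norm_mul]
    have h1 : ‖(if b i (m i) = 0 then (0 : ℂ) else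
        (starRingEnd ℂ) (b i (m i)) / (‖b i (m i)‖ : ℂ))‖ ≤ 1 := by
      split_ifs with h
      · rw [norm_zero]
        exact zero_le_one
      · have h0 : ‖b i (m i)‖ ≠ 0 := norm_ne_zero_iff.2 h
        rw [norm_div, Complex.norm_conj, Complex.norm_real, norm_norm, div_self h0]
    exact mul_le_one₀ (ha _) (norm_nonneg _) h1
  have hnb2 := ext_bound hS0 zero_le_one hv1 hnb
  have hFs : v ∈ Fs := Fs_of_Sup hv1
  have hio : ‖io v‖ ≤ 2 := (norm_io_le hFs).2 (by rw [mul_one] at hnb2; exact hnb2)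
  have h1 : f (io v) = ((∑ i ∈ Finset.range k, ‖b i (m i)‖ : ℝ) : ℂ) := by
    rw [hrep v hv1, hbf]
    push_cast
    refine Finset.sum_congr rfl fun i hi => ?_
    rw [hsingle i (Finset.mem_range.1 hi) (b i)]
    split_ifs with h
    · rw [h, mul_zero, norm_zero, Complex.ofReal_zero]
    · have h0 : (‖b i (m i)‖ : ℂ) ≠ 0 := by
        rw [Ne, Complex.ofReal_eq_zero]
        exact norm_ne_zero_iff.2 h
      rw [← mul_div_assoc, Complex.mul_conj, Complex.normSq_eq_norm_sq]
      rw [div_eq_iff h0]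
      push_cast
      ring
  have h2 : ‖f (io v)‖ ≤ 2 := by
    refine (f.le_opNorm _).trans ?_
    nlinarith [norm_nonneg f, norm_nonneg (io v)]
  rw [h1, Complex.norm_real, Real.norm_eq_abs] at h2
  exact (le_abs_self _).trans h2

theorem FunRep_rat (z : ℂ) {δ : ℝ} (hδ : 0 < δ) : ∃ x y : ℚ,
    ‖((x : ℂ) + (y : ℂ) * Complex.I) - z‖ ≤ δ := by
  obtain ⟨x, hx1, hx2⟩ := exists_rat_btwn (show z.re - δ / 2 < z.re by linarith)
  obtain ⟨y, hy1, hy2⟩ := exists_rat_btwn (show z.im - δ / 2 < z.im by linarith)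
  refine ⟨x, y, ?_⟩
  refine (Complex.norm_le_abs_re_add_abs_im _).trans ?_
  have e1 : (((x : ℂ) + (y : ℂ) * Complex.I) - z).re = (x : ℝ) - z.re := by simp
  have e2 : (((x : ℂ) + (y : ℂ) * Complex.I) - z).im = (y : ℝ) - z.im := by simp
  rw [e1, e2]
  have h1 : |(x : ℝ) - z.re| ≤ δ / 2 := by
    rw [abs_le]
    constructor <;> linarith
  have h2 : |(y : ℝ) - z.im| ≤ δ / 2 := by
    rw [abs_le]
    constructor <;> linarith
  linarith

/-- approximate `b / 4` by rational complex numbers -/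
theorem fun_rat (f : X →L[ℂ] ℂ) (hf : ‖f‖ ≤ 1) (k : ℕ) {ε : ℝ} (hε : 0 < ε) :
    ∃ b : ℕ → ℕ → ℂ, RatB b ∧ (∀ i, k ≤ i → ∀ j, b i j = 0) ∧ ∀ v : W, Sup 0 k v →
      ‖bf S0 k b v - f (io v) / 4‖ ≤ ε * ‖io v‖ := by
  classical
  obtain ⟨β, hβ0, ⟨B, hB1, hB2⟩, hβ2⟩ := fun_rep f hf k
  set δ : ℝ := min ε (1 / 2) / (k + 1) with hδ
  have hm : 0 < min ε (1 / 2) := lt_min hε (by norm_num)
  have hk0 : (0 : ℝ) < k + 1 := by positivity
  have hδ0 : 0 < δ := div_pos hm hk0
  have hδk : (k : ℝ) * δ ≤ min ε (1 / 2) := by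
    have h1 : δ * (k + 1) = min ε (1 / 2) := by
      rw [hδ]
      field_simp
    nlinarith
  choose x y hxy using fun (i : ℕ) (j : ℕ) => FunRep_rat (β i j / 4) hδ0
  obtain ⟨b, hb⟩ : ∃ b : ℕ → ℕ → ℂ, ∀ i j, b i j =
      if i < k ∧ j < k then (x i j : ℂ) + (y i j : ℂ) * Complex.I else 0 := ⟨_, fun _ _ => rfl⟩
  have hb0 : ∀ i j, ¬ (i < k ∧ j < k) → b i j = 0 := fun i j h => by rw [hb, if_neg h]
  have hbd : ∀ i j, ‖b i j - β i j / 4‖ ≤ δ := by
    intro i j
    by_cases h : i < k ∧ j < k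
    · rw [hb, if_pos h]
      exact hxy i j
    · rw [hb0 i j h, hβ0 i j (by omega), zero_div, sub_zero, norm_zero]
      exact hδ0.le
  refine ⟨b, ⟨?_, k, fun i j h => hb0 i j (by omega), fun i => δ + B i / 4, ?_, ?_⟩,
    fun i hi j => hb0 i j (by omega), ?_⟩
  · intro i j
    by_cases h : i < k ∧ j < k
    · exact ⟨x i j, y i j, by rw [hb, if_pos h]⟩
    · exact ⟨0, 0, by rw [hb0 i j h]; simp⟩
  · intro i j
    have h2 := hbd i j
    have h3 := norm_add_le (b i j - β i j / 4) (β i j / 4)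
    rw [sub_add_cancel, norm_div] at h3
    have h4 : ‖(4 : ℂ)‖ = 4 := by norm_num
    rw [h4] at h3
    have h5 := hB1 i j
    change ‖b i j‖ ≤ δ + B i / 4
    linarith
  · rw [Finset.sum_add_distrib, Finset.sum_const, Finset.card_range, nsmul_eq_mul,
      ← Finset.sum_div]
    have h6 := min_le_right ε (1 / 2 : ℝ)
    linarith
  · intro v hv
    have hFs : v ∈ Fs := Fs_of_Sup hv
    have hNB : NB S0 ‖io v‖ v := (norm_io_le hFs).1 le_rfl
    rw [hβ2 v hv, bf_apply, bf_apply, Finset.sum_div, ← Finset.sum_sub_distrib]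
    have h1 : ‖∑ i ∈ Finset.range k, (e S0 i (M (b i) v) - e S0 i (M (β i) v) / 4)‖ ≤
        ∑ _i ∈ Finset.range k, δ * ‖io v‖ := by
      refine (norm_sum_le _ _).trans (Finset.sum_le_sum fun i _ => ?_)
      have h2 : e S0 i (M (b i) v) - e S0 i (M (β i) v) / 4 =
          e S0 i (M (fun j => b i j - β i j / 4) v) := by
        have h3 : (fun j => b i j - β i j / 4) = fun j => b i j - (1 / 4 : ℂ) * β i j := by
          funext j
          ring
        rw [h3, M_sub, M_smul, map_sub, map_smul, smul_eq_mul]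
        ring
      rw [h2]
      exact Bd_M_le (fun a ha => hNB i a ha) fun j => hbd i j
    refine h1.trans ?_
    rw [Finset.sum_const, Finset.card_range, nsmul_eq_mul, ← mul_assoc]
    exact mul_le_mul_of_nonneg_right (hδk.trans (min_le_left _ _)) (norm_nonneg _)

end Pool.Agent.W8d7136b
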