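import Pool.Agent.W_MP_8d7136_h58b.NoBad
import Pool.Agent.W_MP_8d7136_h58b.FunRep

set_option autoImplicit false

/-!
The main lemma.
-/

open Filter Topology

namespace Pool.Agent.W8d7136b

open Pool.Agent.W8d7136 (mm tt nn code wt)

/-- Hahn-Banach (e.g. in the quotient by the closure of `F`) -/
theorem hb_sub (F : Submodule ℂ X) (u : X) {δ : ℝ} (hδ : 0 < δ) (h : ∀ s ∈ F, δ ≤ ‖u - s‖) :
    ∃ f : X →L[ℂ] ℂ, ‖f‖ ≤ 1 ∧ (∀ s ∈ F, f s = 0) ∧ δ ≤ (f u).re := by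
  have hnorm : δ ≤ ‖(Submodule.Quotient.mk u : X ⧸ F)‖ := by
    refine (QuotientAddGroup.le_norm_iff (S := F.toAddSubgroup)).2 fun m hm => ?_
    have h1 : u - m ∈ F := by
      rw [← Submodule.Quotient.mk_eq_zero F, Submodule.Quotient.mk_sub, sub_eq_zero]
      exact hm.symm
    have h2 := h _ h1
    rw [sub_sub_cancel] at h2
    exact h2
  obtain ⟨g, hg1, hg2⟩ := exists_dual_vector'' ℂ (Submodule.Quotient.mk u : X ⧸ F)
  have hle : ∀ w : X, ‖(g.toLinearMap.comp F.mkQ) w‖ ≤ 1 * ‖w‖ := by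
    intro w
    have h1 : ‖g (Submodule.Quotient.mk w : X ⧸ F)‖ ≤ 1 * ‖(Submodule.Quotient.mk w : X ⧸ F)‖ :=
      g.le_of_opNorm_le hg1 _
    refine h1.trans ?_
    exact mul_le_mul_of_nonneg_left (Submodule.Quotient.norm_mk_le F w) zero_le_one
  refine ⟨LinearMap.mkContinuous (g.toLinearMap.comp F.mkQ) 1 hle, ?_, fun s hs => ?_, ?_⟩
  · exact LinearMap.mkContinuous_norm_le _ zero_le_one hle
  · rw [LinearMap.mkContinuous_apply]
    have h1 : (Submodule.Quotient.mk s : X ⧸ F) = 0 := (Submodule.Quotient.mk_eq_zero F).2 hs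
    change g (Submodule.Quotient.mk s : X ⧸ F) = 0
    rw [h1, map_zero]
  · rw [LinearMap.mkContinuous_apply]
    change δ ≤ (g (Submodule.Quotient.mk u : X ⧸ F)).re
    rw [hg2]
    simpa using hnorm

/-- the linear map `a ↦ io (M a v)` -/
noncomputable def MainL_lin (v : W) : (ℕ → ℂ) →ₗ[ℂ] X where
  toFun a := io (M a v)
  map_add' a a' := by
    rw [← map_add, ← M_add]
    rfl
  map_smul' r a := by
    rw [RingHom.id_apply, ← map_smul, ← M_smul]
    rfl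

theorem MainL_LB {b : ℕ → ℕ → ℂ} (hb : RatB b) (N : ℕ) : ∃ B : ℝ, LB N b B := by
  obtain ⟨-, K, -, β, hβ, -⟩ := hb
  exact ⟨_, β, hβ, le_rfl⟩

/-- Take `f` from `hb_sub` for the submodule of all `io (M a (x k))` (the range of a linear map of `a`).  Choose
`N ≥ hi k` with `‖T x_k - PX N (T x_k)‖ ≤ δ / 10` and `b` from `fun_rat` for `f`, `N`, small `ε''`.
`bfX N b u = bfX N b (PX N u)` and `PX_mem`. -/
theorem bad_of {C : ℝ} {x : ℕ → W} (hx : RIS C x) {T : X →L[ℂ] X} {δ : ℝ} (hδ : 0 < δ)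
    (h : ∃ᶠ k in atTop, ∀ a : ℕ → ℂ, δ ≤ ‖T (io (x k)) - io (M a (x k))‖) :
    Bad T (δ / 50) x := by
  intro ε hε k₀
  obtain ⟨lo, hi, J, hRI⟩ := hx
  obtain ⟨k, hk, hkk⟩ := (h.and_eventually (eventually_ge_atTop k₀)).exists
  refine ⟨k, hkk, ?_⟩
  have hxF : x k ∈ Fs := hRI.mem k
  have hC : 0 ≤ C := NB_nonneg (hRI.blk k).nb
  obtain ⟨f, hf1, hf2, hf3⟩ := hb_sub (LinearMap.range (MainL_lin (x k))) (T (io (x k))) hδ (by
    rintro _ ⟨a, rfl⟩
    exact hk a)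
  have hf0 : ∀ a : ℕ → ℂ, f (io (M a (x k))) = 0 := fun a => hf2 _ ⟨a, rfl⟩
  -- choose `N`
  have hev := (Metric.tendsto_nhds.1 (PX_tendsto (T (io (x k)))) (δ / 10) (by positivity)).and
    (eventually_ge_atTop (hi k))
  obtain ⟨N, hN1, hN2⟩ := hev.exists
  set w : X := T (io (x k)) with hw
  set R : ℝ := 1 + ‖PX N w‖ + C with hR
  have hR0 : 0 < R := by positivity
  set ε' : ℝ := min ε (δ / 100) / R with hε'
  have hmin : 0 < min ε (δ / 100) := lt_min hε (by positivity)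
  have hε'0 : 0 < ε' := div_pos hmin hR0
  have hε'R : ε' * R = min ε (δ / 100) := by
    rw [hε']
    exact div_mul_cancel₀ _ hR0.ne'
  obtain ⟨b, hb1, hb2, hb3⟩ := fun_rat f hf1 N hε'0
  obtain ⟨B, hLB⟩ := MainL_LB hb1 N
  refine ⟨N, b, hb1, hb2, ?_, ?_⟩
  · intro a ha
    have hsup : Sup 0 N (M a (x k)) := by
      have h1 : Sup (lo k) (hi k) (M a (x k)) := Sup_Mult (Mult_M ha) (hRI.blk k).supp
      intro i j hi'
      exact h1 i j (by omega)
    have h1 := hb3 _ hsup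
    rw [hf0, zero_div, sub_zero] at h1
    refine h1.trans ?_
    have h3 : ‖io (M a (x k))‖ ≤ R := by
      have h4 : ‖io (M a (x k))‖ ≤ C :=
        (norm_io_le (Fs_M a hxF)).2 (NB_M (hRI.blk k).nb ha)
      have n1 := norm_nonneg (PX N w)
      rw [hR]
      linarith
    calc ε' * ‖io (M a (x k))‖ ≤ ε' * R := mul_le_mul_of_nonneg_left h3 hε'0.le
      _ ≤ ε := by rw [hε'R]; exact min_le_left _ _
  · obtain ⟨v, hv1, hv2⟩ := PX_mem w N
    have h1 := hb3 v hv1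
    have h2 : bfX N b w = bf S0 N b v := by
      rw [← bfX_PX w hLB le_rfl, hv2, bfX_io (Fs_of_Sup hv1) hLB]
    have h3 : ε' * ‖io v‖ ≤ δ / 100 := by
      have h4 : ‖io v‖ ≤ R := by
        rw [hR, ← hv2]
        linarith
      calc ε' * ‖io v‖ ≤ ε' * R := mul_le_mul_of_nonneg_left h4 hε'0.le
        _ ≤ δ / 100 := by rw [hε'R]; exact min_le_right _ _
    have h6 : ‖f w - f (io v)‖ ≤ δ / 10 := by
      rw [← hv2, ← map_sub]
      have h7 : ‖f (w - PX N w)‖ ≤ 1 * ‖w - PX N w‖ := f.le_of_opNorm_le hf1 _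
      rw [dist_comm, dist_eq_norm] at hN1
      linarith
    have h8 := (Complex.abs_re_le_norm _).trans h6
    have h9 := (Complex.abs_re_le_norm _).trans (h1.trans h3)
    rw [Complex.sub_re] at h8 h9
    have h10 : (f (io v) / 4).re = (f (io v)).re / 4 := by
      have h11 : (4 : ℂ) = ((4 : ℝ) : ℂ) := by push_cast; rfl
      rw [h11, Complex.div_ofReal_re]
    rw [h10] at h9
    rw [h2]
    have h12 := (abs_le.1 h8).2
    have h13 := (abs_le.1 h9).1
    linarith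

/-- `no_bad`, `bad_of`; choose `a k` with norm at most the infimum plus `1 / (k + 1)` -/
theorem mainL (T : X →L[ℂ] X) {C : ℝ} {x : ℕ → W} (hx : RIS C x) :
    ∃ a : ℕ → ℕ → ℂ, Tendsto (fun k => T (io (x k)) - io (M (a k) (x k))) atTop (𝓝 0) := by
  set d : ℕ → (ℕ → ℂ) → ℝ := fun k a => ‖T (io (x k)) - io (M a (x k))‖ with hd
  have hbdd : ∀ k, BddBelow (Set.range (d k)) := fun k =>
    ⟨0, by rintro _ ⟨a, rfl⟩; exact norm_nonneg _⟩
  have hch : ∀ k : ℕ, ∃ a : ℕ → ℂ, d k a < (⨅ a, d k a) + 1 / ((k : ℝ) + 1) := by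
    intro k
    refine exists_lt_of_ciInf_lt ?_
    have h1 : (0 : ℝ) < 1 / ((k : ℝ) + 1) := by positivity
    linarith
  choose a ha using hch
  refine ⟨a, ?_⟩
  rw [tendsto_zero_iff_norm_tendsto_zero]
  by_contra hcon
  -- the infimum does not tend to zero
  have hI : ¬ Tendsto (fun k => ⨅ a, d k a) atTop (𝓝 0) := by
    intro hI
    apply hcon
    have h1 : Tendsto (fun k : ℕ => (⨅ a, d k a) + 1 / ((k : ℝ) + 1)) atTop (𝓝 0) := by
      have h2 := hI.add (tendsto_one_div_add_atTop_nhds_zero_nat (𝕜 := ℝ))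
      rwa [add_zero] at h2
    exact squeeze_zero (fun k => norm_nonneg _) (fun k => (ha k).le) h1
  rw [Metric.tendsto_nhds] at hI
  push Not at hI
  obtain ⟨δ, hδ, hfr⟩ := hI
  refine no_bad hx (show 0 < δ / 50 by positivity) (bad_of (T := T) hx hδ ?_)
  refine hfr.mono fun k hk b => ?_
  rw [Real.dist_eq, sub_zero] at hk
  have h0 : 0 ≤ ⨅ a, d k a := Real.iInf_nonneg fun a => norm_nonneg _
  rw [abs_of_nonneg h0] at hk
  exact hk.trans (ciInf_le (hbdd k) b)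

end Pool.Agent.W8d7136b
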