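import Pool.Agent.W_MP_8d7136_h58b.XOps
import Pool.Agent.W_MP_8d7136_h58b.AvgL

set_option autoImplicit false

/-!
Infinite rapidly increasing sequences.  Port of `Pool.Agent.W_MP_8d7136_h58.RISi` and `Weak`.
-/

open Filter Topology

namespace Pool.Agent.W8d7136b

open Pool.Agent.W8d7136 (mm tt nn code wt)

/-- infinite rapidly increasing sequences with given supports and weights -/
structure RI (C : ℝ) (lo hi J : ℕ → ℕ) (x : ℕ → W) : Prop where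
  blk : ∀ k, Blk S0 C (lo k) (hi k) (J k) (x k)
  lohi : ∀ k, lo k < hi k
  hilo : ∀ k, hi k ≤ lo (k + 1)
  hiJ : ∀ k, hi k ≤ J (k + 1)

/-- rapidly increasing sequences -/
def RIS (C : ℝ) (x : ℕ → W) : Prop := ∃ lo hi J : ℕ → ℕ, RI C lo hi J x

variable {C : ℝ} {lo hi J : ℕ → ℕ} {x : ℕ → W}

theorem RI.risf (h : RI C lo hi J x) (K : ℕ) : RISf S0 C K lo hi J x :=
  ⟨fun k _ => h.blk k, fun k _ => h.lohi k, fun k _ => h.hilo k, fun k _ => h.hiJ k⟩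

theorem RI.lo_strictMono (h : RI C lo hi J x) : StrictMono lo :=
  strictMono_nat_of_lt_succ fun k => (h.lohi k).trans_le (h.hilo k)

theorem RI.hi_le (h : RI C lo hi J x) {k l : ℕ} (hkl : k < l) : hi k ≤ lo l ∧ hi k ≤ J l := by
  have h1 : ∀ {a b : ℕ}, a < b → hi a ≤ lo b := fun {a b} hab =>
    (h.hilo a).trans (h.lo_strictMono.monotone hab)
  refine ⟨h1 hkl, ?_⟩
  obtain ⟨l', rfl⟩ : ∃ l', l = l' + 1 := ⟨l - 1, by omega⟩
  rcases Nat.lt_or_eq_of_le (Nat.lt_succ_iff.1 hkl) with h2 | h2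
  · exact (h1 h2).trans ((h.lohi l').le.trans (h.hiJ l'))
  · rw [h2]
    exact h.hiJ l'

theorem RI.mem (h : RI C lo hi J x) (k : ℕ) : x k ∈ Fs := Fs_of_Sup (h.blk k).supp

theorem RIS.mem (h : RIS C x) (k : ℕ) : x k ∈ Fs := by
  obtain ⟨lo, hi, J, h⟩ := h
  exact h.mem k

theorem RIS.nb (h : RIS C x) (k : ℕ) : ‖io (x k)‖ ≤ C := by
  have hm := h.mem k
  obtain ⟨lo, hi, J, h⟩ := h
  exact (norm_io_le hm).2 (h.blk k).nb

theorem RIS.nonneg (h : RIS C x) : 0 ≤ C := (norm_nonneg _).trans (h.nb 0)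

theorem RISi_blk_mono {lo hi J : ℕ} {v : W} {C C' : ℝ} (h : Blk S0 C lo hi J v) (hC : C ≤ C') :
    Blk S0 C' lo hi J v :=
  ⟨h.supp, NB_mono h.nb hC, fun j hj => WB_mono (h.wb j hj) hC⟩

theorem RIS.mono (h : RIS C x) {C' : ℝ} (hC : C ≤ C') : RIS C' x := by
  obtain ⟨lo, hi, J, h⟩ := h
  exact ⟨lo, hi, J, fun k => RISi_blk_mono (h.blk k) hC, h.lohi, h.hilo, h.hiJ⟩

theorem RI.sub (h : RI C lo hi J x) {φ : ℕ → ℕ} (hφ : StrictMono φ) :
    RI C (fun k => lo (φ k)) (fun k => hi (φ k)) (fun k => J (φ k)) (fun k => x (φ k)) :=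
  ⟨fun k => h.blk (φ k), fun k => h.lohi (φ k), fun k => (h.hi_le (hφ (Nat.lt_succ_self k))).1,
    fun k => (h.hi_le (hφ (Nat.lt_succ_self k))).2⟩

/-- subsequences -/
theorem RIS.sub (h : RIS C x) {φ : ℕ → ℕ} (hφ : StrictMono φ) : RIS C (fun k => x (φ k)) := by
  obtain ⟨lo, hi, J, h⟩ := h
  exact ⟨_, _, _, h.sub hφ⟩

/-- finite pieces of subsequences -/
theorem RI.subf (h : RI C lo hi J x) {φ : ℕ → ℕ} {K : ℕ} (hφ : ∀ k, k + 1 < K → φ k < φ (k + 1)) :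
    RISf S0 C K (fun k => lo (φ k)) (fun k => hi (φ k)) (fun k => J (φ k))
      (fun k => x (φ k)) :=
  ⟨fun k _ => h.blk (φ k), fun k _ => h.lohi (φ k), fun k hk => (h.hi_le (hφ k hk)).1,
    fun k hk => (h.hi_le (hφ k hk)).2⟩

/-- scalar multiples -/
theorem RIS.smul (h : RIS C x) {a : ℕ → ℂ} (ha : ∀ k, ‖a k‖ ≤ 1) :
    RIS C (fun k => a k • x k) := by
  have hC := h.nonneg
  obtain ⟨lo, hi, J, h⟩ := h
  refine ⟨lo, hi, J, fun k => ?_, h.lohi, h.hilo, h.hiJ⟩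
  have h1 := h.blk k
  have h3 : ‖a k‖ * C ≤ C := mul_le_of_le_one_left hC (ha k)
  refine ⟨fun i c hi' => ?_, ?_, fun j hj => ?_⟩
  · show a k * x k i c = 0
    rw [h1.supp i c hi', mul_zero]
  · exact NB_mono (NB_smul h1.nb (a k)) h3
  · exact WB_mono (WB_smul (h1.wb j hj) (a k)) h3

/-- finite parts disappear -/
theorem RIS.PX_zero (h : RIS C x) (N : ℕ) : ∀ᶠ k in atTop, P N (x k) = 0 := by
  obtain ⟨lo, hi, J, h⟩ := h
  filter_upwards [eventually_ge_atTop N] with k hk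
  have h1 : k ≤ lo k := h.lo_strictMono.le_apply
  funext i c
  rw [Bd_P_apply]
  split_ifs with hi'
  · exact (h.blk k).supp i c (Or.inl (by omega))
  · rfl

/-- rapidly increasing sequences are weakly null: see the old `ris_weak` -/
theorem ris_weak (hx : RIS C x) (f : X →L[ℂ] ℂ) :
    Tendsto (fun k => f (io (x k))) atTop (𝓝 0) := by
  by_contra hcon
  -- a subsequence on which `f` is bounded below
  have h1 : ∃ δ > 0, ∃ᶠ k in atTop, δ ≤ ‖f (io (x k))‖ := by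
    by_contra h
    push Not at h
    apply hcon
    rw [Metric.tendsto_nhds]
    intro δ hδ
    filter_upwards [h δ hδ] with k hk
    rw [dist_zero_right]
    exact hk
  obtain ⟨δ, hδ, hfreq⟩ := h1
  obtain ⟨φ, hφ, hφδ⟩ := extraction_of_frequently_atTop hfreq
  -- multiply by phases
  obtain ⟨a, ha⟩ : ∃ a : ℕ → ℂ, ∀ k, a k = (starRingEnd ℂ) (f (io (x (φ k)))) /
      (‖f (io (x (φ k)))‖ : ℂ) := ⟨_, fun _ => rfl⟩
  have hne : ∀ k, (‖f (io (x (φ k)))‖ : ℂ) ≠ 0 := by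
    intro k h
    have h2 : ‖f (io (x (φ k)))‖ = 0 := by exact_mod_cast h
    have := hφδ k
    linarith
  have ha1 : ∀ k, ‖a k‖ ≤ 1 := by
    intro k
    rw [ha, norm_div, RCLike.norm_conj, Complex.norm_real, norm_norm]
    exact div_self_le_one _
  have hy := (hx.sub hφ).smul ha1
  have hfy : ∀ k, f (io (a k • x (φ k))) = (‖f (io (x (φ k)))‖ : ℂ) := by
    intro k
    rw [map_smul, map_smul, smul_eq_mul, ha, div_mul_eq_mul_div, div_eq_iff (hne k),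
      mul_comm ((starRingEnd ℂ) _), Complex.mul_conj, Complex.normSq_eq_norm_sq]
    push_cast
    ring
  have hC : 0 ≤ C := hx.nonneg
  obtain ⟨lo, hi, J, hRI⟩ := hy
  -- choose a large weight
  obtain ⟨j, hj⟩ := exists_nat_gt (‖f‖ * (10 ^ 10 * C) / δ)
  have hav := avg hS0 hC (J := j + 1) (by omega) (hRI.risf (nn (j + 1)))
  have hblk := Blk_of_Avg hav
  have hmem := Fs_of_Sup hblk.supp
  have hnorm := (norm_io_le hmem).2 hblk.nb
  have hN : (0 : ℝ) < nn (j + 1) := by exact_mod_cast Pool.Agent.W8d7136.nn_pos (j + 1)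
  have hM : (0 : ℝ) < mm (j + 1) := Pool.Agent.W8d7136.Par_mm_pos (j + 1)
  have hval : f (io (((mm (j + 1) : ℂ) / (nn (j + 1) : ℂ)) •
      ∑ k ∈ Finset.range (nn (j + 1)), a k • x (φ k))) =
      (((mm (j + 1) : ℝ) / (nn (j + 1) : ℝ) *
        ∑ k ∈ Finset.range (nn (j + 1)), ‖f (io (x (φ k)))‖ : ℝ) : ℂ) := by
    rw [map_smul, map_smul, map_sum, map_sum, smul_eq_mul, Finset.sum_congr rfl fun k _ => hfy k]
    push_cast
    rfl
  have hlow : (mm (j + 1) : ℝ) * δ ≤ (mm (j + 1) : ℝ) / (nn (j + 1) : ℝ) *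
      ∑ k ∈ Finset.range (nn (j + 1)), ‖f (io (x (φ k)))‖ := by
    have h2 : (nn (j + 1) : ℝ) * δ ≤ ∑ k ∈ Finset.range (nn (j + 1)), ‖f (io (x (φ k)))‖ := by
      have h3 := Finset.card_nsmul_le_sum (Finset.range (nn (j + 1)))
        (fun k => ‖f (io (x (φ k)))‖) δ (fun k _ => hφδ k)
      rwa [Finset.card_range, nsmul_eq_mul] at h3
    have h3 := mul_le_mul_of_nonneg_left h2 (by positivity :
      (0 : ℝ) ≤ (mm (j + 1) : ℝ) / (nn (j + 1) : ℝ))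
    have h4 : (mm (j + 1) : ℝ) / (nn (j + 1) : ℝ) * ((nn (j + 1) : ℝ) * δ) =
        (mm (j + 1) : ℝ) * δ := by field_simp
    rwa [h4] at h3
  have hup : (mm (j + 1) : ℝ) / (nn (j + 1) : ℝ) *
      ∑ k ∈ Finset.range (nn (j + 1)), ‖f (io (x (φ k)))‖ ≤ ‖f‖ * (10 ^ 10 * C) := by
    have h2 := f.le_opNorm (io (((mm (j + 1) : ℂ) / (nn (j + 1) : ℂ)) •
      ∑ k ∈ Finset.range (nn (j + 1)), a k • x (φ k)))
    rw [hval, Complex.norm_real, Real.norm_eq_abs] at h2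
    exact (le_abs_self _).trans (h2.trans (mul_le_mul_of_nonneg_left hnorm (norm_nonneg _)))
  have hjm : ((j + 1 : ℕ) : ℝ) < mm (j + 1) := by exact_mod_cast Pool.Agent.W8d7136.lt_mm (j + 1)
  rw [div_lt_iff₀ hδ] at hj
  push_cast at hjm
  nlinarith

/-- (`PX_tendsto_zero`, `ris_weak` for `f ∘ T`) -/
theorem ris_PX (hx : RIS C x) (T : X →L[ℂ] X) (N : ℕ) :
    Tendsto (fun k => PX N (T (io (x k)))) atTop (𝓝 0) :=
  PX_tendsto_zero (fun f => ris_weak hx (f.comp T)) N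

end Pool.Agent.W8d7136b
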