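import Pool.Agent.W_MP_8d7136_h58b.ChainF
import Pool.Agent.W_MP_8d7136_h58b.RISi
import Pool.Agent.W_MP_8d7136_h58b.Dep2

set_option autoImplicit false

/-!
The bad situation does not occur.  Port of `Pool.Agent.W_MP_8d7136_h58.Even` and `NoBad`.
-/

open Filter Topology

namespace Pool.Agent.W8d7136b

open Pool.Agent.W8d7136 (mm tt nn code wt)

/-- the bad situation: there are functionals almost annihilating all `M a x_k` but not `T x_k` -/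
def Bad (T : X →L[ℂ] X) (δ : ℝ) (x : ℕ → W) : Prop :=
  ∀ ε : ℝ, 0 < ε → ∀ k₀ : ℕ, ∃ k, k₀ ≤ k ∧ ∃ (N : ℕ) (b : ℕ → ℕ → ℂ),
    RatB b ∧ (∀ i, N ≤ i → ∀ k', b i k' = 0) ∧
      (∀ a, U a → ‖bf S0 N b (M a (x k))‖ ≤ ε) ∧ δ ≤ (bfX N b (T (io (x k)))).re

theorem Avg_mono {C : ℝ} {lo hi lo' hi' J : ℕ} {y : W} (h : Avg S0 C lo hi J y) (h1 : lo' ≤ lo)
    (h2 : hi ≤ hi') : Avg S0 C lo' hi' J y := by
  exact ⟨fun i k h3 => h.supp i k (by omega), h.nb, h.lt, h.gt, h.co⟩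

/-- one step of the chain -/
theorem Even_stp {C : ℝ} {lo hi Jx : ℕ → ℕ} {x : ℕ → W} (hx : RI C lo hi Jx x)
    {T : X →L[ℂ] X} {δ : ℝ} (hB : Bad T δ x) {J : ℕ} (hJ : Even J)
    {t : ℕ} (ht : t < nn J) {q : ℕ}
    (hd : 0 < t → ∃ d, S0.D q = some d ∧ d.j = J ∧ d.age = t) {ε : ℝ} (hε : 0 < ε) :
    ∃ (N : ℕ) (b : ℕ → ℕ → ℂ) (v : W), Stp T δ ε q N b v ∧
      (∃ k, v = x k ∧ q < lo k ∧ hi k ≤ N) ∧
      ∀ m, ∃ n, m ≤ n ∧ q < n ∧ S0.D n = some ⟨decide (t ≠ 0), q, J, b, t + 1⟩ := by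
  have h1 : ∀ᶠ k in atTop, ‖PX (q + 1) (T (io (x k)))‖ < ε := by
    have h2 := (ris_PX (⟨lo, hi, Jx, hx⟩ : RIS C x) T (q + 1)).norm
    rw [norm_zero] at h2
    exact h2.eventually_lt_const hε
  have h2 : ∀ᶠ k in atTop, q < lo k := by
    filter_upwards [eventually_gt_atTop q] with k hk
    exact lt_of_lt_of_le hk (hx.lo_strictMono.le_apply)
  obtain ⟨k₀, hk₀⟩ := eventually_atTop.1 (h1.and h2)
  obtain ⟨k, hk, N, b, hb, hbN, hs, hbig⟩ := hB ε hε k₀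
  obtain ⟨hk1, hk2⟩ := hk₀ k hk
  have hbN' : ∀ i, max N (hi k) ≤ i → ∀ c, b i c = 0 := fun i h c =>
    hbN i (le_trans (le_max_left _ _) h) c
  refine ⟨max N (hi k), b, x k, ⟨?_, hbN', ?_, ?_, hk1.le⟩, ⟨k, rfl, hk2, le_max_right _ _⟩, ?_⟩
  · intro i c h
    refine (hx.blk k).supp i c ?_
    rcases h with h | h | h
    · left; omega
    · right; left; exact le_trans (le_max_right _ _) h
    · right; right; exact h
  · intro a ha
    rw [bf_eq (le_max_left N (hi k)) hbN]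
    exact hs a ha
  · rw [bfX_eq _ (le_max_left N (hi k)) hbN]
    exact hbig
  · intro m
    rcases Nat.eq_zero_or_pos t with h0 | h0
    · subst h0
      obtain ⟨n, a1, a2, a4⟩ := hS0.rich0e q J m b hJ hb
      exact ⟨n, a1, a2, by rw [a4]; rfl⟩
    · obtain ⟨d, e1, e2, e3⟩ := hd h0
      obtain ⟨n, a1, a2, a4⟩ := hS0.rich1e q J m b d hJ hb e1 e2 (by rw [e3]; exact ht)
      refine ⟨n, a1, a2, ?_⟩
      rw [a4, e3]
      have : decide (t ≠ 0) = true := by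
        rw [decide_eq_true_eq]; omega
      rw [this]

/-- see the old `even_step` -/
theorem even_step {C : ℝ} {lo hi Jx : ℕ → ℕ} {x : ℕ → W} (hx : RI C lo hi Jx x)
    {T : X →L[ℂ] X} {δ : ℝ} (hB : Bad T δ x) (q : ℕ)
    {J : ℕ} (hJ : Even J) (hJ1 : 1 ≤ J) {ε : ℝ} (hε : 0 < ε) :
    ∃ (y : W) (η : ℕ), q + 1 < η ∧ Wt S0 η J ∧
      Avg S0 (10 ^ 10 * C) (q + 1) η J y ∧ (∀ a, U a → ‖e S0 η (M a y)‖ ≤ ε) ∧
      δ - ε ≤ (eX η (T (io y))).re ∧ ‖PX (q + 1) (T (io y))‖ ≤ ε := by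
  have hM : (0 : ℝ) < mm J := Pool.Agent.W8d7136.Par_mm_pos J
  have hN : (0 : ℝ) < nn J := by exact_mod_cast Pool.Agent.W8d7136.nn_pos J
  have hNpos : 0 < nn J := Pool.Agent.W8d7136.nn_pos J
  have hC : 0 ≤ C := RIS.nonneg (⟨lo, hi, Jx, hx⟩ : RIS C x)
  obtain ⟨q', N, b, v, hq0, hch, hall⟩ := chain_build (j := J) (L := nn J) hNpos T
    (δ := δ) (ε := ε / mm J) (by positivity) q
    (fun _ q N _ v => ∃ k, v = x k ∧ q < lo k ∧ hi k ≤ N)
    (fun t ht q _ hd ε' hε' => Even_stp hx hB hJ ht hd hε')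
  -- the subsequence
  obtain ⟨κ, hκ⟩ : ∃ κ : ℕ → ℕ, ∀ t, t < nn J →
      v t = x (κ t) ∧ q' t < lo (κ t) ∧ hi (κ t) ≤ N t := by
    have h1 : ∀ t, ∃ k, t < nn J → v t = x k ∧ q' t < lo k ∧ hi k ≤ N t := by
      intro t
      by_cases ht : t < nn J
      · obtain ⟨k, hk⟩ := (hall t ht).2.1
        exact ⟨k, fun _ => hk⟩
      · exact ⟨0, fun h => absurd h ht⟩
    choose κ hκ using h1
    exact ⟨κ, hκ⟩
  have hκlt : ∀ k, k + 1 < nn J → κ k < κ (k + 1) := by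
    intro k hk
    by_contra hcon
    have h1 := (hκ k (by omega)).2.2
    have h2 := (hκ (k + 1) hk).2.1
    have h3 := (hall k (by omega)).1
    have h4 : lo (κ (k + 1)) ≤ lo (κ k) := hx.lo_strictMono.monotone (by omega)
    have h5 := hx.lohi (κ k)
    omega
  have hav := avg hS0 hC hJ1 (hx.subf hκlt)
  have hy : ∑ k ∈ Finset.range (nn J), x (κ k) = ∑ k ∈ Finset.range (nn J), v k :=
    Finset.sum_congr rfl fun k hk => ((hκ k (Finset.mem_range.1 hk)).1).symm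
  rw [hy] at hav
  have hlast : nn J - 1 < nn J := by omega
  have hlast' : nn J - 1 + 1 = nn J := by omega
  have hη : hi (κ (nn J - 1)) ≤ q' (nn J) := by
    have h1 := (hκ _ hlast).2.2
    have h2 := (hall _ hlast).1
    rw [hlast'] at h2
    omega
  have hlo : q + 1 ≤ lo (κ 0) := by
    have := (hκ 0 hNpos).2.1
    rw [hq0] at this
    omega
  have hlohi : lo (κ 0) ≤ lo (κ (nn J - 1)) := by
    apply hx.lo_strictMono.monotone
    have h1 : ∀ k, k < nn J → κ 0 ≤ κ k := by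
      intro k
      induction k with
      | zero => intro _; exact le_rfl
      | succ k ih =>
        intro hk
        exact (ih (by omega)).trans (hκlt k hk).le
    exact h1 _ hlast
  have hav' := Avg_mono hav hlo hη
  set y : W := ((mm J : ℂ) / (nn J : ℂ)) • ∑ k ∈ Finset.range (nn J), v k with hydef
  have hMN : (mm J : ℝ) / nn J * (nn J * (ε / mm J)) = ε := by field_simp
  have hnorm : ‖((mm J : ℂ) / (nn J : ℂ))‖ = (mm J : ℝ) / nn J := by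
    rw [norm_div, Complex.norm_natCast, Complex.norm_natCast]
  refine ⟨y, q' (nn J), ?_, ?_, hav', ?_, ?_, ?_⟩
  · have := hx.lohi (κ (nn J - 1))
    omega
  · have h1 := hch.dat _ hlast
    rw [hlast'] at h1
    exact ⟨_, h1, rfl⟩
  · intro a ha
    rw [hydef, map_smul, map_smul, map_sum, map_sum, norm_smul, hnorm]
    calc (mm J : ℝ) / nn J * ‖∑ k ∈ Finset.range (nn J), e S0 (q' (nn J)) (M a (v k))‖
        ≤ (mm J : ℝ) / nn J * (nn J * (ε / mm J)) := by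
          refine mul_le_mul_of_nonneg_left ?_ (by positivity)
          refine (norm_sum_le _ _).trans ?_
          refine (Finset.sum_le_card_nsmul _ _ (ε / mm J) fun k hk => ?_).trans ?_
          · exact (hall k (Finset.mem_range.1 hk)).2.2.2.1 a ha
          · rw [Finset.card_range, nsmul_eq_mul]
      _ = ε := hMN
  · have h1 : eX (q' (nn J)) (T (io y)) = (((mm J : ℝ) / (nn J : ℝ) : ℝ) : ℂ) *
        ∑ k ∈ Finset.range (nn J), eX (q' (nn J)) (T (io (v k))) := by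
      rw [hydef, map_smul, map_smul, map_smul, map_sum, map_sum, map_sum, smul_eq_mul]
      push_cast
      rfl
    rw [h1, Complex.re_ofReal_mul, Complex.re_sum]
    have h2 : (nn J : ℝ) * (wt J * (δ - ε / mm J)) ≤
        ∑ k ∈ Finset.range (nn J), (eX (q' (nn J)) (T (io (v k)))).re := by
      have h3 := Finset.card_nsmul_le_sum (Finset.range (nn J))
        (fun k => (eX (q' (nn J)) (T (io (v k)))).re) (wt J * (δ - ε / mm J))
        (fun k hk => (hall k (Finset.mem_range.1 hk)).2.2.2.2.1)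
      rwa [Finset.card_range, nsmul_eq_mul] at h3
    have h4 : (mm J : ℝ) / nn J * (nn J * (wt J * (δ - ε / mm J))) = δ - ε / mm J := by
      rw [wt]
      field_simp
    have h5 : ε / mm J ≤ ε := by
      apply div_le_self hε.le
      exact_mod_cast Nat.one_le_iff_ne_zero.2 (by
        intro h0
        rw [h0, Nat.cast_zero] at hM
        exact lt_irrefl _ hM)
    have h6 := mul_le_mul_of_nonneg_left h2 (by positivity : 0 ≤ (mm J : ℝ) / nn J)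
    rw [h4] at h6
    linarith
  · rw [hydef, map_smul, map_smul, map_smul, map_sum, map_sum, map_sum, norm_smul, hnorm]
    calc (mm J : ℝ) / nn J * ‖∑ k ∈ Finset.range (nn J), PX (q + 1) (T (io (v k)))‖
        ≤ (mm J : ℝ) / nn J * (nn J * (ε / mm J)) := by
          refine mul_le_mul_of_nonneg_left ?_ (by positivity)
          refine (norm_sum_le _ _).trans ?_
          refine (Finset.sum_le_card_nsmul _ _ (ε / mm J) fun k hk => ?_).trans ?_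
          · exact (hall k (Finset.mem_range.1 hk)).2.2.2.2.2
          · rw [Finset.card_range, nsmul_eq_mul]
      _ = ε := hMN

/-- the record kept along the chain -/
structure NoBadR (C : ℝ) (j₀ J₀ : ℕ) (t q N : ℕ) (b : ℕ → ℕ → ℂ) (v : W)
    (η J : ℕ) : Prop where
  hN : N = η + 1
  hb : b = dl η
  lt : q + 1 < η
  wt : Wt S0 η J
  avg : Avg S0 (10 ^ 10 * C) (q + 1) η J v
  small : ∀ a, U a → ‖e S0 η (M a v)‖ ≤ 1 / nn j₀
  J0 : t = 0 → J = J₀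
  J1 : 0 < t → J = code q

/-- one step of the chain -/
theorem NoBad_step {C : ℝ} {lo hi Jx : ℕ → ℕ} {x : ℕ → W} (hx : RI C lo hi Jx x)
    {T : X →L[ℂ] X} {δ : ℝ} (hB : Bad T δ x) {j₀ : ℕ} (hj : Odd j₀)
    {ε : ℝ} (hε : 0 < ε) {J₀ : ℕ} (hJ₀ : nn j₀ ^ 2 ≤ mm J₀) (hJ₀' : J₀ % 4 = 2)
    {t : ℕ} (ht : t < nn j₀) {q : ℕ}
    (hd : 0 < t → ∃ d, S0.D q = some d ∧ d.j = j₀ ∧ d.age = t) {ε' : ℝ} (hε' : 0 < ε') :
    ∃ (N : ℕ) (b : ℕ → ℕ → ℂ) (v : W), Stp T (δ - ε / 2) ε' q N b v ∧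
      (∃ η J, NoBadR C j₀ J₀ t q N b v η J) ∧
      ∀ m, ∃ n, m ≤ n ∧ q < n ∧ S0.D n = some ⟨decide (t ≠ 0), q, j₀, b, t + 1⟩ := by
  have hNpos : (0 : ℝ) < nn j₀ := by exact_mod_cast Pool.Agent.W8d7136.nn_pos j₀
  obtain ⟨J, hJdef⟩ : ∃ J, J = if t = 0 then J₀ else code q := ⟨_, rfl⟩
  have hcm := Pool.Agent.W8d7136.code_mod q
  have hcl := Pool.Agent.W8d7136.lt_code q
  have hJe : Even J := by
    rw [Nat.even_iff, hJdef]
    split_ifs <;> omega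
  have hJ1 : 1 ≤ J := by
    rw [hJdef]
    split_ifs <;> omega
  obtain ⟨ε'', hε''0, hε''1, hε''2, hε''3⟩ : ∃ ε'' : ℝ, 0 < ε'' ∧ ε'' ≤ ε' ∧ ε'' ≤ ε / 2 ∧
      ε'' ≤ 1 / nn j₀ :=
    ⟨min ε' (min (ε / 2) (1 / nn j₀)), lt_min hε' (lt_min (by positivity) (by positivity)),
      min_le_left _ _, (min_le_right _ _).trans (min_le_left _ _),
      (min_le_right _ _).trans (min_le_right _ _)⟩
  obtain ⟨y, η, h1, h3, h4, h6, h7, h8⟩ := even_step hx hB q hJe hJ1 hε''0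
  refine ⟨η + 1, dl η, y, ⟨?_, ?_, ?_, ?_, h8.trans hε''1⟩, ⟨η, J, ⟨rfl, rfl, h1, h3, h4,
    fun a ha => (h6 a ha).trans hε''3, ?_, ?_⟩⟩, ?_⟩
  · intro i c hi'
    exact h4.supp i c (by omega)
  · intro i hi' c
    unfold dl
    rw [if_neg]
    omega
  · intro a ha
    rw [bf_dl (Nat.lt_succ_self η)]
    exact (h6 a ha).trans hε''1
  · rw [bfX_dl _ (Nat.lt_succ_self η)]
    linarith
  · intro h0
    rw [hJdef, if_pos h0]
  · intro h0
    rw [hJdef, if_neg (by omega)]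
  · intro m
    rcases Nat.eq_zero_or_pos t with h0 | h0
    · have hJJ : J = J₀ := by rw [hJdef, if_pos h0]
      subst h0
      rw [hJJ] at h3
      obtain ⟨n, a1, a2, a4⟩ := hS0.rich0o q j₀ m η J₀ hj h3 hJ₀ hJ₀'
      exact ⟨n, a1, a2, by rw [a4]; rfl⟩
    · have hJJ : J = code q := by rw [hJdef, if_neg (by omega)]
      rw [hJJ] at h3
      obtain ⟨d, e1, e2, e3⟩ := hd h0
      obtain ⟨n, a1, a2, a4⟩ := hS0.rich1o q j₀ m η d hj h3 e1 e2 (by rw [e3]; exact ht)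
      refine ⟨n, a1, a2, ?_⟩
      rw [a4, e3]
      have h9 : decide (t ≠ 0) = true := by
        rw [decide_eq_true_eq]
        omega
      rw [h9]

/-- see the old `dep_exists` -/
theorem dep_exists {C : ℝ} (hC : 1 ≤ C) {lo hi Jx : ℕ → ℕ} {x : ℕ → W} (hx : RI C lo hi Jx x)
    {T : X →L[ℂ] X} {δ : ℝ} (hB : Bad T δ x) {j₀ : ℕ} (hj : Odd j₀) {ε : ℝ} (hε : 0 < ε) :
    ∃ (q η J : ℕ → ℕ) (y : ℕ → W), DepS S0 (10 ^ 10 * C) j₀ q η J y ∧
      wt j₀ * (δ - ε) ≤ (eX (q (nn j₀)) (T (io (((1 : ℂ) / (nn j₀ : ℂ)) •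
        ∑ k ∈ Finset.range (nn j₀), y k)))).re := by
  have hNpos : 0 < nn j₀ := Pool.Agent.W8d7136.nn_pos j₀
  have hNpos' : (0 : ℝ) < nn j₀ := by exact_mod_cast hNpos
  obtain ⟨J₀, -, hJ₀', hJ₀⟩ := Pool.Agent.W8d7136.exists_mod 0 (nn j₀ ^ 2)
  obtain ⟨q, N, b, v, -, hch, hall⟩ := chain_build (j := j₀) (L := nn j₀) hNpos T
    (δ := δ - ε / 2) (ε := ε / 2) (by positivity) 0
    (fun t q N b v => ∃ η J, NoBadR C j₀ J₀ t q N b v η J)
    (fun t ht q _ hd ε' hε' => NoBad_step hx hB hj hε hJ₀ hJ₀' ht hd hε')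
  obtain ⟨η, J, hR⟩ : ∃ η J : ℕ → ℕ, ∀ t, t < nn j₀ →
      NoBadR C j₀ J₀ t (q t) (N t) (b t) (v t) (η t) (J t) := by
    have h1 : ∀ t, ∃ p : ℕ × ℕ, t < nn j₀ →
        NoBadR C j₀ J₀ t (q t) (N t) (b t) (v t) p.1 p.2 := by
      intro t
      by_cases ht : t < nn j₀
      · obtain ⟨η, J, h⟩ := (hall t ht).2.1
        exact ⟨(η, J), fun _ => h⟩
      · exact ⟨(0, 0), fun h => absurd h ht⟩
    choose p hp using h1
    exact ⟨fun t => (p t).1, fun t => (p t).2, hp⟩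
  refine ⟨q, η, J, v, ⟨hj, fun l hl => (hR l hl).lt,
    fun l hl => ?_, fun l hl => ?_, fun l hl => (hR l hl).wt, ?_, fun l h0 hl => (hR l hl).J1 h0,
    fun l hl => (hR l hl).small, fun l hl => (hR l hl).avg⟩, ?_⟩
  · have h1 := (hall l hl).1
    have h2 := (hR l hl).hN
    omega
  · rw [hch.dat l hl, (hR l hl).hb]
  · rw [(hR 0 hNpos).J0 rfl]
    exact ⟨hJ₀, hJ₀'⟩
  · have h1 : eX (q (nn j₀)) (T (io (((1 : ℂ) / (nn j₀ : ℂ)) •
        ∑ k ∈ Finset.range (nn j₀), v k))) = (((1 : ℝ) / (nn j₀ : ℝ) : ℝ) : ℂ) *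
        ∑ k ∈ Finset.range (nn j₀), eX (q (nn j₀)) (T (io (v k))) := by
      rw [map_smul, map_smul, map_smul, map_sum, map_sum, map_sum, smul_eq_mul]
      push_cast
      rfl
    rw [h1, Complex.re_ofReal_mul, Complex.re_sum]
    have h2 : (nn j₀ : ℝ) * (wt j₀ * (δ - ε)) ≤
        ∑ k ∈ Finset.range (nn j₀), (eX (q (nn j₀)) (T (io (v k)))).re := by
      have h3 := Finset.card_nsmul_le_sum (Finset.range (nn j₀))
        (fun k => (eX (q (nn j₀)) (T (io (v k)))).re) (wt j₀ * (δ - ε))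
        (fun k hk => by
          have h4 := (hall k (Finset.mem_range.1 hk)).2.2.2.2.1
          have h5 : δ - ε / 2 - ε / 2 = δ - ε := by ring
          rwa [h5] at h4)
      rwa [Finset.card_range, nsmul_eq_mul] at h3
    have h6 := mul_le_mul_of_nonneg_left h2 (by positivity : (0 : ℝ) ≤ 1 / nn j₀)
    have h7 : (1 : ℝ) / nn j₀ * (nn j₀ * (wt j₀ * (δ - ε))) = wt j₀ * (δ - ε) := by
      field_simp
    rwa [h7] at h6

/-- see the old `no_bad` -/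
theorem no_bad {C : ℝ} {x : ℕ → W} (hx : RIS C x) {T : X →L[ℂ] X} {δ : ℝ}
    (hδ : 0 < δ) : ¬ Bad T δ x := by
  intro hB
  obtain ⟨C', hC', hCC'⟩ : ∃ C' : ℝ, 1 ≤ C' ∧ C ≤ C' := ⟨max C 1, le_max_right _ _, le_max_left _ _⟩
  obtain ⟨lo, hi, Jx, hx'⟩ := hx.mono hCC'
  have hM : (0 : ℝ) < 10 ^ 20 * C' * (‖T‖ + 1) := by positivity
  obtain ⟨j₁, hj₁⟩ := Pool.Agent.W8d7136.exists_wt_lt (ε := δ / 4 / (10 ^ 20 * C' * (‖T‖ + 1)))
    (by positivity)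
  obtain ⟨j₀, hj₀, hj₀'⟩ : ∃ j₀, j₁ ≤ j₀ ∧ Odd j₀ := ⟨2 * j₁ + 1, by omega, ⟨j₁, rfl⟩⟩
  have hwt := hj₁ j₀ hj₀
  rw [lt_div_iff₀ hM] at hwt
  have hj1 : 1 ≤ j₀ := by
    obtain ⟨r, hr⟩ := hj₀'
    omega
  obtain ⟨q, η, J, y, hD, hbig⟩ := dep_exists hC' hx' hB hj₀' (ε := δ / 2) (by positivity)
  have hnb := dep_norm hS0 (C := 10 ^ 10 * C') (by linarith) hj1 hD
  have hmem : (((1 : ℂ) / (nn j₀ : ℂ)) • ∑ k ∈ Finset.range (nn j₀), y k) ∈ Fs := by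
    refine Submodule.smul_mem _ _ (Submodule.sum_mem _ fun k hk => ?_)
    exact Fs_of_Sup (hD.avg k (Finset.mem_range.1 hk)).supp
  have hnorm := (norm_io_le hmem).2 hnb
  set w : W := ((1 : ℂ) / (nn j₀ : ℂ)) • ∑ k ∈ Finset.range (nn j₀), y k with hw
  have h1 : (eX (q (nn j₀)) (T (io w))).re ≤ ‖T‖ * ‖io w‖ :=
    (Complex.re_le_norm _).trans ((eX_le _ _).trans (T.le_opNorm _))
  have h2 : ‖T‖ * ‖io w‖ ≤ (‖T‖ + 1) * (10 ^ 10 * (10 ^ 10 * C') * wt j₀ ^ 2) := by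
    have h3 : ‖T‖ * ‖io w‖ ≤ (‖T‖ + 1) * ‖io w‖ :=
      mul_le_mul_of_nonneg_right (by linarith) (norm_nonneg _)
    exact h3.trans (mul_le_mul_of_nonneg_left hnorm (by positivity))
  have hw0 := Pool.Agent.W8d7136.wt_pos j₀
  have h4 : wt j₀ * (δ - δ / 2) ≤ wt j₀ * (wt j₀ * (10 ^ 20 * C' * (‖T‖ + 1))) := by
    have h5 : (‖T‖ + 1) * (10 ^ 10 * (10 ^ 10 * C') * wt j₀ ^ 2) =
        wt j₀ * (wt j₀ * (10 ^ 20 * C' * (‖T‖ + 1))) := by ring
    rw [← h5]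
    exact hbig.trans (h1.trans h2)
  have h6 := le_of_mul_le_mul_left h4 hw0
  linarith

end Pool.Agent.W8d7136b
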