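import Pool.Agent.W_MP_8d7136_h58b.Scal

set_option autoImplicit false

/-!
An operator acts on rapidly increasing sequences by its scalars.
-/

open Filter Topology

namespace Pool.Agent.W8d7136b

open Pool.Agent.W8d7136 (mm tt nn code wt)

theorem RisLam_mem (n : ℕ) (μ : ℕ → ℂ) : us n μ ∈ Fs := Fs_of_Sup (us_Sup n μ)

theorem RisLam_dk (a : ℕ → ℂ) (n k : ℕ) : M a (us n (dk k)) = a k • us n (dk k) := by
  rw [M_us]
  funext i j
  rw [Pi.smul_apply, Pi.smul_apply, smul_eq_mul]
  show (if i = n ∧ j ≤ n then a j * (if j = k then 1 else 0) else 0) =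
    a k * (if i = n ∧ j ≤ n then (if j = k then 1 else 0) else 0)
  by_cases h1 : i = n ∧ j ≤ n
  · rw [if_pos h1, if_pos h1]
    by_cases h2 : j = k
    · rw [if_pos h2, h2]
    · rw [if_neg h2, mul_zero, mul_zero]
  · rw [if_neg h1, if_neg h1, mul_zero]

/-- one component -/
theorem RisLam_one (T : X →L[ℂ] X) (k : ℕ) {ε : ℝ} (hε : 0 < ε) : ∀ᶠ n in atTop,
    S0.D n = none → ‖T (io (us n (dk k))) - lam T k • io (us n (dk k))‖ ≤ ε := by
  by_contra hcon
  rw [Filter.not_eventually] at hcon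
  obtain ⟨φ, hφ, hφ'⟩ := extraction_of_frequently_atTop hcon
  have h1 : ∀ i, S0.D (φ i) = none ∧
      ε < ‖T (io (us (φ i) (dk k))) - lam T k • io (us (φ i) (dk k))‖ := by
    intro i
    have h2 := hφ' i
    push Not at h2
    exact h2
  have h2 := lam_spec T k hφ (fun i => (h1 i).1)
  obtain ⟨i, hi⟩ := ((Metric.tendsto_nhds.1 h2) ε hε).exists
  rw [dist_zero_right] at hi
  exact absurd (h1 i).2 (not_lt.2 hi.le)

/-- for a fixed `μ` supported in `[0, K)` and seeds `n → ∞` -/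
theorem lam_us (T : X →L[ℂ] X) {μ : ℕ → ℂ} {K : ℕ} (hμ : ∀ k, K ≤ k → μ k = 0) {ε : ℝ}
    (hε : 0 < ε) : ∀ᶠ n in atTop, S0.D n = none →
      ‖T (io (us n μ)) - io (M (lam T) (us n μ))‖ ≤ ε := by
  set R : ℝ := 1 + ∑ k ∈ Finset.range K, ‖μ k‖ with hR
  have hsum : 0 ≤ ∑ k ∈ Finset.range K, ‖μ k‖ := Finset.sum_nonneg fun k _ => norm_nonneg _
  have hR0 : 0 < R := by linarith
  have h1 : ∀ᶠ n in atTop, ∀ k ∈ Finset.range K, S0.D n = none →
      ‖T (io (us n (dk k))) - lam T k • io (us n (dk k))‖ ≤ ε / R := by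
    rw [Finset.eventually_all]
    intro k _
    exact RisLam_one T k (div_pos hε hR0)
  filter_upwards [h1, eventually_ge_atTop K] with n hn hK hs
  have h2 : us n μ = ∑ k ∈ Finset.range K, μ k • us n (dk k) := by
    rw [us_sum n μ]
    symm
    refine Finset.sum_subset (Finset.range_mono (by omega)) fun k _ hk => ?_
    rw [Finset.mem_range, not_lt] at hk
    rw [hμ k hk, zero_smul]
  have h3 : T (io (us n μ)) - io (M (lam T) (us n μ)) =
      ∑ k ∈ Finset.range K, μ k • (T (io (us n (dk k))) - lam T k • io (us n (dk k))) := by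
    rw [h2]
    simp only [map_sum, map_smul, RisLam_dk]
    rw [← Finset.sum_sub_distrib]
    refine Finset.sum_congr rfl fun k _ => ?_
    rw [smul_sub]
  rw [h3]
  calc ‖∑ k ∈ Finset.range K, μ k • (T (io (us n (dk k))) - lam T k • io (us n (dk k)))‖
      ≤ ∑ k ∈ Finset.range K, ‖μ k • (T (io (us n (dk k))) - lam T k • io (us n (dk k)))‖ :=
        norm_sum_le _ _
    _ ≤ ∑ k ∈ Finset.range K, ‖μ k‖ * (ε / R) := by
        refine Finset.sum_le_sum fun k hk => ?_
        rw [norm_smul]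
        exact mul_le_mul_of_nonneg_left (hn k hk hs) (norm_nonneg _)
    _ = (∑ k ∈ Finset.range K, ‖μ k‖) * (ε / R) := by rw [Finset.sum_mul]
    _ ≤ R * (ε / R) := mul_le_mul_of_nonneg_right (by linarith) (div_pos hε hR0).le
    _ = ε := mul_div_cancel₀ _ hR0.ne'

/-- the components of a functional on a product -/
theorem RisLam_comp (a : ℕ → ℂ) (m k : ℕ) (v : W) :
    e S0 m (M (dk k) (M a v)) = a k * e S0 m (M (dk k) v) := by
  have h1 : M (dk k) (M a v) = a k • M (dk k) v := by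
    funext i j
    rw [Pi.smul_apply, Pi.smul_apply, smul_eq_mul, M_apply, M_apply, M_apply]
    unfold dk
    split_ifs with h
    · rw [h]
      ring
    · ring
  rw [h1, map_smul, smul_eq_mul]

/-- the `ℓ₁` norm of the components is bounded by the norm -/
theorem RisLam_l1 {v : W} (hv : v ∈ Fs) (m : ℕ) :
    ∑ k ∈ Finset.range (m + 1), ‖e S0 m (M (dk k) v)‖ ≤ ‖io v‖ := by
  obtain ⟨a, ha, he⟩ := exists_phase hS0 m v
  have h1 := (norm_io_le hv).1 le_rfl m a ha
  rw [he, Complex.norm_real, Real.norm_eq_abs] at h1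
  exact (le_abs_self _).trans h1

theorem RisLam_x {v : W} (hv : v ∈ Fs) (a : ℕ → ℂ) (m : ℕ) :
    ∑ k ∈ Finset.range (m + 1), ‖a k‖ * ‖e S0 m (M (dk k) v)‖ ≤ ‖io (M a v)‖ := by
  refine le_trans (le_of_eq ?_) (RisLam_l1 (Fs_M a hv) m)
  refine Finset.sum_congr rfl fun k _ => ?_
  rw [RisLam_comp, norm_mul]

theorem RisLam_u {n : ℕ} (hn : S0.D n = none) (ν : ℕ → ℂ) {m : ℕ} (hm : m ≤ n) :
    ∑ k ∈ Finset.range (m + 1), ‖ν k‖ ≤ ‖io (us n ν)‖ := by
  refine le_trans ?_ (RisLam_l1 (RisLam_mem n ν) n)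
  have h1 : ∀ k ∈ Finset.range (n + 1), ‖e S0 n (M (dk k) (us n ν))‖ = ‖ν k‖ := by
    intro k hk
    rw [M_us, ← eX_io (RisLam_mem _ _), us_eX hn, Finset.sum_eq_single k]
    · unfold dk
      rw [if_pos rfl, one_mul]
    · intro j _ hj
      unfold dk
      rw [if_neg hj, zero_mul]
    · intro h
      exact absurd hk h
  rw [Finset.sum_congr rfl h1]
  exact Finset.sum_le_sum_of_subset_of_nonneg (Finset.range_mono (by omega))
    fun k _ _ => norm_nonneg _

/-- a functional witnessing a lower bound of the norm -/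
theorem RisLam_wit {v : W} (hv : v ∈ Fs) {a : ℕ → ℂ} {δ : ℝ} (h : δ < ‖io (M a v)‖) :
    ∃ m, δ < ∑ k ∈ Finset.range (m + 1), ‖a k‖ * ‖e S0 m (M (dk k) v)‖ := by
  by_contra hcon
  push Not at hcon
  refine absurd ((norm_io_le (Fs_M a hv)).2 fun m θ hθ => ?_) (not_le.2 h)
  rw [e_M_eq hS0]
  refine (norm_sum_le _ _).trans (le_trans (Finset.sum_le_sum fun k _ => ?_) (hcon m))
  rw [norm_mul, RisLam_comp, norm_mul]
  exact mul_le_of_le_one_left (mul_nonneg (norm_nonneg _) (norm_nonneg _)) (hθ k)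
/-- The operator acts on all rapidly increasing sequences as multiplication by `lam T`.  Otherwise
`‖T x_j - M (lam T) x_j‖ ≥ δ` frequently.  `mainL`: `T x_j = M (b j) x_j + o(1)`, so frequently there are `m_j`
and `θ_j` (`U θ_j`) with `|e_{m_j} (M θ_j (b j - lam T) x_j)| ≥ δ / 2`.  Put
`μ_j k = e_{m_j} (M (dk k) x_j)` for `k ≤ m_j` (`ℓ₁` norm at most `C` by `exists_phase`).  `pair_RIS` with
`B j n := m_j < n ∧ (S0.D n = none → ‖T u - M (lam T) u‖ ≤ 1 / (j + 1))`, `u = us n (μ j)` (`lam_us`).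
`mainL` for `x + u`: `M (b) x + M (lam T) u - M c x - M c u → 0`.  Apply `PX (n i)`: `M (b - c) x → 0`, then also
`M (lam T - c) u → 0`.  By `exists_phase` for `e_{m_j}`: `∑_k |b k - c k| |μ k| → 0`, and by the norm of `u`
(`eX (n i) (MX θ ·)`, `us_eX`) `∑_k |lam T k - c k| |μ k| → 0`.  So `∑_k |b k - lam T k| |μ k| → 0`,
contradiction. -/
theorem ris_lam (T : X →L[ℂ] X) {C : ℝ} {x : ℕ → W} (hx : RIS C x) :
    Tendsto (fun j => T (io (x j)) - io (M (lam T) (x j))) atTop (𝓝 0) := by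
  classical
  have hmem : ∀ j, x j ∈ Fs := fun j => RIS.mem hx j
  obtain ⟨b, hb⟩ := mainL T hx
  by_contra hcon
  rw [Metric.tendsto_nhds] at hcon
  push Not at hcon
  obtain ⟨δ, hδ, hfr⟩ := hcon
  -- the witnesses
  set Φ : ℕ → ℕ → ℝ := fun j m => ∑ k ∈ Finset.range (m + 1),
    ‖b j k - lam T k‖ * ‖e S0 m (M (dk k) (x j))‖ with hΦ
  have hA : ∃ᶠ j in atTop, ∃ m, δ / 2 < Φ j m := by
    have h1 := (Metric.tendsto_nhds.1 hb) (δ / 2) (by positivity)
    refine (hfr.and_eventually h1).mono fun j hj => ?_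
    obtain ⟨h2, h3⟩ := hj
    rw [dist_zero_right] at h2 h3
    refine RisLam_wit (hmem j) (a := fun k => b j k - lam T k) ?_
    rw [M_sub, map_sub]
    have h4 : T (io (x j)) - io (M (lam T) (x j)) =
        (T (io (x j)) - io (M (b j) (x j))) + (io (M (b j) (x j)) - io (M (lam T) (x j))) := by
      abel
    have h5 := norm_add_le (T (io (x j)) - io (M (b j) (x j)))
      (io (M (b j) (x j)) - io (M (lam T) (x j)))
    rw [← h4] at h5
    linarith
  set m : ℕ → ℕ := fun j => if h : ∃ m, δ / 2 < Φ j m then h.choose else 0 with hm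
  have hmj : ∀ j, (∃ m, δ / 2 < Φ j m) → δ / 2 < Φ j (m j) := by
    intro j hj
    have h1 : m j = hj.choose := dif_pos hj
    rw [h1]
    exact hj.choose_spec
  set μ : ℕ → ℕ → ℂ := fun j k => if k < m j + 1 then e S0 (m j) (M (dk k) (x j)) else 0 with hμ
  have hμC : ∀ j n, ∑ k ∈ Finset.range n, ‖μ j k‖ ≤ C := by
    intro j n
    have h1 : ∑ k ∈ Finset.range n, ‖μ j k‖ ≤ ∑ k ∈ Finset.range (m j + 1), ‖μ j k‖ := by
      rcases le_total n (m j + 1) with h2 | h2
      · exact Finset.sum_le_sum_of_subset_of_nonneg (Finset.range_mono h2)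
          fun k _ _ => norm_nonneg _
      · refine le_of_eq (Finset.sum_subset (Finset.range_mono h2) fun k _ hk => ?_).symm
        rw [Finset.mem_range] at hk
        rw [hμ]
        simp only [hk, if_false, norm_zero]
    refine h1.trans (le_trans (le_of_eq ?_) ((RisLam_l1 (hmem j) (m j)).trans (RIS.nb hx j)))
    refine Finset.sum_congr rfl fun k hk => ?_
    rw [Finset.mem_range] at hk
    rw [hμ]
    simp only [hk, if_true]
  have hB : ∀ j, ∀ᶠ n in atTop, m j < n ∧ (S0.D n = none →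
      ‖T (io (us n (μ j))) - io (M (lam T) (us n (μ j)))‖ ≤ 1 / ((j : ℝ) + 1)) := by
    intro j
    refine (eventually_gt_atTop (m j)).and (lam_us T (K := m j + 1) (fun k hk => ?_)
      (by positivity))
    rw [hμ]
    simp only [not_lt.2 hk, if_false]
  obtain ⟨φ, n, hφ, -, hs, hAφ, hBφ, hP, hR⟩ := pair_RIS hx hA
    (B := fun j n => m j < n ∧ (S0.D n = none →
      ‖T (io (us n (μ j))) - io (M (lam T) (us n (μ j)))‖ ≤ 1 / ((j : ℝ) + 1))) hB hμC
  obtain ⟨c, hc⟩ := mainL T hR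
  set u : ℕ → W := fun i => us (n i) (μ (φ i)) with hu
  have humem : ∀ i, u i ∈ Fs := fun i => RisLam_mem _ _
  -- the seeds
  have h1 : Tendsto (fun i => T (io (u i)) - io (M (lam T) (u i))) atTop (𝓝 0) := by
    have h2 : ∀ i, ‖T (io (u i)) - io (M (lam T) (u i))‖ ≤ 1 / ((i : ℝ) + 1) := by
      intro i
      refine ((hBφ i).2 (hs i)).trans ?_
      have h3 : (i : ℝ) ≤ φ i := by exact_mod_cast hφ.le_apply
      exact one_div_le_one_div_of_le (by positivity) (by linarith)
    exact squeeze_zero_norm h2 tendsto_one_div_add_atTop_nhds_zero_nat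
  have h2 : Tendsto (fun i => T (io (x (φ i))) - io (M (b (φ i)) (x (φ i)))) atTop (𝓝 0) :=
    hb.comp hφ.tendsto_atTop
  -- combination
  have h3 : Tendsto (fun i => io (M (fun k => b (φ i) k - c i k) (x (φ i))) +
      io (M (fun k => lam T k - c i k) (u i))) atTop (𝓝 0) := by
    have h4 := (hc.sub h2).sub h1
    rw [sub_zero, sub_zero] at h4
    refine h4.congr fun i => ?_
    rw [M_sub, M_sub]
    simp only [map_add, map_sub]
    abel
  have h4 : Tendsto (fun i => io (M (fun k => b (φ i) k - c i k) (x (φ i)))) atTop (𝓝 0) := by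
    have h5 : ∀ i, ‖io (M (fun k => b (φ i) k - c i k) (x (φ i)))‖ ≤
        2 * ‖io (M (fun k => b (φ i) k - c i k) (x (φ i))) +
          io (M (fun k => lam T k - c i k) (u i))‖ := by
      intro i
      refine le_trans (le_of_eq ?_) (PX_le _ (n i))
      congr 1
      have h6 : P (n i) (u i) = 0 := by
        funext a k
        rw [Bd_P_apply]
        split_ifs with h
        · exact us_Sup (n i) (μ (φ i)) a k (Or.inl h)
        · rfl
      rw [map_add, PX_io (Fs_M _ (hmem _)), PX_io (Fs_M _ (humem _)), ← M_P, ← M_P, hP, h6,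
        map_zero, map_zero, add_zero]
    refine squeeze_zero_norm h5 ?_
    have h7 := h3.norm.const_mul 2
    rwa [norm_zero, mul_zero] at h7
  have h5 : Tendsto (fun i => io (M (fun k => lam T k - c i k) (u i))) atTop (𝓝 0) := by
    have h6 := h3.sub h4
    rw [sub_zero] at h6
    refine h6.congr fun i => ?_
    abel
  have h6 : ∀ i, Φ (φ i) (m (φ i)) ≤ ‖io (M (fun k => b (φ i) k - c i k) (x (φ i)))‖ +
      ‖io (M (fun k => lam T k - c i k) (u i))‖ := by
    intro i
    have h7 := RisLam_x (hmem (φ i)) (fun k => b (φ i) k - c i k) (m (φ i))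
    have h8 := RisLam_u (hs i) (fun k => (lam T k - c i k) * μ (φ i) k) (hBφ i).1.le
    rw [← M_us] at h8
    refine le_trans ?_ (add_le_add h7 h8)
    rw [← Finset.sum_add_distrib]
    refine Finset.sum_le_sum fun k hk => ?_
    rw [Finset.mem_range] at hk
    have h9 : μ (φ i) k = e S0 (m (φ i)) (M (dk k) (x (φ i))) := by
      rw [hμ]
      simp only [hk, if_true]
    rw [norm_mul, h9, ← add_mul]
    refine mul_le_mul_of_nonneg_right ?_ (norm_nonneg _)
    have h10 : b (φ i) k - lam T k = (b (φ i) k - c i k) - (lam T k - c i k) := by ring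
    rw [h10]
    exact norm_sub_le _ _
  have h7 : Tendsto (fun i => ‖io (M (fun k => b (φ i) k - c i k) (x (φ i)))‖ +
      ‖io (M (fun k => lam T k - c i k) (u i))‖) atTop (𝓝 0) := by
    have h8 := h4.norm.add h5.norm
    rwa [norm_zero, add_zero] at h8
  obtain ⟨i, hi⟩ := (h7.eventually (gt_mem_nhds (show 0 < δ / 2 by positivity))).exists
  have h8 := hmj (φ i) (hAφ i)
  have h9 := h6 i
  linarith

end Pool.Agent.W8d7136b
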