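import Pool.Agent.W_MP_8d7136_h58b.Seeds

set_option autoImplicit false

/-!
The scalars of an operator on the components.
-/

open Filter Topology

namespace Pool.Agent.W8d7136b

open Pool.Agent.W8d7136 (mm tt nn code wt)

theorem Scal_dk_sum (k n : ℕ) : ∑ i ∈ Finset.range n, ‖dk k i‖ ≤ 1 := by
  have h : ∀ i ∈ Finset.range n, ‖dk k i‖ = if i = k then (1 : ℝ) else 0 := by
    intro i _
    unfold dk
    split_ifs <;> simp
  rw [Finset.sum_congr rfl h, Finset.sum_ite_eq']
  split_ifs <;> norm_num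

theorem Scal_mem (n : ℕ) (μ : ℕ → ℂ) : us n μ ∈ Fs := Fs_of_Sup (us_Sup n μ)

theorem Scal_le {n : ℕ} (hn : S0.D n = none) (k : ℕ) : ‖io (us n (dk k))‖ ≤ 1 :=
  (norm_io_le (Scal_mem n _)).2 (us_NB hn (Scal_dk_sum k _))

theorem Scal_eX {n : ℕ} (hn : S0.D n = none) {k : ℕ} (hk : k ≤ n) :
    eX n (io (us n (dk k))) = 1 := by
  rw [us_eX hn]
  unfold dk
  rw [Finset.sum_ite_eq', if_pos (Finset.mem_range.2 (by omega))]

theorem Scal_norm {n : ℕ} (hn : S0.D n = none) {k : ℕ} (hk : k ≤ n) :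
    ‖io (us n (dk k))‖ = 1 := by
  refine le_antisymm (Scal_le hn k) ?_
  have h := eX_le (io (us n (dk k))) n
  rwa [Scal_eX hn hk, norm_one] at h

theorem Scal_M (a : ℕ → ℂ) (n k : ℕ) : M a (us n (dk k)) = a k • us n (dk k) := by
  rw [M_us]
  funext i j
  change us n (fun k' => a k' * dk k k') i j = a k * us n (dk k) i j
  unfold us dk
  by_cases h : j = k
  · subst h
    by_cases h2 : i = n ∧ j ≤ n <;> simp [h2]
  · simp [h]

theorem Scal_P (n : ℕ) (μ : ℕ → ℂ) : P n (us n μ) = 0 := by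
  funext i k
  rw [Bd_P_apply]
  split_ifs with h
  · exact us_Sup n μ i k (Or.inl h)
  · rfl

theorem Scal_RIS {n : ℕ → ℕ} (hn : StrictMono n) (hs : ∀ i, S0.D (n i) = none) (k : ℕ) :
    RIS 100 (fun i => us (n i) (dk k)) := by
  have h := us_RI hn hs (μ := fun _ => dk k) (C := 1) (fun i => Scal_dk_sum k _)
  rw [mul_one] at h
  exact ⟨_, _, _, h⟩

theorem Scal_pair {p q : ℕ → ℕ} (hpq : ∀ i, p i < q i) (hqp : ∀ i, q i < p (i + 1))
    (hp : ∀ i, S0.D (p i) = none) (hq : ∀ i, S0.D (q i) = none) (k : ℕ) :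
    RIS 200 (fun i => us (p i) (dk k) + us (q i) (dk k)) := by
  refine ⟨p, fun i => q i + 1, p, ⟨fun i => ⟨?_, ?_, ?_⟩, fun i => ?_, fun i => hqp i,
    fun i => hqp i⟩⟩
  · intro j l hj
    have h1 := hpq i
    rw [Pi.add_apply, Pi.add_apply, us_Sup (p i) (dk k) j l (by omega),
      us_Sup (q i) (dk k) j l (by omega), add_zero]
  · have h := NB_add (us_NB (hp i) (Scal_dk_sum k _)) (us_NB (hq i) (Scal_dk_sum k _))
    exact NB_mono h (by norm_num)
  · intro h _ n hn a ha
    rw [map_add, map_add]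
    refine (norm_add_le _ _).trans ?_
    have h1 := us_WB (hp i) (Scal_dk_sum k _) h n hn a ha
    have h2 := us_WB (hq i) (Scal_dk_sum k _) h n hn a ha
    linarith
  · have h1 := hpq i
    show p i < q i + 1
    omega

/-- the main lemma for sequences in one component -/
theorem Scal_main (T : X →L[ℂ] X) {C : ℝ} {x : ℕ → W} (hx : RIS C x) {k : ℕ}
    (hk : ∀ a : ℕ → ℂ, ∀ i, M a (x i) = a k • x i) :
    ∃ ν : ℕ → ℂ, Tendsto (fun i => T (io (x i)) - ν i • io (x i)) atTop (𝓝 0) := by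
  obtain ⟨a, ha⟩ := mainL T hx
  refine ⟨fun i => a i k, ha.congr fun i => ?_⟩
  rw [hk, map_smul]

/-- norms which do not tend to zero are frequently bounded below -/
theorem Scal_freq {v : ℕ → X} (h : ¬ Tendsto v atTop (𝓝 0)) :
    ∃ δ > 0, ∃ᶠ k in atTop, δ ≤ ‖v k‖ := by
  by_contra h'
  push Not at h'
  apply h
  rw [Metric.tendsto_nhds]
  intro δ hδ
  filter_upwards [h' δ hδ] with k hk
  rw [dist_zero_right]
  exact hk

/-- interlacing -/
theorem Scal_interl {A : ℕ → Prop} (hA : ∃ᶠ k in atTop, A k) {m n : ℕ → ℕ} (hm : StrictMono m)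
    (hn : StrictMono n) : ∃ φ ψ : ℕ → ℕ, StrictMono φ ∧ StrictMono ψ ∧ (∀ i, A (φ i)) ∧
      (∀ i, m (φ i) < n (ψ i)) ∧ (∀ i, n (ψ i) < m (φ (i + 1))) := by
  have step : ∀ a b : ℕ, ∃ a' b', a < a' ∧ b < b' ∧ A a' ∧ n b < m a' ∧ m a' < n b' := by
    intro a b
    obtain ⟨a', ha', hA'⟩ := (frequently_atTop'.1 hA) (a + n b + 1)
    refine ⟨a', max (b + 1) (m a' + 1), by omega, by omega, hA', ?_, ?_⟩
    · have h1 : a' ≤ m a' := hm.le_apply
      omega
    · have h1 : max (b + 1) (m a' + 1) ≤ n (max (b + 1) (m a' + 1)) := hn.le_apply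
      omega
  choose fa fb h1 h2 h3 h4 h5 using step
  obtain ⟨g, hg0, hgs⟩ : ∃ g : ℕ → ℕ × ℕ, g 0 = (fa 0 0, fb 0 0) ∧
      ∀ i, g (i + 1) = (fa (g i).1 (g i).2, fb (g i).1 (g i).2) :=
    ⟨fun i => Nat.rec (fa 0 0, fb 0 0) (fun _ p => (fa p.1 p.2, fb p.1 p.2)) i, rfl, fun _ => rfl⟩
  have hgA : ∀ i, A (g i).1 := by
    intro i
    cases i with
    | zero => rw [hg0]; exact h3 0 0
    | succ i => rw [hgs]; exact h3 _ _
  have hglt : ∀ i, m (g i).1 < n (g i).2 := by
    intro i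
    cases i with
    | zero => rw [hg0]; exact h5 0 0
    | succ i => rw [hgs]; exact h5 _ _
  refine ⟨fun i => (g i).1, fun i => (g i).2, strictMono_nat_of_lt_succ fun i => ?_,
    strictMono_nat_of_lt_succ fun i => ?_, hgA, hglt, fun i => ?_⟩
  · simp only [hgs]
    exact h1 _ _
  · simp only [hgs]
    exact h2 _ _
  · simp only [hgs]
    exact h4 _ _

/-- The scalar of the component `k`.  Choose seeds `n` such that `eX (n i) (T (io (us (n i) (dk k))))` converges,
to `c`.  If the claim fails for another sequence of seeds use `pair_RIS` (or a direct interlacing):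
`x_i = us (n i) (dk k)`, `y_i` a seed vector of the other sequence; `mainL` for `x + y`, `x` and `y`:
`M a x = a k • x`, `M a y = a k • y`, so the scalars of `x` and `y` tend to be equal. -/
theorem comp_scal (T : X →L[ℂ] X) (k : ℕ) : ∃ c : ℂ, ∀ n : ℕ → ℕ, StrictMono n →
    (∀ i, S0.D (n i) = none) →
      Tendsto (fun i => T (io (us (n i) (dk k))) - c • io (us (n i) (dk k))) atTop (𝓝 0) := by
  obtain ⟨n, hn, hnz, hnk⟩ : ∃ n : ℕ → ℕ, StrictMono n ∧ (∀ i, S0.D (n i) = none) ∧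
      ∀ i, k ≤ n i := by
    obtain ⟨n, hn, hnz⟩ := exists_seed_seq
    refine ⟨fun i => n (i + k), hn.comp fun a b h => by omega, fun i => hnz _, fun i => ?_⟩
    have h1 : i + k ≤ n (i + k) := hn.le_apply
    show k ≤ n (i + k)
    omega
  have hb : ∀ i, eX (n i) (T (io (us (n i) (dk k)))) ∈ Metric.closedBall (0 : ℂ) ‖T‖ := by
    intro i
    rw [mem_closedBall_zero_iff]
    refine (eX_le _ _).trans ?_
    have h := T.le_opNorm (io (us (n i) (dk k)))
    rwa [Scal_norm (hnz i) (hnk i), mul_one] at h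
  obtain ⟨a, -, θ, hθ, ha⟩ := (isCompact_closedBall (0 : ℂ) ‖T‖).tendsto_subseq hb
  refine ⟨a, fun m hm hmz => ?_⟩
  by_contra hcon
  obtain ⟨δ, hδ, hfreq⟩ := Scal_freq hcon
  obtain ⟨φ, ψ, hφ, hψ, hA, hlt, hlt'⟩ := Scal_interl hfreq hm (hn.comp hθ)
  obtain ⟨N, hN⟩ : ∃ N : ℕ → ℕ, ∀ i, N i = n (θ (ψ i)) := ⟨_, fun _ => rfl⟩
  have hNmono : StrictMono N := fun i j hij => by
    rw [hN, hN]
    exact hn (hθ (hψ hij))
  have hNz : ∀ i, S0.D (N i) = none := fun i => by rw [hN]; exact hnz _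
  have hNk : ∀ i, k ≤ N i := fun i => by rw [hN]; exact hnk _
  have hmN : ∀ i, m (φ i) < N i := fun i => by rw [hN]; exact hlt i
  have hNm : ∀ i, N i < m (φ (i + 1)) := fun i => by rw [hN]; exact hlt' i
  obtain ⟨ν'', h2⟩ := Scal_main T (Scal_RIS (hm.comp hφ) (fun i => hmz _) k)
    (fun b i => Scal_M b _ k)
  obtain ⟨ν', h3⟩ := Scal_main T (Scal_RIS hNmono hNz k) (fun b i => Scal_M b _ k)
  obtain ⟨ν, h4⟩ := Scal_main T (Scal_pair hmN hNm (fun i => hmz _) hNz k) (k := k)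
    (fun b i => by rw [map_add, Scal_M, Scal_M, smul_add])
  obtain ⟨y, hy⟩ : ∃ y : ℕ → X, ∀ i, y i = io (us (m (φ i)) (dk k)) := ⟨_, fun _ => rfl⟩
  obtain ⟨u, hu⟩ : ∃ u : ℕ → X, ∀ i, u i = io (us (N i) (dk k)) := ⟨_, fun _ => rfl⟩
  have hyC : ∀ i, ‖y i‖ ≤ 1 := fun i => by rw [hy]; exact Scal_le (hmz _) k
  have hu1 : ∀ i, ‖u i‖ = 1 := fun i => by rw [hu]; exact Scal_norm (hNz i) (hNk i)
  have hPy : ∀ i, PX (N i) (y i) = y i := fun i => by
    rw [hy, PX_io (Scal_mem _ _)]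
    congr 1
    funext j l
    rw [Bd_P_apply]
    split_ifs with h
    · rfl
    · have h7 := hmN i
      exact (us_Sup (m (φ i)) (dk k) j l (by omega)).symm
  have hPu : ∀ i, PX (N i) (u i) = 0 := fun i => by
    rw [hu, PX_io (Scal_mem _ _), Scal_P, map_zero]
  have h2' : Tendsto (fun i => T (y i) - ν'' i • y i) atTop (𝓝 0) := by
    refine h2.congr fun i => ?_
    rw [hy]
    rfl
  have h3' : Tendsto (fun i => T (u i) - ν' i • u i) atTop (𝓝 0) := by
    refine h3.congr fun i => ?_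
    rw [hu]
  have h4' : Tendsto (fun i => T (y i + u i) - ν i • (y i + u i)) atTop (𝓝 0) := by
    refine h4.congr fun i => ?_
    rw [hy, hu, ← map_add]
  have h5 : Tendsto (fun i => (ν'' i - ν i) • y i + (ν' i - ν i) • u i) atTop (𝓝 0) := by
    have h := (h4'.sub h2').sub h3'
    rw [sub_zero, sub_zero] at h
    refine h.congr fun i => ?_
    rw [map_add, smul_add, sub_smul, sub_smul]
    abel
  have h6 : Tendsto (fun i => (ν'' i - ν i) • y i) atTop (𝓝 0) := by
    have h := (h5.norm).const_mul 2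
    rw [norm_zero, mul_zero] at h
    refine squeeze_zero_norm (fun i => ?_) h
    have h7 := PX_le ((ν'' i - ν i) • y i + (ν' i - ν i) • u i) (N i)
    rwa [map_add, map_smul, map_smul, hPy, hPu, smul_zero, add_zero] at h7
  have h7 : Tendsto (fun i => (ν' i - ν i) • u i) atTop (𝓝 0) := by
    have h := h5.sub h6
    rw [sub_zero] at h
    refine h.congr fun i => ?_
    abel
  have h8 : Tendsto (fun i => ν' i - ν i) atTop (𝓝 0) := by
    rw [tendsto_zero_iff_norm_tendsto_zero] at h7 ⊢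
    refine h7.congr fun i => ?_
    rw [norm_smul, hu1, mul_one]
  have h9 : Tendsto (fun i => eX (N i) (T (u i)) - ν' i) atTop (𝓝 0) := by
    refine squeeze_zero_norm (fun i => ?_) (by simpa using h3'.norm)
    have h := eX_le (T (u i) - ν' i • u i) (N i)
    have h0 : eX (N i) (u i) = 1 := by rw [hu]; exact Scal_eX (hNz i) (hNk i)
    rwa [map_sub, map_smul, h0, smul_eq_mul, mul_one] at h
  have h10 : Tendsto ν' atTop (𝓝 a) := by
    have h := (ha.comp hψ.tendsto_atTop).sub h9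
    rw [sub_zero] at h
    refine h.congr fun i => ?_
    simp only [Function.comp_apply]
    rw [hu, hN]
    abel
  have h11 : Tendsto (fun i => ν i - a) atTop (𝓝 0) := by
    have h := (h10.sub h8).sub_const a
    rw [sub_zero, sub_self] at h
    refine h.congr fun i => ?_
    abel
  have h12 : Tendsto (fun i => (ν i - a) • y i) atTop (𝓝 0) := by
    have h := h11.norm.mul_const 1
    rw [norm_zero, zero_mul] at h
    refine squeeze_zero_norm (fun i => ?_) h
    rw [norm_smul]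
    exact mul_le_mul_of_nonneg_left (hyC i) (norm_nonneg _)
  have h13 : Tendsto (fun i => T (y i) - a • y i) atTop (𝓝 0) := by
    have h := (h2'.add h6).add h12
    rw [add_zero, add_zero] at h
    refine h.congr fun i => ?_
    rw [sub_smul, sub_smul]
    abel
  have h14 := (h13.norm)
  rw [norm_zero] at h14
  have h15 := h14.eventually (gt_mem_nhds hδ)
  obtain ⟨i, hi⟩ := h15.exists
  have h16 := hA i
  rw [← hy] at h16
  linarith

/-- the scalars -/
noncomputable def lam (T : X →L[ℂ] X) (k : ℕ) : ℂ := (comp_scal T k).choose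

theorem lam_spec (T : X →L[ℂ] X) (k : ℕ) {n : ℕ → ℕ} (hn : StrictMono n)
    (hs : ∀ i, S0.D (n i) = none) :
    Tendsto (fun i => T (io (us (n i) (dk k))) - lam T k • io (us (n i) (dk k)))
      atTop (𝓝 0) :=
  (comp_scal T k).choose_spec n hn hs

/-- uniqueness -/
theorem lam_eq {T : X →L[ℂ] X} {k : ℕ} {n : ℕ → ℕ} (hn : StrictMono n)
    (hs : ∀ i, S0.D (n i) = none) {c : ℂ}
    (h : Tendsto (fun i => T (io (us (n i) (dk k))) - c • io (us (n i) (dk k))) atTop (𝓝 0)) :
    lam T k = c := by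
  have h1 : Tendsto (fun i => ‖(c - lam T k) • io (us (n i) (dk k))‖) atTop (𝓝 0) := by
    have h2 := ((lam_spec T k hn hs).sub h).norm
    rw [sub_zero, norm_zero] at h2
    refine h2.congr fun i => ?_
    congr 1
    rw [sub_smul]
    abel
  have h2 : Tendsto (fun _ : ℕ => ‖c - lam T k‖) atTop (𝓝 0) := by
    refine h1.congr' ?_
    filter_upwards [eventually_ge_atTop k] with i hi
    rw [norm_smul, Scal_norm (hs i) (hi.trans hn.le_apply), mul_one]
  have h3 := tendsto_nhds_unique h2 tendsto_const_nhds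
  exact (sub_eq_zero.1 (norm_eq_zero.1 h3.symm)).symm

/-- (`‖io (us n (dk k))‖ = 1` for seeds `n ≥ k`) -/
theorem lam_le (T : X →L[ℂ] X) (k : ℕ) : ‖lam T k‖ ≤ ‖T‖ := by
  obtain ⟨n, hn, hs⟩ := exists_seed_seq
  have h := (lam_spec T k hn hs).norm.const_add ‖T‖
  rw [norm_zero, add_zero] at h
  refine ge_of_tendsto h ?_
  filter_upwards [eventually_ge_atTop k] with i hi
  have h1 := Scal_norm (hs i) (hi.trans hn.le_apply)
  have h2 : ‖lam T k • io (us (n i) (dk k))‖ = ‖lam T k‖ := by rw [norm_smul, h1, mul_one]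
  have h3 := T.le_opNorm (io (us (n i) (dk k)))
  rw [h1, mul_one] at h3
  have h4 := norm_sub_le (T (io (us (n i) (dk k))))
    (T (io (us (n i) (dk k))) - lam T k • io (us (n i) (dk k)))
  rw [sub_sub_cancel, h2] at h4
  linarith

theorem lam_add (T T' : X →L[ℂ] X) (k : ℕ) : lam (T + T') k = lam T k + lam T' k := by
  obtain ⟨n, hn, hs⟩ := exists_seed_seq
  refine lam_eq hn hs ?_
  have h := (lam_spec T k hn hs).add (lam_spec T' k hn hs)
  rw [add_zero] at h
  refine h.congr fun i => ?_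
  rw [add_apply, add_smul]
  abel

theorem lam_smul (r : ℂ) (T : X →L[ℂ] X) (k : ℕ) : lam (r • T) k = r * lam T k := by
  obtain ⟨n, hn, hs⟩ := exists_seed_seq
  refine lam_eq hn hs ?_
  have h := (lam_spec T k hn hs).const_smul r
  rw [smul_zero] at h
  refine h.congr fun i => ?_
  rw [smul_apply, smul_sub, mul_smul]

theorem lam_mul (T T' : X →L[ℂ] X) (k : ℕ) : lam (T * T') k = lam T k * lam T' k := by
  obtain ⟨n, hn, hs⟩ := exists_seed_seq
  refine lam_eq hn hs ?_
  have h1 := (T.continuous.tendsto 0).comp (lam_spec T' k hn hs)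
  rw [map_zero] at h1
  have h2 := (lam_spec T k hn hs).const_smul (lam T' k)
  rw [smul_zero] at h2
  have h := h1.add h2
  rw [add_zero] at h
  refine h.congr fun i => ?_
  rw [Function.comp_apply, map_sub, map_smul, smul_sub, mul_apply_eq_comp, mul_comm,
    mul_smul]
  abel

theorem lam_one (k : ℕ) : lam 1 k = 1 := by
  obtain ⟨n, hn, hs⟩ := exists_seed_seq
  refine lam_eq hn hs ?_
  refine tendsto_const_nhds.congr fun i => ?_
  rw [one_smul, one_apply_eq_self, sub_self]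

theorem lam_MX {a : ℕ → ℂ} {B : ℝ} (ha : ∀ k, ‖a k‖ ≤ B) (k : ℕ) : lam (MX a) k = a k := by
  obtain ⟨n, hn, hs⟩ := exists_seed_seq
  refine lam_eq hn hs ?_
  refine tendsto_const_nhds.congr fun i => ?_
  rw [MX_io (Scal_mem _ _) ha, Scal_M, map_smul, sub_self]

/-- the seed vectors tend weakly to zero -/
theorem lam_compact {T : X →L[ℂ] X} (hT : IsCompactOperator T) (k : ℕ) : lam T k = 0 := by
  obtain ⟨n, hn, hs⟩ := exists_seed_seq
  obtain ⟨K, hK, hTK⟩ := IsCompactOperator.image_closedBall_subset_compact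
    (f := (T : X →ₛₗ[RingHom.id ℂ] X)) hT 1
  have hmem : ∀ i, T (io (us (n i) (dk k))) ∈ K := fun i => hTK ⟨_, by
    rw [mem_closedBall_zero_iff]
    exact Scal_le (hs i) k, rfl⟩
  obtain ⟨y, -, θ, hθ, hy⟩ := hK.tendsto_subseq hmem
  have hus := Scal_RIS (hn.comp hθ) (fun i => hs _) k
  have hy0 : y = 0 := by
    rw [← norm_le_zero_iff]
    refine norm_le_of_eX y le_rfl fun m b _ => ?_
    have h1 := (((eX m).comp (MX b)).continuous.tendsto y).comp hy
    have h2 := ris_weak hus (((eX m).comp (MX b)).comp T)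
    have h3 := tendsto_nhds_unique h1 h2
    rw [ContinuousLinearMap.comp_apply] at h3
    rw [h3, norm_zero]
  refine lam_eq (hn.comp hθ) (fun i => hs _) ?_
  rw [hy0] at hy
  refine hy.congr fun i => ?_
  rw [zero_smul, sub_zero]
  rfl

end Pool.Agent.W8d7136b
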