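import Pool.Agent.W_MP_8d7136_h58b.MainL

set_option autoImplicit false

/-!
The seed vectors.
-/

open Filter Topology

namespace Pool.Agent.W8d7136b

open Pool.Agent.W8d7136 (mm tt nn code wt)

/-- the vector at the index `n` with coordinates `μ` -/
noncomputable def us (n : ℕ) (μ : ℕ → ℂ) : W := fun i k => if i = n ∧ k ≤ n then μ k else 0

theorem Seeds_ne {n i : ℕ} (h : i ≠ n) (μ : ℕ → ℂ) (k : ℕ) : us n μ i k = 0 :=
  if_neg fun h' => h h'.1

theorem Seeds_gt {n k : ℕ} (h : n < k) (μ : ℕ → ℂ) (i : ℕ) : us n μ i k = 0 :=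
  if_neg fun h' => absurd h'.2 (not_le.mpr h)

theorem Seeds_eq {n k : ℕ} (h : k ≤ n) (μ : ℕ → ℂ) : us n μ n k = μ k :=
  if_pos ⟨rfl, h⟩

theorem us_Sup (n : ℕ) (μ : ℕ → ℂ) : Sup n (n + 1) (us n μ) := by
  intro i k hi
  by_cases h : i = n
  · subst h
    exact Seeds_gt (by omega) μ i
  · exact Seeds_ne h μ k

theorem M_us (a : ℕ → ℂ) (n : ℕ) (μ : ℕ → ℂ) : M a (us n μ) = us n (fun k => a k * μ k) := by
  funext i k
  rw [M_apply]
  unfold us
  split_ifs
  · rfl
  · rw [mul_zero]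

/-- `us n μ = ∑_{k ≤ n} μ k • us n (dk k)` -/
theorem us_sum (n : ℕ) (μ : ℕ → ℂ) :
    us n μ = ∑ k ∈ Finset.range (n + 1), μ k • us n (dk k) := by
  funext i l
  rw [Finset.sum_apply, Finset.sum_apply]
  simp only [Pi.smul_apply, smul_eq_mul]
  by_cases hi : i = n
  · subst hi
    by_cases hl : l ≤ i
    · rw [Seeds_eq hl, Finset.sum_eq_single l]
      · rw [Seeds_eq hl]
        simp [dk]
      · intro k _ hk
        rw [Seeds_eq hl]
        simp [dk, hk.symm]
      · intro h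
        exact absurd (Finset.mem_range.mpr (by omega)) h
    · rw [Seeds_gt (not_le.mp hl)]
      refine (Finset.sum_eq_zero fun k _ => ?_).symm
      rw [Seeds_gt (not_le.mp hl), mul_zero]
  · rw [Seeds_ne hi]
    refine (Finset.sum_eq_zero fun k _ => ?_).symm
    rw [Seeds_ne hi, mul_zero]

theorem Seeds_small {n m : ℕ} (h : m < n) (μ : ℕ → ℂ) : e S0 m (us n μ) = 0 :=
  e_eq_zero hS0 fun i hi k _ => Seeds_ne (by omega) μ k

theorem Seeds_sig {n m : ℕ} (h : m ≠ n) (μ : ℕ → ℂ) : sig m (us n μ) = 0 := by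
  rw [sig_apply]
  exact Finset.sum_eq_zero fun k _ => Seeds_ne h μ k

theorem Seeds_sig_self (n : ℕ) (μ : ℕ → ℂ) : sig n (us n μ) = ∑ k ∈ Finset.range (n + 1), μ k := by
  rw [sig_apply]
  refine Finset.sum_congr rfl fun k hk => ?_
  rw [Finset.mem_range] at hk
  exact Seeds_eq (by omega) μ

/-- the recursion for the seed vectors, index larger than `n` -/
theorem Seeds_rec {n m : ℕ} (h : n < m) {d : Dat} (hd : S0.D m = some d) (μ : ℕ → ℂ) :
    (d.p < n ∧ e S0 m (us n μ) = (wt d.j : ℂ) * bf S0 m d.b (Q d.p (us n μ))) ∨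
      (n ≤ d.p ∧ e S0 m (us n μ) = if d.chi = true then e S0 d.p (us n μ) else 0) := by
  have h1 := e_some hS0 hd (us n μ)
  rw [Seeds_sig h.ne', zero_add] at h1
  rcases lt_or_ge d.p n with hp | hp
  · refine Or.inl ⟨hp, ?_⟩
    rw [Seeds_small hp, ite_self, zero_add] at h1
    exact h1
  · refine Or.inr ⟨hp, ?_⟩
    have h2 : Q d.p (us n μ) = 0 := by
      classical
      funext i k
      unfold Q
      rw [res_apply]
      split_ifs with h3
      · have h4 : d.p < i := h3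
        exact Seeds_ne (by omega) μ k
      · rfl
    rw [h2, map_zero, mul_zero, add_zero] at h1
    exact h1

theorem Seeds_phase {n : ℕ} {μ : ℕ → ℂ} {C : ℝ} (hμ : ∑ k ∈ Finset.range (n + 1), ‖μ k‖ ≤ C)
    {a : ℕ → ℂ} (ha : U a) : ∑ k ∈ Finset.range (n + 1), ‖a k * μ k‖ ≤ C := by
  refine le_trans (Finset.sum_le_sum fun k _ => ?_) hμ
  rw [norm_mul]
  exact mul_le_of_le_one_left (norm_nonneg _) (ha k)

/-- by induction on the index, as in the old `us_NB` -/
theorem us_NB {n : ℕ} (hn : S0.D n = none) {μ : ℕ → ℂ} {C : ℝ}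
    (hμ : ∑ k ∈ Finset.range (n + 1), ‖μ k‖ ≤ C) : NB S0 C (us n μ) := by
  have hC : 0 ≤ C := (Finset.sum_nonneg fun k _ => norm_nonneg _).trans hμ
  have key : ∀ m, ∀ ν : ℕ → ℂ, ∑ k ∈ Finset.range (n + 1), ‖ν k‖ ≤ C → ‖e S0 m (us n ν)‖ ≤ C := by
    intro m
    induction m using Nat.strong_induction_on with
    | _ m ih =>
      intro ν hν
      rcases lt_trichotomy m n with h | h | h
      · rw [Seeds_small h, norm_zero]
        exact hC
      · subst h
        rw [e_none hn, Seeds_sig_self]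
        exact (norm_sum_le _ _).trans hν
      · rcases hd : S0.D m with _ | d
        · rw [e_none hd, Seeds_sig h.ne', norm_zero]
          exact hC
        · rcases Seeds_rec h hd ν with ⟨-, h1⟩ | ⟨-, h1⟩
          · rw [h1]
            refine Bd_wt d.j hC ?_
            have hb : NBl S0 m C (us n ν) := by
              intro i hi a ha
              rw [M_us]
              exact ih i hi _ (Seeds_phase hν ha)
            have h2 := bf_le (hS0.b1 m d hd) (show 0 ≤ 3 * C by linarith) (NBl_Q hS0 hC hb d.p)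
            linarith
          · rw [h1]
            exact Bd_cond hC (ih d.p (hS0.lt m d hd).1 ν hν)
  intro m a ha
  rw [M_us]
  exact key m _ (Seeds_phase hμ ha)

theorem us_WB {n : ℕ} (hn : S0.D n = none) {μ : ℕ → ℂ} {C : ℝ}
    (hμ : ∑ k ∈ Finset.range (n + 1), ‖μ k‖ ≤ C) (h : ℕ) : WB S0 h (100 * C) (us n μ) := by
  have hC : 0 ≤ C := (Finset.sum_nonneg fun k _ => norm_nonneg _).trans hμ
  have hpos := (Wgt_pos h).le
  have hCw : 0 ≤ C * wt h := mul_nonneg hC hpos
  have key : ∀ m, ∀ ν : ℕ → ℂ, ∑ k ∈ Finset.range (n + 1), ‖ν k‖ ≤ C → Wt S0 m h →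
      ‖e S0 m (us n ν)‖ ≤ 100 * C * wt h := by
    intro m
    induction m using Nat.strong_induction_on with
    | _ m ih =>
      intro ν hν hw
      obtain ⟨d, hd, hj⟩ := hw
      rcases lt_trichotomy m n with h2 | h2 | h2
      · rw [Seeds_small h2, norm_zero]
        positivity
      · subst h2
        rw [hn] at hd
        exact absurd hd (by simp)
      · rcases Seeds_rec h2 hd ν with ⟨-, h1⟩ | ⟨-, h1⟩
        · rw [h1]
          refine (Wgt_piece hS0 hd (us_NB hn hν)).trans ?_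
          rw [hj]
          linarith
        · rw [h1]
          refine Wgt_cond (by positivity) fun hc => ?_
          exact ih d.p (hS0.lt m d hd).1 ν hν (Wgt_parent hS0 hd hj hc)
  intro m hm a ha
  rw [M_us]
  exact key m _ (Seeds_phase hμ ha) hm

theorem Seeds_mem (n : ℕ) (μ : ℕ → ℂ) : us n μ ∈ Fs := Fs_of_Sup (us_Sup n μ)

theorem us_eX {n : ℕ} (hn : S0.D n = none) (μ : ℕ → ℂ) :
    eX n (io (us n μ)) = ∑ k ∈ Finset.range (n + 1), μ k := by
  rw [eX_io (Seeds_mem n μ), e_none hn, Seeds_sig_self]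

theorem Seeds_blk {n : ℕ} (hn : S0.D n = none) {μ : ℕ → ℂ} {C : ℝ}
    (hμ : ∑ k ∈ Finset.range (n + 1), ‖μ k‖ ≤ C) (J : ℕ) :
    Blk S0 (100 * C) n (n + 1) J (us n μ) := by
  have hC : 0 ≤ C := (Finset.sum_nonneg fun k _ => norm_nonneg _).trans hμ
  exact ⟨us_Sup _ _, NB_mono (us_NB hn hμ) (by linarith), fun h _ => us_WB hn hμ h⟩

/-- `lo = n k`, `hi = n k + 1`, `J = n k` -/
theorem us_RI {n : ℕ → ℕ} (hn : StrictMono n) (hs : ∀ k, S0.D (n k) = none) {μ : ℕ → ℕ → ℂ}
    {C : ℝ} (hμ : ∀ i, ∑ k ∈ Finset.range (n i + 1), ‖μ i k‖ ≤ C) :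
    RI (100 * C) n (fun i => n i + 1) n (fun i => us (n i) (μ i)) := by
  refine ⟨fun k => Seeds_blk (hs k) (hμ k) _, fun k => Nat.lt_succ_self _, fun k => ?_, fun k => ?_⟩
  · exact hn (Nat.lt_succ_self k)
  · exact hn (Nat.lt_succ_self k)

/-- seeds -/
theorem exists_seed_seq : ∃ n : ℕ → ℕ, StrictMono n ∧ ∀ k, S0.D (n k) = none := by
  have h1 : ∃ᶠ n in atTop, S0.D n = none := by
    rw [frequently_atTop]
    intro N
    obtain ⟨n, h1, h2⟩ := hS0.seed N
    exact ⟨n, h1, h2⟩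
  exact extraction_of_frequently_atTop h1

/-- Interlacing with seeds.  `x` is a RIS, `A k` holds frequently, `B k n` holds for all large `n` (for
every `k`); `μ k` has `ℓ₁` norm at most `C`.  Choose recursively `φ i` with `A (φ i)`, then a seed `n i` with
`hi (φ i) ≤ n i`, `B (φ i) (n i)`, then `φ (i+1) > φ i` with `n i < lo (φ (i+1))`, `n i < J (φ (i+1))`. -/
theorem pair_RIS {C : ℝ} {x : ℕ → W} (hx : RIS C x) {A : ℕ → Prop} (hA : ∃ᶠ k in atTop, A k)
    {B : ℕ → ℕ → Prop} (hB : ∀ k, ∀ᶠ n in atTop, B k n) {μ : ℕ → ℕ → ℂ}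
    (hμ : ∀ k n, ∑ i ∈ Finset.range n, ‖μ k i‖ ≤ C) :
    ∃ φ n : ℕ → ℕ, StrictMono φ ∧ StrictMono n ∧ (∀ i, S0.D (n i) = none) ∧ (∀ i, A (φ i)) ∧
      (∀ i, B (φ i) (n i)) ∧ (∀ i, P (n i) (x (φ i)) = x (φ i)) ∧
      RIS (200 * C) (fun i => x (φ i) + us (n i) (μ (φ i))) := by
  have hC : 0 ≤ C := hx.nonneg
  obtain ⟨lo, hi, J, hR⟩ := hx
  have hlo := hR.lo_strictMono
  have hJ : ∀ k, k < J (k + 1) := fun k =>
    lt_of_le_of_lt hlo.le_apply (lt_of_lt_of_le (hR.lohi k) (hR.hiJ k))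
  have step : ∀ a b : ℕ, ∃ a' b', a < a' ∧ b < b' ∧ A a' ∧ b < lo a' ∧ b < J a' ∧
      hi a' ≤ b' ∧ S0.D b' = none ∧ B a' b' := by
    intro a b
    obtain ⟨a', ha', hA'⟩ := (frequently_atTop'.1 hA) (a + b + 1)
    obtain ⟨N0, hN0⟩ := eventually_atTop.mp (hB a')
    obtain ⟨b', hb', hs'⟩ := hS0.seed (max (max (b + 1) (hi a')) N0)
    refine ⟨a', b', by omega, ?_, hA', ?_, ?_, ?_, hs', hN0 b' ((le_max_right _ _).trans hb')⟩
    · have h1 : b + 1 ≤ b' := ((le_max_left _ _).trans (le_max_left _ _)).trans hb'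
      omega
    · have h1 : a' ≤ lo a' := hlo.le_apply
      omega
    · have h1 := hJ (a' - 1)
      rw [Nat.sub_add_cancel (by omega)] at h1
      omega
    · exact ((le_max_right _ _).trans (le_max_left _ _)).trans hb'
  choose fa fb h1 h2 h3 h4 h5 h6 h7 h8 using step
  obtain ⟨g, hg0, hgs⟩ : ∃ g : ℕ → ℕ × ℕ, g 0 = (fa 0 0, fb 0 0) ∧
      ∀ i, g (i + 1) = (fa (g i).1 (g i).2, fb (g i).1 (g i).2) :=
    ⟨fun i => Nat.rec (fa 0 0, fb 0 0) (fun _ p => (fa p.1 p.2, fb p.1 p.2)) i, rfl, fun _ => rfl⟩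
  have hgA : ∀ i, A (g i).1 := by
    intro i
    cases i with
    | zero => rw [hg0]; exact h3 0 0
    | succ i => rw [hgs]; exact h3 _ _
  have hghi : ∀ i, hi (g i).1 ≤ (g i).2 := by
    intro i
    cases i with
    | zero => rw [hg0]; exact h6 0 0
    | succ i => rw [hgs]; exact h6 _ _
  have hgD : ∀ i, S0.D (g i).2 = none := by
    intro i
    cases i with
    | zero => rw [hg0]; exact h7 0 0
    | succ i => rw [hgs]; exact h7 _ _
  have hgB : ∀ i, B (g i).1 (g i).2 := by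
    intro i
    cases i with
    | zero => rw [hg0]; exact h8 0 0
    | succ i => rw [hgs]; exact h8 _ _
  have hg1 : StrictMono fun i => (g i).1 := strictMono_nat_of_lt_succ fun i => by
    simp only [hgs]
    exact h1 _ _
  have hg2 : StrictMono fun i => (g i).2 := strictMono_nat_of_lt_succ fun i => by
    simp only [hgs]
    exact h2 _ _
  have hglo : ∀ i, (g i).2 < lo (g (i + 1)).1 := by
    intro i
    rw [hgs]
    exact h4 _ _
  have hgJ : ∀ i, (g i).2 < J (g (i + 1)).1 := by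
    intro i
    rw [hgs]
    exact h5 _ _
  refine ⟨fun i => (g i).1, fun i => (g i).2, hg1, hg2, hgD, hgA, hgB, fun i => ?_, ?_⟩
  · funext j k
    rw [Bd_P_apply]
    split_ifs with h
    · rfl
    · have h9 := hghi i
      have h10 : ¬ j < (g i).2 := h
      exact ((hR.blk (g i).1).supp j k (Or.inr (Or.inl (by omega)))).symm
  · refine ⟨fun i => lo (g i).1, fun i => (g i).2 + 1, fun i => J (g i).1, ⟨fun i => ?_,
      fun i => ?_, fun i => hglo i, fun i => hgJ i⟩⟩
    · have hb := hR.blk (g i).1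
      have h9 := hghi i
      have h10 := hR.lohi (g i).1
      have hus := Seeds_blk (hgD i) (hμ (g i).1 ((g i).2 + 1)) (J (g i).1)
      refine ⟨fun j k hj => ?_, NB_mono (NB_add hb.nb hus.nb) (by linarith),
        fun h hh => WB_mono (WB_add (hb.wb h hh) (hus.wb h hh)) (by linarith)⟩
      have h11 : j < lo (g i).1 ∨ hi (g i).1 ≤ j ∨ j < k := by
        rcases hj with hj | hj | hj
        · exact Or.inl hj
        · exact Or.inr (Or.inl (by omega))
        · exact Or.inr (Or.inr hj)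
      have h12 : j < (g i).2 ∨ (g i).2 + 1 ≤ j ∨ j < k := by
        rcases hj with hj | hj | hj
        · exact Or.inl (by omega)
        · exact Or.inr (Or.inl hj)
        · exact Or.inr (Or.inr hj)
      rw [Pi.add_apply, Pi.add_apply, hb.supp j k h11, us_Sup (g i).2 _ j k h12, add_zero]
    · have h9 := hghi i
      have h10 := hR.lohi (g i).1
      show lo (g i).1 < (g i).2 + 1
      omega

end Pool.Agent.W8d7136b
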