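import Pool.Agent.W_MP_8d7136_h58b.Bd

set_option autoImplicit false

/-!
Weights: port of `Pool.Agent.W_MP_8d7136_h58.Wgt` (simpler, no cones and branches).
-/

namespace Pool.Agent.W8d7136b

open Pool.Agent.W8d7136 (mm tt nn code wt)

variable {S : Sys}

theorem Wgt_parent (hS : Good S) {n h : ℕ} {d : Dat} (hD : S.D n = some d) (hj : d.j = h)
    (hc : d.chi = true) : Wt S d.p h := by
  obtain ⟨d', h1, h2, -⟩ := hS.age2 n d hD hc
  exact ⟨d', h1, h2.trans hj⟩

theorem Wgt_cond {χ : Bool} {x : ℂ} {C : ℝ} (hC : 0 ≤ C) (h : χ = true → ‖x‖ ≤ C) :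
    ‖(if χ = true then x else 0 : ℂ)‖ ≤ C := by
  split_ifs with h1
  · exact h h1
  · rw [norm_zero]
    exact hC

theorem Wgt_pos (h : ℕ) : 0 < wt h := Pool.Agent.W8d7136.wt_pos h

theorem Wgt_piece (hS : Good S) {n : ℕ} {d : Dat} (hD : S.D n = some d) {C : ℝ} {v : W}
    (hv : NB S C v) :
    ‖(wt d.j : ℂ) * bf S n d.b (Q d.p v)‖ ≤ 3 * C * wt d.j := by
  have hC := NB_nonneg hv
  rw [norm_mul, Complex.norm_real, Real.norm_eq_abs, abs_of_pos (Wgt_pos d.j), mul_comm]
  have h1 := bf_le (hS.b1 n d hD) (show 0 ≤ 3 * C by linarith)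
    (NBl_Q hS hC (NB_iff.1 hv n) d.p)
  rw [one_mul] at h1
  exact mul_le_mul_of_nonneg_right h1 (Wgt_pos _).le

theorem Wgt_NB {C : ℝ} {v : W} (hv : NB S C v) (n : ℕ) : ‖e S n v‖ ≤ C := by
  have := hv n _ U_one
  rwa [M_one] at this

theorem Wgt_WB {h : ℕ} {C : ℝ} {v : W} (hv : WB S h C v) {n : ℕ} (hn : Wt S n h) :
    ‖e S n v‖ ≤ C * wt h := by
  have := hv n hn _ U_one
  rwa [M_one] at this

theorem WB_mono {h : ℕ} {C C' : ℝ} {v : W} (hv : WB S h C v) (hc : C ≤ C') : WB S h C' v := by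
  intro n hn a ha
  exact (hv n hn a ha).trans (mul_le_mul_of_nonneg_right hc (Wgt_pos h).le)

theorem WB_add {h : ℕ} {C C' : ℝ} {v v' : W} (hv : WB S h C v) (hv' : WB S h C' v') :
    WB S h (C + C') (v + v') := by
  intro n hn a ha
  rw [map_add, map_add, add_mul]
  exact (norm_add_le _ _).trans (add_le_add (hv n hn a ha) (hv' n hn a ha))

theorem WB_sub {h : ℕ} {C C' : ℝ} {v v' : W} (hv : WB S h C v) (hv' : WB S h C' v') :
    WB S h (C + C') (v - v') := by
  intro n hn a ha
  rw [map_sub, map_sub, add_mul]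
  exact (norm_sub_le _ _).trans (add_le_add (hv n hn a ha) (hv' n hn a ha))

theorem WB_smul {h : ℕ} {C : ℝ} {v : W} (hv : WB S h C v) (a : ℂ) : WB S h (‖a‖ * C) (a • v) := by
  intro n hn a' ha'
  rw [map_smul, map_smul, smul_eq_mul, norm_mul, mul_assoc]
  exact mul_le_mul_of_nonneg_left (hv n hn a' ha') (norm_nonneg _)

theorem WB_M {h : ℕ} {C : ℝ} {v : W} (hv : WB S h C v) {a : ℕ → ℂ} (ha : U a) :
    WB S h C (M a v) := by
  intro n hn a' ha'
  rw [M_M]
  exact hv n hn _ (U_mul ha' ha)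

theorem Wgt_P (hS : Good S) {h : ℕ} {C : ℝ} {v : W} (hn : NB S C v) (hv : WB S h C v) (k : ℕ) :
    ∀ n, Wt S n h → ‖e S n (P k v)‖ ≤ 10 * C * wt h := by
  have hC := NB_nonneg hn
  have hw := (Wgt_pos h).le
  have hCw : 0 ≤ C * wt h := mul_nonneg hC hw
  have hloc : ∀ m, m < k → e S m (P k v) = e S m v := fun m hm =>
    e_congr hS fun i hi l _ => by rw [Bd_P_apply, if_pos (by omega)]
  intro n
  induction n using Nat.strong_induction_on with
  | _ n ih =>
    intro hW
    rcases lt_or_ge n k with hk | hk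
    · rw [hloc n hk]
      have := Wgt_WB hv hW
      linarith
    · obtain ⟨d, hD, hj⟩ := hW
      obtain ⟨hp, -⟩ := hS.lt n d hD
      have hsig : sig n (P k v) = 0 := by
        rw [sig_apply]
        refine Finset.sum_eq_zero fun l _ => ?_
        rw [Bd_P_apply, if_neg (by omega)]
      rw [e_some hS hD, hsig, zero_add]
      rcases lt_or_ge d.p k with hpk | hpk
      · rw [hloc d.p hpk]
        have h1 : ‖(if d.chi = true then e S d.p v else 0 : ℂ)‖ ≤ C * wt h :=
          Wgt_cond hCw (fun hc => Wgt_WB hv (Wgt_parent hS hD hj hc))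
        have h2 := Wgt_piece hS hD (NB_P hS hn k)
        rw [hj] at h2 ⊢
        refine (norm_add_le _ _).trans ?_
        linarith
      · have h0 : Q d.p (P k v) = 0 := by
          funext i l
          unfold Q
          rw [res_apply, Bd_P_apply]
          split_ifs with h1 h2
          · have h3 : d.p < i := h1
            omega
          · rfl
          · rfl
        rw [h0, map_zero, mul_zero, add_zero]
        exact Wgt_cond (by linarith) (fun hc => ih d.p hp (Wgt_parent hS hD hj hc))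

/-- Induction on the index over the chain of parents (all of weight `h`), for `M a v`: `n < k` trivial;
`p < k ≤ n`: `χ e_p(v) + w_h bf(Q_p P_k v)`, at most `7 C w_h`; `k ≤ p`: `χ e_p(P_k v)`. -/
theorem WB_P (hS : Good S) {h : ℕ} {C : ℝ} {v : W} (hn : NB S C v) (hv : WB S h C v) (k : ℕ) :
    WB S h (10 * C) (P k v) := by
  intro n hW a ha
  rw [M_P]
  exact Wgt_P hS (NB_M hn ha) (WB_M hv ha) k n hW

theorem WB_Mult (hS : Good S) {h : ℕ} {C : ℝ} {v : W} (hn : NB S C v) (hv : WB S h C v)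
    {m : W →ₗ[ℂ] W} (hm : Mult m) : WB S h (100 * C) (m v) := by
  obtain ⟨A, a, hA, ha, rfl⟩ := hm
  rw [LinearMap.comp_apply]
  have hC := NB_nonneg hn
  have hn' := NB_M hn ha
  have hv' := WB_M hv ha
  rcases hA with ⟨k, k', rfl⟩ | ⟨k, rfl⟩
  · rcases le_or_gt k k' with hk | hk
    · rw [res_Ico hk]
      exact WB_mono (WB_sub (WB_P hS hn' hv' k') (WB_P hS hn' hv' k)) (by linarith)
    · have h0 : res (Set.Ico k k') (M a v) = 0 := by
        funext i l
        rw [res_apply, if_neg]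
        · rfl
        · intro hi
          have h1 := hi.1
          have h2 := hi.2
          omega
      rw [h0]
      intro n _ a' _
      rw [map_zero, map_zero, norm_zero]
      have := (Wgt_pos h).le
      positivity
  · rw [res_Ici]
    exact WB_mono (WB_sub hv' (WB_P hS hn' hv' k)) (by linarith)

/-- Vectors supported below `h` are almost killed by functionals of weight `h` (which have index at
least `h`): by induction on `n`, `e_n(v) = χ e_p(v) + w_h bf(Q_p v)`; if `χ = 1` the parent has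
weight `h`, so `h ≤ p` and `Q_p v = 0`. -/
theorem first_piece (hS : Good S) {C : ℝ} {n h : ℕ} (hn : Wt S n h) {v : W} (hv : NB S C v)
    (hs : Sup 0 h v) : ‖e S n v‖ ≤ 12 * C * wt h := by
  have hC := NB_nonneg hv
  have hCw : 0 ≤ C * wt h := mul_nonneg hC (Wgt_pos h).le
  induction n using Nat.strong_induction_on with
  | _ n ih =>
    obtain ⟨d, hD, hj⟩ := hn
    obtain ⟨hp, hjn⟩ := hS.lt n d hD
    have hz : sig n v = 0 := by
      rw [sig_apply]
      refine Finset.sum_eq_zero fun k _ => ?_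
      exact hs n k (Or.inr (Or.inl (by omega)))
    rw [e_some hS hD, hz, zero_add]
    by_cases hc : d.chi = true
    · rw [if_pos hc]
      have hW := Wgt_parent hS hD hj hc
      obtain ⟨d', hD', hj'⟩ := hW
      obtain ⟨-, hjp⟩ := hS.lt d.p d' hD'
      have h0 : Q d.p v = 0 := by
        funext i k
        unfold Q
        rw [res_apply]
        split_ifs with hi
        · have h5 : d.p < i := hi
          exact hs i k (Or.inr (Or.inl (by omega)))
        · rfl
      rw [h0, map_zero, mul_zero, add_zero]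
      exact ih d.p hp (hn := ⟨d', hD', hj'⟩)
    · rw [if_neg hc, zero_add]
      have h2 := Wgt_piece hS hD hv
      rw [hj] at h2 ⊢
      linarith

theorem Blk_Mult (hS : Good S) {C : ℝ} {lo hi J : ℕ} {x : W} (hx : Blk S C lo hi J x)
    {m : W →ₗ[ℂ] W} (hm : Mult m) : Blk S (100 * C) lo hi J (m x) := by
  have hC := NB_nonneg hx.nb
  exact ⟨Sup_Mult hm hx.supp, NB_mono (NB_Mult hS hx.nb hm) (by linarith),
    fun h hh => WB_Mult hS hx.nb (hx.wb h hh) hm⟩

theorem Wgt_hilo {C : ℝ} {K : ℕ} {lo hi J : ℕ → ℕ} {x : ℕ → W} (hx : RISf S C K lo hi J x)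
    {k k' : ℕ} (hk : k < k') (hk' : k' < K) : hi k ≤ lo k' := by
  induction k' with
  | zero => omega
  | succ j ih =>
    rcases Nat.lt_succ_iff_lt_or_eq.1 hk with h1 | rfl
    · have h2 := ih h1 (by omega)
      have h3 := hx.lohi j (by omega)
      have h4 := hx.hilo j hk'
      omega
    · exact hx.hilo k hk'

theorem Wgt_sum {F : Finset ℕ} {f : ℕ → ℝ} {A B : ℝ} (hB : 0 ≤ B) (k₀ : ℕ)
    (h1 : ∀ k ∈ F, k ≠ k₀ → f k ≤ A) (hA : 0 ≤ A) (h2 : k₀ ∈ F → f k₀ ≤ B) :
    ∑ k ∈ F, f k ≤ F.card * A + B := by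
  have h3 : ∀ k ∈ F, f k ≤ A + if k = k₀ then B else 0 := by
    intro k hk
    split_ifs with h
    · subst h
      have := h2 hk
      linarith
    · have := h1 k hk h
      linarith
  refine (Finset.sum_le_sum h3).trans ?_
  rw [Finset.sum_add_distrib, Finset.sum_const, nsmul_eq_mul, Finset.sum_ite_eq' F k₀]
  split_ifs
  · exact le_rfl
  · linarith

/-- all but one terms are small: let `k₀` be the largest `k ∈ F` with `J k ≤ h`; for `k₀ < k` use the
weight condition, for `k < k₀` we have `hi k ≤ h` and `first_piece` -/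
theorem one_exc (hS : Good S) {C : ℝ} (hC : 0 ≤ C) {K : ℕ} {lo hi J : ℕ → ℕ} {x : ℕ → W}
    (hx : RISf S C K lo hi J x) {n h : ℕ} (hn : Wt S n h) {m : W →ₗ[ℂ] W}
    (hm : Mult m) {F : Finset ℕ} (hF : F ⊆ Finset.range K) :
    ∑ k ∈ F, ‖e S n (m (x k))‖ ≤ 10 ^ 7 * C * (F.card * wt h) + 48 * C := by
  have hw := (Wgt_pos h).le
  have hCw : 0 ≤ C * wt h := mul_nonneg hC hw
  have hnb : ∀ k ∈ F, ‖e S n (m (x k))‖ ≤ 48 * C := fun k hk => by
    have := Wgt_NB (NB_Mult hS (hx.blk k (Finset.mem_range.1 (hF hk))).nb hm) n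
    linarith
  have hbig : ∀ k ∈ F, h < J k → ‖e S n (m (x k))‖ ≤ 10 ^ 7 * C * wt h := by
    intro k hk hJ
    have hb := hx.blk k (Finset.mem_range.1 (hF hk))
    have := Wgt_WB (WB_Mult hS hb.nb (hb.wb h hJ) hm) hn
    linarith
  have hA : (0 : ℝ) ≤ 10 ^ 7 * C * wt h := by linarith
  have hB : (0 : ℝ) ≤ 48 * C := by linarith
  have hgoal : (10 : ℝ) ^ 7 * C * (F.card * wt h) + 48 * C =
      F.card * (10 ^ 7 * C * wt h) + 48 * C := by ring
  rw [hgoal]
  by_cases hex : ∃ k ∈ F, J k ≤ h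
  · have hne : (F.filter fun k => J k ≤ h).Nonempty := by
      obtain ⟨k, hk, hk'⟩ := hex
      exact ⟨k, Finset.mem_filter.2 ⟨hk, hk'⟩⟩
    obtain ⟨k₀, hk₀def⟩ : ∃ k₀, k₀ = (F.filter fun k => J k ≤ h).max' hne := ⟨_, rfl⟩
    have hk₀ : k₀ ∈ F.filter fun k => J k ≤ h := by
      rw [hk₀def]
      exact Finset.max'_mem _ _
    obtain ⟨hk₀F, hk₀J⟩ := Finset.mem_filter.1 hk₀
    have hk₀K := Finset.mem_range.1 (hF hk₀F)
    refine Wgt_sum hB k₀ ?_ hA (fun h' => hnb k₀ h')
    intro k hk hkk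
    rcases lt_or_gt_of_ne hkk with h1 | h1
    · -- `k < k₀`
      have hhi : hi k ≤ h := by
        have h2 : hi k ≤ hi (k₀ - 1) := by
          rcases Nat.lt_or_ge k (k₀ - 1) with h3 | h3
          · have h4 := Wgt_hilo hx h3 (by omega)
            have h5 := hx.lohi (k₀ - 1) (by omega)
            omega
          · have h6 : k = k₀ - 1 := by omega
            rw [h6]
        have h7 := hx.hiJ (k₀ - 1) (by omega)
        have h8 : k₀ - 1 + 1 = k₀ := by omega
        rw [h8] at h7
        omega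
      have hb := hx.blk k (Finset.mem_range.1 (hF hk))
      have hs : Sup 0 h (m (x k)) := by
        refine Sup_Mult hm ?_
        intro i l hi'
        refine hb.supp i l ?_
        rcases hi' with h9 | h9 | h9
        · exact absurd h9 (Nat.not_lt_zero i)
        · exact Or.inr (Or.inl (by omega))
        · exact Or.inr (Or.inr h9)
      have h10 := first_piece hS hn (NB_Mult hS hb.nb hm) hs
      linarith
    · -- `k₀ < k`
      refine hbig k hk ?_
      by_contra hJ
      have h2 : k ≤ k₀ := by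
        rw [hk₀def]
        exact Finset.le_max' _ _ (Finset.mem_filter.2 ⟨hk, by omega⟩)
      omega
  · push Not at hex
    refine (Finset.sum_le_sum fun k hk => hbig k hk (hex k hk)).trans ?_
    rw [Finset.sum_const, nsmul_eq_mul]
    linarith

/-- functionals of seeds see one block only -/
theorem seed_exc (hS : Good S) {C : ℝ} (hC : 0 ≤ C) {K : ℕ} {lo hi J : ℕ → ℕ} {x : ℕ → W}
    (hx : RISf S C K lo hi J x) {n : ℕ} (hn : S.D n = none) {m : W →ₗ[ℂ] W}
    (hm : Mult m) {F : Finset ℕ} (hF : F ⊆ Finset.range K) :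
    ∑ k ∈ F, ‖e S n (m (x k))‖ ≤ 48 * C := by
  have hnb : ∀ k ∈ F, ‖e S n (m (x k))‖ ≤ 48 * C := fun k hk => by
    have := Wgt_NB (NB_Mult hS (hx.blk k (Finset.mem_range.1 (hF hk))).nb hm) n
    linarith
  have hB : (0 : ℝ) ≤ 48 * C := by linarith
  have hzero : ∀ k ∈ F, (n < lo k ∨ hi k ≤ n) → ‖e S n (m (x k))‖ = 0 := by
    intro k hk h1
    have hb := hx.blk k (Finset.mem_range.1 (hF hk))
    rw [e_none hn, sig_apply, Finset.sum_eq_zero, norm_zero]
    intro l _
    refine Sup_Mult hm hb.supp n l ?_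
    rcases h1 with h1 | h1
    · exact Or.inl h1
    · exact Or.inr (Or.inl h1)
  by_cases hex : ∃ k₀ ∈ F, lo k₀ ≤ n ∧ n < hi k₀
  · obtain ⟨k₀, hk₀F, h1, h2⟩ := hex
    have h3 := Wgt_sum (F := F) (f := fun k => ‖e S n (m (x k))‖) (A := 0) hB k₀ ?_ le_rfl
      (fun h' => hnb k₀ h')
    · rw [mul_zero, zero_add] at h3
      exact h3
    · intro k hk hkk
      refine (hzero k hk ?_).le
      have hkK := Finset.mem_range.1 (hF hk)
      have hk₀K := Finset.mem_range.1 (hF hk₀F)
      rcases lt_or_gt_of_ne hkk with h4 | h4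
      · right
        have := Wgt_hilo hx h4 hk₀K
        omega
      · left
        have := Wgt_hilo hx h4 hkK
        omega
  · push Not at hex
    rw [Finset.sum_eq_zero]
    · exact hB
    · intro k hk
      refine hzero k hk ?_
      rcases Nat.lt_or_ge n (lo k) with h1 | h1
      · exact Or.inl h1
      · exact Or.inr (hex k hk h1)

end Pool.Agent.W8d7136b
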