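import Pool.Agent.W_MP_8d7136_h58b.Exist
import Pool.Agent.W_MP_8d7136_h58b.Ext

set_option autoImplicit false

/-!
The Banach space `X`, for a fixed good system `S0`.  Port of `Pool.Agent.W_MP_8d7136_h58.XDef`.
-/

namespace Pool.Agent.W8d7136b

open Pool.Agent.W8d7136 (mm tt nn code wt)

/-- the fixed system -/
noncomputable def S0 : Sys := exists_good.choose

theorem hS0 : Good S0 := exists_good.choose_spec

/-- finitely supported lower triangular vectors -/
def Fs : Submodule ℂ W where
  carrier := {v | ∃ k, Sup 0 k v}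
  zero_mem' := ⟨0, fun _ _ _ => rfl⟩
  add_mem' := by
    rintro v v' ⟨k, hk⟩ ⟨k', hk'⟩
    refine ⟨max k k', fun i j hi => ?_⟩
    have h1 : v i j = 0 := hk i j (by omega)
    have h2 : v' i j = 0 := hk' i j (by omega)
    simp [h1, h2]
  smul_mem' := by
    rintro r v ⟨k, hk⟩
    refine ⟨k, fun i j hi => ?_⟩
    have h1 : v i j = 0 := hk i j hi
    simp [h1]

theorem mem_Fs {v : W} : v ∈ Fs ↔ ∃ k, Sup 0 k v := Iff.rfl

/-- the index set of the functionals `e n ∘ M a`, `U a` -/
abbrev G : Type := ℕ × {a : ℕ → ℂ // U a}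

theorem ev_mem (v : Fs) : Memℓp (fun g : G => e S0 g.1 (M g.2.1 (v : W))) ⊤ := by
  obtain ⟨k, hk⟩ := v.2
  obtain ⟨C, hC⟩ := exists_NB hS0 hk
  refine memℓp_infty ⟨C, ?_⟩
  rintro _ ⟨g, rfl⟩
  exact hC g.1 g.2.1 g.2.2

/-- the evaluation map -/
noncomputable def ev : Fs →ₗ[ℂ] lp (fun _ : G => ℂ) ⊤ where
  toFun v := ⟨fun g : G => e S0 g.1 (M g.2.1 (v : W)), ev_mem v⟩
  map_add' v v' := by
    ext g
    simp
  map_smul' r v := by
    ext g
    simp

/-- the closure of the set of all finitely supported vectors -/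
noncomputable def XS : Submodule ℂ (lp (fun _ : G => ℂ) ⊤) :=
  (LinearMap.range ev).topologicalClosure

/-- the Banach space -/
def X : Type := XS

noncomputable instance : NormedAddCommGroup X := inferInstanceAs (NormedAddCommGroup XS)

noncomputable instance : NormedSpace ℂ X := inferInstanceAs (NormedSpace ℂ XS)

instance : CompleteSpace X :=
  (Submodule.isClosed_topologicalClosure (LinearMap.range ev)).completeSpace_coe

/-- the inclusion of the finitely supported vectors -/
noncomputable def iota : Fs →ₗ[ℂ] X :=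
  LinearMap.codRestrict XS ev fun v => Submodule.le_topologicalClosure _ ⟨v, rfl⟩

/-- a linear extension of the inclusion to all of `W` (only its values on `Fs` matter) -/
noncomputable def io : W →ₗ[ℂ] X := (LinearMap.exists_extend iota).choose

theorem io_eq (v : Fs) : io (v : W) = iota v :=
  LinearMap.congr_fun (LinearMap.exists_extend iota).choose_spec v

/-- the inclusion into the space of bounded families -/
noncomputable def toL : X →ₗᵢ[ℂ] lp (fun _ : G => ℂ) ⊤ := XS.subtypeₗᵢ

theorem toL_iota (v : Fs) : toL (iota v) = ev v := rfl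

/-- the functionals `e n ∘ M a` on `X` -/
noncomputable def gX (g : G) : X →L[ℂ] ℂ :=
  LinearMap.mkContinuous
    { toFun := fun u : X => toL u g
      map_add' := fun u u' => by rw [map_add]; rfl
      map_smul' := fun r u => by rw [map_smul]; rfl } 1 (by
        intro u
        rw [one_mul, ← toL.norm_map u]
        exact lp.norm_apply_le_norm ENNReal.top_ne_zero (toL u) g)

theorem gX_le (g : G) (u : X) : ‖gX g u‖ ≤ ‖u‖ := by
  rw [← toL.norm_map u]
  exact lp.norm_apply_le_norm ENNReal.top_ne_zero (toL u) g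

theorem norm_le_of_gX {u : X} {C : ℝ} (hC : 0 ≤ C) (h : ∀ g, ‖gX g u‖ ≤ C) : ‖u‖ ≤ C := by
  rw [← toL.norm_map u]
  exact lp.norm_le_of_forall_le hC fun g => h g

theorem gX_io {v : W} (hv : v ∈ Fs) (g : G) : gX g (io v) = e S0 g.1 (M g.2.1 v) := by
  have h1 : gX g (io v) = toL (io v) g := rfl
  rw [h1, io_eq ⟨v, hv⟩, toL_iota]
  rfl

theorem norm_io_le {v : W} (hv : v ∈ Fs) {C : ℝ} : ‖io v‖ ≤ C ↔ NB S0 C v := by
  constructor
  · intro h n a ha
    have h1 := gX_io hv (n, ⟨a, ha⟩)
    change gX (n, ⟨a, ha⟩) (io v) = e S0 n (M a v) at h1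
    rw [← h1]
    exact (gX_le _ _).trans h
  · intro h
    refine norm_le_of_gX (NB_nonneg h) fun g => ?_
    rw [gX_io hv]
    exact h g.1 g.2.1 g.2.2

/-- the finitely supported vectors are dense -/
theorem exists_io (u : X) {ε : ℝ} (hε : 0 < ε) : ∃ v ∈ Fs, ‖u - io v‖ < ε := by
  have h1 : toL u ∈ closure (LinearMap.range ev : Set (lp (fun _ : G => ℂ) ⊤)) := by
    rw [← Submodule.topologicalClosure_coe]
    exact u.2
  obtain ⟨b, ⟨v, rfl⟩, hb⟩ := Metric.mem_closure_iff.1 h1 ε hε
  refine ⟨v, v.2, ?_⟩
  rw [io_eq v, ← toL.norm_map (u - iota v), map_sub, toL_iota, ← dist_eq_norm]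
  exact hb

theorem XDef_dense : DenseRange iota := by
  intro u
  rw [Metric.mem_closure_iff]
  intro ε hε
  obtain ⟨v, hv, h⟩ := exists_io u hε
  refine ⟨iota ⟨v, hv⟩, ⟨_, rfl⟩, ?_⟩
  rw [dist_eq_norm, ← io_eq ⟨v, hv⟩]
  exact h

theorem XDef_inj : Function.Injective iota := by
  rw [← LinearMap.ker_eq_bot, LinearMap.ker_eq_bot']
  intro v hv
  have h1 : NB S0 0 (v : W) := by
    rw [← norm_io_le v.2, io_eq v, hv, norm_zero]
  apply Subtype.ext
  funext n c
  change (v : W) n c = 0
  obtain ⟨k, hk⟩ := v.2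
  by_cases hc : n < c
  · exact hk n c (Or.inr (Or.inr hc))
  · have h2 := coord_le hS0 le_rfl (NB_iff.1 h1 (n + 1))
    rw [mul_zero] at h2
    have h3 : ‖(v : W) n c‖ ≤ ∑ k ∈ Finset.range (n + 1), ‖(v : W) n k‖ :=
      Finset.single_le_sum (f := fun k => ‖(v : W) n k‖) (fun _ _ => norm_nonneg _)
        (Finset.mem_range.2 (by omega))
    exact norm_le_zero_iff.1 (h3.trans h2)

/-- continuous linear maps which agree on the finitely supported vectors are equal -/
theorem eq_of_io {Y : Type*} [NormedAddCommGroup Y] [NormedSpace ℂ Y] {A B : X →L[ℂ] Y}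
    (h : ∀ v ∈ Fs, A (io v) = B (io v)) : A = B := by
  have h1 : (A : X → Y) = B := by
    refine XDef_dense.equalizer A.continuous B.continuous ?_
    funext v
    have h2 := h v v.2
    rw [io_eq v] at h2
    exact h2
  exact ContinuousLinearMap.ext fun u => congrFun h1 u

/-- extension of bounded operators -/
theorem exists_op {Y : Type*} [NormedAddCommGroup Y] [NormedSpace ℂ Y] [CompleteSpace Y]
    (m : W →ₗ[ℂ] Y) {K : ℝ} (hK : 0 ≤ K) (hm : ∀ v ∈ Fs, ∀ C, NB S0 C v → ‖m v‖ ≤ K * C) :
    ∃ A : X →L[ℂ] Y, ‖A‖ ≤ K ∧ ∀ v ∈ Fs, A (io v) = m v := by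
  have h1 : ∀ v : Fs, ‖(m.comp Fs.subtype) v‖ ≤ K * ‖iota v‖ := by
    intro v
    have h2 : NB S0 ‖iota v‖ (v : W) := by
      rw [← norm_io_le v.2, io_eq v]
    exact hm v v.2 _ h2
  refine ⟨(m.comp Fs.subtype).extendOfNorm iota, ?_, ?_⟩
  · refine ContinuousLinearMap.opNorm_le_bound _ hK fun u => ?_
    exact LinearMap.norm_extendOfNorm_apply_le XDef_dense K h1 u
  · intro v hv
    rw [io_eq ⟨v, hv⟩, LinearMap.extendOfNorm_eq XDef_dense ⟨K, h1⟩]
    rfl

/-- finitely supported sequences -/
noncomputable def XDef_seq : (ℕ →₀ ℂ) →ₗ[ℂ] Fs where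
  toFun f := ⟨fun n c => if c = 0 then f n else 0, by
    refine ⟨f.support.sup id + 1, fun i c hi => ?_⟩
    by_cases hc : c = 0
    · have h1 : i ∉ f.support := by
        intro h2
        have h3 : i ≤ f.support.sup id := Finset.le_sup (f := id) h2
        omega
      rw [Finsupp.mem_support_iff, not_not] at h1
      simp only [h1, ite_self]
    · exact if_neg hc⟩
  map_add' f g := by
    apply Subtype.ext
    funext n c
    change (if c = 0 then (f + g) n else 0) =
      (if c = 0 then f n else 0) + (if c = 0 then g n else 0)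
    split_ifs
    · rw [Finsupp.add_apply]
    · rw [add_zero]
  map_smul' r f := by
    apply Subtype.ext
    funext n c
    change (if c = 0 then (r • f) n else 0) = r • (if c = 0 then f n else 0)
    split_ifs
    · rw [Finsupp.smul_apply]
    · rw [smul_zero]

theorem XDef_seq_inj : Function.Injective XDef_seq := by
  intro f g h
  ext n
  have h1 : (XDef_seq f : W) n 0 = (XDef_seq g : W) n 0 := by rw [h]
  change (if 0 = 0 then f n else 0) = (if 0 = 0 then g n else 0) at h1
  rwa [if_pos rfl, if_pos rfl] at h1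

/-- infinite dimensional -/
theorem X_inf : ¬ FiniteDimensional ℂ X := by
  intro h
  have h1 : Module.Finite ℂ (ℕ →₀ ℂ) :=
    Module.Finite.of_injective (iota.comp XDef_seq) (XDef_inj.comp XDef_seq_inj)
  have h2 : Finite ℕ := Module.Finite.finite_basis (Finsupp.basisSingleOne (R := ℂ) (ι := ℕ))
  exact not_finite ℕ

/-- the finitely supported vectors with rational coefficients form a countable dense set -/
theorem X_sep : TopologicalSpace.SeparableSpace X := by
  let u : ℕ × ℕ → W := fun g => fun i c => if i = g.1 ∧ c = g.2 then 1 else 0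
  have hu : ∀ (i c n c' : ℕ),
      u (i, c) n c' = if n = i ∧ c' = c then 1 else 0 := fun _ _ _ _ => rfl
  have hmem : ∀ v ∈ Fs, io v ∈ Submodule.span ℂ (Set.range fun g => io (u g)) := by
    rintro v ⟨k, hk⟩
    have h : v = ∑ i ∈ Finset.range k, ∑ c ∈ Finset.range k, v i c • u (i, c) := by
      funext n c
      rw [Finset.sum_apply, Finset.sum_apply]
      have h1 : ∀ i ∈ Finset.range k, (∑ c' ∈ Finset.range k, v i c' • u (i, c')) n c =
          if i = n then v n c else 0 := by
        intro i hik
        rw [Finset.mem_range] at hik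
        rw [Finset.sum_apply, Finset.sum_apply]
        simp only [Pi.smul_apply, hu, smul_eq_mul]
        by_cases hi : i = n
        · subst hi
          have h2 : ∀ j ∈ Finset.range k, v i j * (if i = i ∧ c = j then (1 : ℂ) else 0) =
              if c = j then v i c else 0 := by
            intro j _
            by_cases hj : c = j
            · subst hj
              simp
            · simp [hj]
          rw [Finset.sum_congr rfl h2, Finset.sum_ite_eq, if_pos rfl]
          split_ifs with h3
          · rfl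
          · rw [Finset.mem_range] at h3
            exact (hk i c (Or.inr (Or.inr (by omega)))).symm
        · have hi' : ¬ n = i := fun h => hi h.symm
          simp [hi, hi']
      rw [Finset.sum_congr rfl h1, Finset.sum_ite_eq']
      split_ifs with h2
      · rfl
      · rw [Finset.mem_range, not_lt] at h2
        exact hk n c (Or.inr (Or.inl h2))
    rw [h, map_sum]
    refine Submodule.sum_mem _ fun i _ => ?_
    rw [map_sum]
    refine Submodule.sum_mem _ fun c _ => ?_
    rw [map_smul]
    exact Submodule.smul_mem _ _ (Submodule.subset_span ⟨(i, c), rfl⟩)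
  have hsep : TopologicalSpace.IsSeparable
      (Submodule.span ℂ (Set.range fun g => io (u g)) : Set X) :=
    (Set.countable_range _).isSeparable.span
  have hden : closure (Submodule.span ℂ (Set.range fun g => io (u g)) : Set X) = Set.univ := by
    rw [Set.eq_univ_iff_forall]
    intro w
    rw [Metric.mem_closure_iff]
    intro ε hε
    obtain ⟨v, hv, h⟩ := exists_io w hε
    exact ⟨io v, hmem v hv, by rwa [dist_eq_norm]⟩
  have h3 := hsep.closure
  rw [hden] at h3
  exact TopologicalSpace.isSeparable_univ_iff.1 h3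

end Pool.Agent.W8d7136b
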