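import Pool.Agent.W_MP_8d7136_h58b.XDef

set_option autoImplicit false

/-!
The operators on `X`.  Port of `Pool.Agent.W_MP_8d7136_h58.XOps`.
-/

open Filter Topology

namespace Pool.Agent.W8d7136b

open Pool.Agent.W8d7136 (mm tt nn code wt)

theorem Fs_of_Sup {lo hi : ℕ} {v : W} (h : Sup lo hi v) : v ∈ Fs :=
  ⟨hi, fun i k hi' => h i k (by omega)⟩

theorem Fs_M (a : ℕ → ℂ) {v : W} (hv : v ∈ Fs) : M a v ∈ Fs := by
  obtain ⟨k, hk⟩ := hv
  refine ⟨k, fun i j hi => ?_⟩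
  rw [M_apply, hk i j hi, mul_zero]

theorem Fs_Mult {m : W →ₗ[ℂ] W} (hm : Mult m) {v : W} (hv : v ∈ Fs) : m v ∈ Fs := by
  obtain ⟨k, hk⟩ := hv
  exact ⟨k, Sup_Mult hm hk⟩

theorem exists_PX (k : ℕ) : ∃ A : X →L[ℂ] X, ‖A‖ ≤ 2 ∧ ∀ v ∈ Fs, A (io v) = io (P k v) := by
  obtain ⟨A, hA, hA'⟩ := exists_op (io ∘ₗ P k) (by norm_num : (0 : ℝ) ≤ 2) (fun v hv C hC =>
    (norm_io_le (Fs_Mult (Mult_P k) hv)).2 (NB_P hS0 hC k))
  exact ⟨A, hA, hA'⟩

theorem exists_MX {a : ℕ → ℂ} {B : ℝ} (hB : 0 ≤ B) (ha : ∀ k, ‖a k‖ ≤ B) :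
    ∃ A : X →L[ℂ] X, ‖A‖ ≤ B ∧ ∀ v ∈ Fs, A (io v) = io (M a v) := by
  have h1 : ∀ (v : W) (C : ℝ), NB S0 C v → NB S0 (B * C) (M a v) := by
    intro v C hC n a' ha'
    rw [M_M]
    refine Bd_M_le (fun a ha => hC n a ha) fun k => ?_
    rw [norm_mul]
    exact (mul_le_of_le_one_left (norm_nonneg _) (ha' k)).trans (ha k)
  obtain ⟨A, hA, hA'⟩ := exists_op (io ∘ₗ M a) hB (fun v hv C hC =>
    (norm_io_le (Fs_M a hv)).2 (h1 v C hC))
  exact ⟨A, hA, hA'⟩

theorem exists_sigX (n : ℕ) : ∃ A : X →L[ℂ] ℂ, ‖A‖ ≤ 3 ∧ ∀ v ∈ Fs, A (io v) = sig n v :=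
  exists_op (sig n) (by norm_num) fun v _ _ hC =>
    (sig_le v).trans (coord_le hS0 (NB_nonneg hC) (NB_iff.1 hC (n + 1)))

/-- the basis projections -/
noncomputable def PX (k : ℕ) : X →L[ℂ] X := (exists_PX k).choose

/-- the complements -/
noncomputable def QX (q : ℕ) : X →L[ℂ] X := ContinuousLinearMap.id ℂ X - PX (q + 1)

open Classical in
/-- the multiplication operators (zero if `a` is unbounded) -/
noncomputable def MX (a : ℕ → ℂ) : X →L[ℂ] X :=
  if h : ∃ B : ℝ, 0 ≤ B ∧ ∀ k, ‖a k‖ ≤ B then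
    (exists_MX h.choose_spec.1 h.choose_spec.2).choose
  else 0

/-- the functionals `e n` -/
noncomputable def eX (n : ℕ) : X →L[ℂ] ℂ := gX (n, ⟨fun _ => 1, U_one⟩)

/-- the coordinate sums -/
noncomputable def sigX (n : ℕ) : X →L[ℂ] ℂ := (exists_sigX n).choose

/-- combinations of the functionals `e` -/
noncomputable def bfX (n : ℕ) (b : ℕ → ℕ → ℂ) : X →L[ℂ] ℂ :=
  ∑ i ∈ Finset.range n, (eX i).comp (MX (b i))

/-- equality of operators is checked on finitely supported vectors -/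
theorem XOps_eq {Y : Type*} [NormedAddCommGroup Y] [NormedSpace ℂ Y] (A B : X →L[ℂ] Y)
    (h : ∀ v ∈ Fs, A (io v) = B (io v)) (u : X) : A u = B u := by
  rw [eq_of_io h]

section

variable {v : W} (u : X)

theorem PX_io (hv : v ∈ Fs) (k : ℕ) : PX k (io v) = io (P k v) :=
  (exists_PX k).choose_spec.2 v hv

theorem XOps_QX (q : ℕ) : QX q u = u - PX (q + 1) u := by
  unfold QX
  rw [ContinuousLinearMap.sub_apply, ContinuousLinearMap.id_apply]

theorem QX_io (hv : v ∈ Fs) (q : ℕ) : QX q (io v) = io (Q q v) := by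
  rw [XOps_QX, PX_io hv, Q_eq, map_sub]

theorem MX_io (hv : v ∈ Fs) {a : ℕ → ℂ} {B : ℝ} (ha : ∀ k, ‖a k‖ ≤ B) :
    MX a (io v) = io (M a v) := by
  have h : ∃ B : ℝ, 0 ≤ B ∧ ∀ k, ‖a k‖ ≤ B := ⟨B, (norm_nonneg _).trans (ha 0), ha⟩
  unfold MX
  rw [dif_pos h]
  exact (exists_MX h.choose_spec.1 h.choose_spec.2).choose_spec.2 v hv

/-- (`eq_of_io` with `exists_MX`) -/
theorem MX_norm {a : ℕ → ℂ} {B : ℝ} (hB : 0 ≤ B) (ha : ∀ k, ‖a k‖ ≤ B) : ‖MX a‖ ≤ B := by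
  obtain ⟨A, hA, hA'⟩ := exists_MX hB ha
  have h : MX a = A := eq_of_io fun v hv => by rw [MX_io hv ha, hA' v hv]
  rw [h]
  exact hA

theorem XOps_MX_le {a : ℕ → ℂ} {B : ℝ} (hB : 0 ≤ B) (ha : ∀ k, ‖a k‖ ≤ B) :
    ‖MX a u‖ ≤ B * ‖u‖ :=
  (MX a).le_of_opNorm_le (MX_norm hB ha) u

theorem eX_io (hv : v ∈ Fs) (n : ℕ) : eX n (io v) = e S0 n v := by
  unfold eX
  rw [gX_io hv]
  change e S0 n (M (fun _ => 1) v) = e S0 n v
  rw [M_one]

theorem gX_eq {a : ℕ → ℂ} (ha : U a) (n : ℕ) : gX (n, ⟨a, ha⟩) u = eX n (MX a u) := by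
  refine XOps_eq (gX (n, ⟨a, ha⟩)) ((eX n).comp (MX a)) (fun v hv => ?_) u
  rw [ContinuousLinearMap.comp_apply, MX_io hv ha, eX_io (Fs_M a hv), gX_io hv]

theorem norm_le_of_eX {C : ℝ} (hC : 0 ≤ C) (h : ∀ n a, U a → ‖eX n (MX a u)‖ ≤ C) : ‖u‖ ≤ C := by
  refine norm_le_of_gX hC fun g => ?_
  obtain ⟨n, a, ha⟩ := g
  rw [gX_eq u ha]
  exact h n a ha

theorem sigX_io (hv : v ∈ Fs) (n : ℕ) : sigX n (io v) = sig n v :=
  (exists_sigX n).choose_spec.2 v hv

theorem XOps_bfX_apply (n : ℕ) (b : ℕ → ℕ → ℂ) :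
    bfX n b u = ∑ i ∈ Finset.range n, eX i (MX (b i) u) := by
  simp only [bfX, ContinuousLinearMap.sum_apply, ContinuousLinearMap.comp_apply]

theorem bfX_io (hv : v ∈ Fs) {n : ℕ} {b : ℕ → ℕ → ℂ} {B : ℝ} (hb : LB n b B) :
    bfX n b (io v) = bf S0 n b v := by
  obtain ⟨β, hβ, -⟩ := hb
  rw [XOps_bfX_apply, bf_apply]
  refine Finset.sum_congr rfl fun i _ => ?_
  rw [MX_io hv (hβ i), eX_io (Fs_M _ hv)]

theorem PX_le (k : ℕ) : ‖PX k u‖ ≤ 2 * ‖u‖ :=
  (PX k).le_of_opNorm_le (exists_PX k).choose_spec.1 u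

theorem QX_le (q : ℕ) : ‖QX q u‖ ≤ 3 * ‖u‖ := by
  rw [XOps_QX]
  have h1 := norm_sub_le u (PX (q + 1) u)
  have h2 := PX_le u (q + 1)
  linarith

theorem eX_le (n : ℕ) : ‖eX n u‖ ≤ ‖u‖ := gX_le _ u

theorem sigX_le (n : ℕ) : ‖sigX n u‖ ≤ 3 * ‖u‖ :=
  (sigX n).le_of_opNorm_le (exists_sigX n).choose_spec.1 u

theorem bfX_le {n : ℕ} {b : ℕ → ℕ → ℂ} {B : ℝ} (hb : LB n b B) : ‖bfX n b u‖ ≤ B * ‖u‖ := by
  obtain ⟨β, hβ, hB⟩ := hb
  rw [XOps_bfX_apply]
  calc ‖∑ i ∈ Finset.range n, eX i (MX (b i) u)‖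
      ≤ ∑ i ∈ Finset.range n, ‖eX i (MX (b i) u)‖ := norm_sum_le _ _
    _ ≤ ∑ i ∈ Finset.range n, β i * ‖u‖ := by
        refine Finset.sum_le_sum fun i _ => (eX_le _ i).trans ?_
        exact XOps_MX_le u ((norm_nonneg _).trans (hβ i 0)) (hβ i)
    _ = (∑ i ∈ Finset.range n, β i) * ‖u‖ := by rw [Finset.sum_mul]
    _ ≤ B * ‖u‖ := mul_le_mul_of_nonneg_right hB (norm_nonneg _)

theorem bfX_eq {n n' : ℕ} (hn : n ≤ n') {b : ℕ → ℕ → ℂ} (hb : ∀ i, n ≤ i → ∀ k, b i k = 0) :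
    bfX n' b u = bfX n b u := by
  rw [XOps_bfX_apply, XOps_bfX_apply]
  symm
  refine Finset.sum_subset (Finset.range_mono hn) fun i _ hi => ?_
  rw [Finset.mem_range, not_lt] at hi
  have h1 : ‖MX (b i) u‖ ≤ 0 * ‖u‖ := XOps_MX_le u le_rfl fun k => by
    rw [hb i hi k, norm_zero]
  rw [zero_mul, norm_le_zero_iff] at h1
  rw [h1, map_zero]

theorem bfX_dl {n i : ℕ} (hi : i < n) : bfX n (dl i) u = eX i u :=
  XOps_eq _ _ (fun v hv => by rw [bfX_io hv (LB_dl hi), eX_io hv, bf_dl hi]) u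

theorem PX_PX (k l : ℕ) : PX k (PX l u) = PX (min k l) u := by
  refine XOps_eq ((PX k).comp (PX l)) (PX (min k l)) (fun v hv => ?_) u
  rw [ContinuousLinearMap.comp_apply, PX_io hv, PX_io (Fs_Mult (Mult_P l) hv), PX_io hv]
  unfold P
  rw [res_res, Set.Iio_inter_Iio]

theorem MX_PX {a : ℕ → ℂ} {B : ℝ} (ha : ∀ k, ‖a k‖ ≤ B) (k : ℕ) :
    MX a (PX k u) = PX k (MX a u) := by
  refine XOps_eq ((MX a).comp (PX k)) ((PX k).comp (MX a)) (fun v hv => ?_) u
  rw [ContinuousLinearMap.comp_apply, ContinuousLinearMap.comp_apply, PX_io hv,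
    MX_io (Fs_Mult (Mult_P k) hv) ha, MX_io hv ha, PX_io (Fs_M a hv), M_P]

theorem MX_MX {a a' : ℕ → ℂ} {B B' : ℝ} (ha : ∀ k, ‖a k‖ ≤ B) (ha' : ∀ k, ‖a' k‖ ≤ B') :
    MX a (MX a' u) = MX (fun k => a k * a' k) u := by
  have hB : 0 ≤ B := (norm_nonneg _).trans (ha 0)
  have h1 : ∀ k, ‖(fun k => a k * a' k) k‖ ≤ B * B' := fun k => by
    change ‖a k * a' k‖ ≤ B * B'
    rw [norm_mul]
    exact mul_le_mul (ha k) (ha' k) (norm_nonneg _) hB
  refine XOps_eq ((MX a).comp (MX a')) (MX (fun k => a k * a' k)) (fun v hv => ?_) u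
  rw [ContinuousLinearMap.comp_apply, MX_io hv ha', MX_io (Fs_M a' hv) ha, MX_io hv h1, M_M]

theorem MX_one : MX (fun _ => 1) u = u := by
  refine XOps_eq (MX (fun _ => 1)) (ContinuousLinearMap.id ℂ X) (fun v hv => ?_) u
  rw [MX_io hv (a := fun _ => 1) (B := 1) (fun k => by rw [norm_one]), M_one,
    ContinuousLinearMap.id_apply]

theorem QX_PX (q k : ℕ) : QX q (PX k u) = PX k (QX q u) := by
  rw [XOps_QX, XOps_QX, map_sub, PX_PX, PX_PX, min_comm]

theorem QX_PX_zero {q k : ℕ} (h : k ≤ q + 1) : QX q (PX k u) = 0 := by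
  rw [XOps_QX, PX_PX, min_eq_right h, sub_self]

theorem eX_PX {n k : ℕ} (h : n < k) : eX n (PX k u) = eX n u := by
  refine XOps_eq ((eX n).comp (PX k)) (eX n) (fun v hv => ?_) u
  rw [ContinuousLinearMap.comp_apply, PX_io hv, eX_io (Fs_Mult (Mult_P k) hv), eX_io hv]
  refine e_congr hS0 fun i hi j _ => ?_
  rw [Bd_P_apply, if_pos (by omega)]

theorem sigX_PX {n k : ℕ} (h : n < k) : sigX n (PX k u) = sigX n u := by
  refine XOps_eq ((sigX n).comp (PX k)) (sigX n) (fun v hv => ?_) u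
  rw [ContinuousLinearMap.comp_apply, PX_io hv, sigX_io (Fs_Mult (Mult_P k) hv), sigX_io hv,
    sig_apply, sig_apply]
  refine Finset.sum_congr rfl fun j _ => ?_
  rw [Bd_P_apply, if_pos h]

theorem sigX_PX_zero {n k : ℕ} (h : k ≤ n) : sigX n (PX k u) = 0 := by
  refine XOps_eq ((sigX n).comp (PX k)) 0 (fun v hv => ?_) u
  rw [ContinuousLinearMap.comp_apply, PX_io hv, sigX_io (Fs_Mult (Mult_P k) hv), sig_apply,
    ContinuousLinearMap.zero_apply]
  refine Finset.sum_eq_zero fun j _ => ?_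
  rw [Bd_P_apply, if_neg (by omega)]

theorem bfX_PX {n : ℕ} {b : ℕ → ℕ → ℂ} {B : ℝ} (hb : LB n b B) {k : ℕ} (h : n ≤ k) :
    bfX n b (PX k u) = bfX n b u := by
  refine XOps_eq ((bfX n b).comp (PX k)) (bfX n b) (fun v hv => ?_) u
  rw [ContinuousLinearMap.comp_apply, PX_io hv, bfX_io (Fs_Mult (Mult_P k) hv) hb, bfX_io hv hb]
  refine bf_congr hS0 fun i hi j _ => ?_
  rw [Bd_P_apply, if_pos (by omega)]

/-- first for the dense subspace, then by `PX_le` -/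
theorem PX_tendsto : Tendsto (fun k => PX k u) atTop (𝓝 u) := by
  rw [Metric.tendsto_atTop]
  intro ε hε
  obtain ⟨v, hv, hvu⟩ := exists_io u (show 0 < ε / 4 by positivity)
  obtain ⟨k0, hk0⟩ := hv
  refine ⟨k0, fun k hk => ?_⟩
  have h0 : PX k (io v) = io v := by
    rw [PX_io ⟨k0, hk0⟩]
    congr 1
    funext i c
    rw [Bd_P_apply]
    split_ifs with hi
    · rfl
    · exact (hk0 i c (Or.inr (Or.inl (by omega)))).symm
  have h1 : PX k u - u = PX k (u - io v) - (u - io v) := by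
    rw [map_sub, h0]
    abel
  have h2 := PX_le (u - io v) k
  have h3 := norm_sub_le (PX k (u - io v)) (u - io v)
  rw [dist_eq_norm, h1]
  linarith

/-- a functional only sees the components `k ≤ n` -/
theorem XOps_eM {a : ℕ → ℂ} (ha : U a) (n : ℕ) :
    eX n (MX a u) = ∑ k ∈ Finset.range (n + 1), a k * eX n (MX (dk k) u) := by
  have h1 : ∑ k ∈ Finset.range (n + 1), a k * eX n (MX (dk k) u) =
      (∑ k ∈ Finset.range (n + 1), a k • (eX n).comp (MX (dk k))) u := by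
    simp only [ContinuousLinearMap.sum_apply, ContinuousLinearMap.smul_apply, smul_eq_mul,
      ContinuousLinearMap.comp_apply]
  rw [h1]
  refine XOps_eq ((eX n).comp (MX a)) _ (fun v hv => ?_) u
  simp only [ContinuousLinearMap.sum_apply, ContinuousLinearMap.smul_apply, smul_eq_mul,
      ContinuousLinearMap.comp_apply]
  rw [MX_io hv ha, eX_io (Fs_M a hv), e_M_eq hS0]
  refine Finset.sum_congr rfl fun k _ => ?_
  rw [MX_io hv (U_dk k), eX_io (Fs_M _ hv)]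

/-- see the old `PX_mem` (`gX_eq`, `exists_ext` with the values `eX i (MX (dk j) u)`) -/
theorem PX_mem (k : ℕ) : ∃ v : W, Sup 0 k v ∧ PX k u = io v := by
  obtain ⟨v, hv1, hv2⟩ := exists_ext hS0 k (fun i j => eX i (MX (dk j) u))
  refine ⟨v, hv1, ?_⟩
  have hvF : v ∈ Fs := ⟨k, hv1⟩
  rw [← sub_eq_zero, ← norm_eq_zero]
  by_contra hne
  have hpos : 0 < ‖PX k u - io v‖ := lt_of_le_of_ne (norm_nonneg _) (Ne.symm hne)
  set ε := ‖PX k u - io v‖ / 5 with hε
  have hεp : 0 < ε := by positivity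
  obtain ⟨w, hw, hwu⟩ := exists_io u hεp
  have hPw : P k w ∈ Fs := Fs_Mult (Mult_P k) hw
  have hsup : Sup 0 k (P k w - v) := by
    intro i j hi
    rw [Pi.sub_apply, Pi.sub_apply, hv1 i j hi, Bd_P_apply, sub_zero]
    split_ifs with h1
    · obtain ⟨k', hk'⟩ := hw
      exact hk' i j (Or.inr (Or.inr (by omega)))
    · rfl
  have hNBl : NBl S0 k ε (P k w - v) := by
    intro i hi a ha
    have h1 : e S0 i (M a (P k w - v)) = eX i (MX a (io w - u)) := by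
      rw [XOps_eM _ ha, e_M_eq hS0]
      refine Finset.sum_congr rfl fun j hj => ?_
      rw [Finset.mem_range] at hj
      have h2 : e S0 i (M (dk j) (P k w)) = eX i (MX (dk j) (io w)) := by
        rw [← eX_io (Fs_M _ hPw), ← MX_io hPw (U_dk j), ← PX_io hw, MX_PX _ (U_dk j),
          eX_PX _ hi]
      rw [map_sub, map_sub, h2, hv2 i hi j (by omega), map_sub, map_sub]
    rw [h1]
    refine (eX_le _ i).trans ((XOps_MX_le _ zero_le_one ha).trans ?_)
    rw [one_mul, norm_sub_rev]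
    exact hwu.le
  have hNB := ext_bound hS0 hεp.le hsup hNBl
  have h2 : ‖io (P k w - v)‖ ≤ 2 * ε := (norm_io_le (Fs.sub_mem hPw hvF)).2 hNB
  have h3 : PX k u - io v = PX k (u - io w) + io (P k w - v) := by
    rw [map_sub, map_sub, PX_io hw]
    abel
  have h4 := PX_le (u - io w) k
  have h5 := norm_add_le (PX k (u - io w)) (io (P k w - v))
  rw [← h3] at h5
  linarith

/-- (`ext_bound`) -/
theorem XOps_PX_small {k : ℕ} {C : ℝ} (hC : 0 ≤ C)
    (h : ∀ n, n < k → ∀ a, U a → ‖eX n (MX a u)‖ ≤ C) : ‖PX k u‖ ≤ 2 * C := by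
  obtain ⟨v, hv1, hv2⟩ := PX_mem u k
  have hvF : v ∈ Fs := ⟨k, hv1⟩
  rw [hv2, norm_io_le hvF]
  refine ext_bound hS0 hC hv1 fun n hn a ha => ?_
  rw [← eX_io (Fs_M a hvF), ← MX_io hvF ha, ← hv2, MX_PX u ha, eX_PX _ hn]
  exact h n hn a ha

end

/-- the vectors supported below `k` -/
def XOps_j (k : ℕ) : (Fin k → Fin k → ℂ) →ₗ[ℂ] W where
  toFun a := fun i j => if h : i < k ∧ j < k then a ⟨i, h.1⟩ ⟨j, h.2⟩ else 0
  map_add' a a' := by
    funext i j
    simp only [Pi.add_apply]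
    split_ifs <;> simp
  map_smul' r a := by
    funext i j
    simp only [Pi.smul_apply, RingHom.id_apply]
    split_ifs <;> simp

theorem XOps_compact (k : ℕ) : IsCompactOperator (PX k) := by
  set V : Submodule ℂ X := LinearMap.range (io ∘ₗ XOps_j k) with hV
  have hfin : FiniteDimensional ℂ V := by
    rw [hV]
    infer_instance
  have hmem : ∀ u, PX k u ∈ V := by
    intro u
    obtain ⟨v, hv1, hv2⟩ := PX_mem u k
    refine ⟨fun i j => v i j, ?_⟩
    rw [hv2, LinearMap.comp_apply]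
    congr 1
    funext i j
    show (if h : i < k ∧ j < k then v i j else 0) = v i j
    split_ifs with h
    · rfl
    · exact (hv1 i j (by omega)).symm
  have hid : IsCompactOperator (_root_.id : V → V) :=
    (isCompactOperator_id_iff_finiteDimensional (𝕜 := ℂ)).2 hfin
  have h1 : IsCompactOperator (_root_.id ∘ ((PX k).codRestrict V hmem)) :=
    hid.comp_clm ((PX k).codRestrict V hmem)
  have h2 := h1.clm_comp V.subtypeL
  exact h2

/-- finite rank operators are compact -/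
theorem compact_comp_PX (T : X →L[ℂ] X) (k : ℕ) : IsCompactOperator (T.comp (PX k)) :=
  (XOps_compact k).clm_comp T

/-- the range of `PX N` is finite dimensional: `PX N u` is a linear combination of the vectors
`io (unit vector at (i, j))` with coefficients depending continuously and linearly on `u` -/
theorem PX_tendsto_zero {v : ℕ → X} (h : ∀ f : X →L[ℂ] ℂ, Tendsto (fun k => f (v k)) atTop (𝓝 0))
    (N : ℕ) : Tendsto (fun k => PX N (v k)) atTop (𝓝 0) := by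
  rw [Metric.tendsto_nhds]
  intro ε hε
  set δ : ℝ := ε / (4 * (N + 1)) with hδ
  have hδp : 0 < δ := by positivity
  have h1 : ∀ᶠ k in atTop, ∀ n ∈ Finset.range N, ∀ j ∈ Finset.range N,
      ‖eX n (MX (dk j) (v k))‖ ≤ δ := by
    rw [Finset.eventually_all]
    intro n _
    rw [Finset.eventually_all]
    intro j _
    have h2 := (h ((eX n).comp (MX (dk j)))).norm
    rw [norm_zero] at h2
    exact h2.eventually (ge_mem_nhds hδp)
  filter_upwards [h1] with k hk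
  have h3 := XOps_PX_small (v k) (C := ε / 4) (k := N) (by positivity) (fun n hn a ha => by
    rw [XOps_eM _ ha]
    calc ‖∑ j ∈ Finset.range (n + 1), a j * eX n (MX (dk j) (v k))‖
        ≤ ∑ j ∈ Finset.range (n + 1), ‖a j * eX n (MX (dk j) (v k))‖ := norm_sum_le _ _
      _ ≤ ∑ _j ∈ Finset.range (n + 1), δ := by
          refine Finset.sum_le_sum fun j hj => ?_
          rw [Finset.mem_range] at hj
          rw [norm_mul]
          exact (mul_le_of_le_one_left (norm_nonneg _) (ha j)).trans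
            (hk n (Finset.mem_range.2 hn) j (Finset.mem_range.2 (by omega)))
      _ = (n + 1 : ℕ) * δ := by rw [Finset.sum_const, Finset.card_range, nsmul_eq_mul]
      _ ≤ (N + 1) * δ := by
          refine mul_le_mul_of_nonneg_right ?_ hδp.le
          push_cast
          have : (n : ℝ) < N := by exact_mod_cast hn
          linarith
      _ = ε / 4 := by
          rw [hδ]
          field_simp)
  rw [dist_zero_right]
  linarith

end Pool.Agent.W8d7136b
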